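import Pool.Agent.Lib.MP_5c0be7_lc.G.Gren
import Pool.Agent.Lib.MP_5c0be7_lc.Defs2

/-!
The model generated by a proper class of indiscernibles is definable in the universe.
-/

namespace Pool.Agent.Lib.MP_5c0be7_lc

open ZFSet Cx Filter Pool.Agent.Lib.MP_053343_lc
open Pool.Agent.Shared.LDefs (E cons tl img mem_img bun mem_bun app gr app_gr gr_congr app_eq
  fst snd fst_pair snd_pair)

universe u

/-- Definable in the universe from parameters. -/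
def Dfb (M : S) : Prop := ∃ (φ : Fml) (l : List Z), ∀ x, x ∈ M ↔ CSat Set.univ φ (x :: l)

theorem zf_univ : ZF0 Set.univ := by
  refine ⟨fun _ _ _ _ => trivial, trivial, fun _ _ _ _ => trivial, fun _ _ => trivial,
    fun a _ => ⟨a.powerset, trivial, fun _ _ => mem_powerset⟩, fun _ _ _ _ _ => trivial,
    fun φ v _ a _ h => ?_⟩
  choose! f _ e using h
  exact ⟨img f a, trivial, fun x hx => ⟨_, mem_img.2 ⟨x, hx, rfl⟩, e x hx⟩⟩

theorem dfb_of {α : Type u} [Cx α] {R : α → Z → Prop} (h : U fun p : α × Z => R p.1 p.2) (a : α)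
    (o : ok Set.univ a) {Q : S} (e : ∀ x, x ∈ Q ↔ R a x) : Dfb Q := by
  obtain ⟨φ, c⟩ := h.ud2
  obtain ⟨l, -, d⟩ := es_list φ (co a)
  refine ⟨φ, l, fun x => (e x).trans (Iff.trans ?_ (d _ id x x).2.1)⟩
  rw [c _ zf_univ _ fun _ => trivial]
  show R a x ↔ R (mk' Set.univ (co a)) x
  rw [mk_co _ _ o]

/-- The collapse of a definable relation is definable. -/
theorem dfb_col {α : Type u} [Cx α] {m : α → S} {V : α → Z → Prop} {R : α → Z → Z → Prop}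
    (hm : U m) (hV : U fun p : α × Z => V p.1 p.2)
    (hR : U fun p : α × Z × Z => R p.1 p.2.1 p.2.2) (a : α) (o : ok Set.univ a) {Q : S}
    (t : Tr Q) (π : Z → Z) (hQ : ∀ x, x ∈ Q ↔ ∃ d, V a d ∧ π d = x)
    (e : ∀ c d, V a c → V a d → (R a c d ↔ π c ∈ π d)) : Dfb Q := by
  have hV' : ∀ {β : Type u} [Cx β] {f : β → α} {g : β → Z}, U f → U g → U fun x => V (f x) (g x) :=
    fun hf hg => hV.comp (hf.prodMk hg)
  have hR' : ∀ {β : Type u} [Cx β] {f : β → α} {g k : β → Z}, U f → U g → U k →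
      U fun x => R (f x) (g x) (k x) := fun hf hg hk => hR.comp (hf.prodMk (hg.prodMk hk))
  have em : m a = Set.univ := hm.1 _ _ zf_univ o
  refine dfb_of (R := fun a x => ∃ W ∈ m a, (∀ z ∈ W, V a (snd z) ∧
    (∀ y ∈ fst z, ∃ w ∈ W, fst w = y ∧ R a (snd w) (snd z)) ∧ ∀ c ∈ m a, V a c → R a c (snd z) →
      ∃ w ∈ W, fst w ∈ fst z ∧ ∀ g ∈ m a, V a g → (R a g c ↔ R a g (snd w))) ∧
    ∃ z ∈ W, fst z = x) (by fun_prop) a o fun x => ?_
  simp only [em, Set.mem_univ, true_and, forall_true_left]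
  constructor
  · intro hx
    choose! D d1 d2 using fun x => (hQ x).1
    let T := ZFSet.sep (· ∈ Q) (vonNeumann (x.rank + 1))
    have mT : ∀ y, y ∈ T ↔ y.rank < x.rank + 1 ∧ y ∈ Q := fun y => by
      rw [mem_sep, mem_vonNeumann]
    refine ⟨gr D T, fun z hz => ?_, _, mem_gr.2 ⟨x, (mT x).2 ⟨lt_add_one _, hx⟩, rfl⟩, fst_pair _ _⟩
    obtain ⟨y, hy, rfl⟩ := mem_gr.1 hz
    obtain ⟨y1, y2⟩ := (mT y).1 hy
    have k : ∀ w ∈ y, w ∈ T := fun w hw => (mT w).2 ⟨(rank_lt_of_mem hw).trans y1, t y y2 w hw⟩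
    simp only [fst_pair, snd_pair]
    refine ⟨d1 y y2, fun w hw => ⟨_, mem_gr.2 ⟨w, k w hw, rfl⟩, fst_pair _ _, ?_⟩, fun c hc r => ?_⟩
    · rw [snd_pair, e _ _ (d1 w (t y y2 w hw)) (d1 y y2), d2 w (t y y2 w hw), d2 y y2]
      exact hw
    · rw [e _ _ hc (d1 y y2), d2 y y2] at r
      refine ⟨_, mem_gr.2 ⟨_, k _ r, rfl⟩, by rwa [fst_pair], fun g hg => ?_⟩
      rw [snd_pair, e _ _ hg hc, e _ _ hg (d1 _ (t y y2 _ r)), d2 _ (t y y2 _ r)]
  · rintro ⟨W, H, z, hz, rfl⟩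
    suffices ∀ y, ∀ z ∈ W, fst z = y → π (snd z) = y from (hQ _).2 ⟨_, (H z hz).1, this _ z hz rfl⟩
    intro y
    induction y using ZFSet.inductionOn with
    | h y ih =>
      rintro z hz rfl
      obtain ⟨h1, h2, h3⟩ := H z hz
      have q : ∀ c, V a c → ∀ y ∈ π c, ∃ g, V a g ∧ π g = y := fun c hc y hy =>
        (hQ y).1 (t _ ((hQ _).2 ⟨c, hc, rfl⟩) y hy)
      refine ZFSet.ext fun y => ⟨fun hy => ?_, fun hy => ?_⟩
      · obtain ⟨c, hc, rfl⟩ := q _ h1 y hy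
        obtain ⟨w, hw, w1, w2⟩ := h3 c hc ((e _ _ hc h1).2 hy)
        have w3 := (H w hw).1
        have : π c = π (snd w) := ZFSet.ext fun y => ⟨fun hy => by
          obtain ⟨g, hg, rfl⟩ := q _ hc y hy
          exact (e _ _ hg w3).1 ((w2 g hg).1 ((e _ _ hg hc).2 hy)), fun hy => by
          obtain ⟨g, hg, rfl⟩ := q _ w3 y hy
          exact (e _ _ hg hc).1 ((w2 g hg).2 ((e _ _ hg w3).2 hy))⟩
        rwa [this, ih _ w1 w hw rfl]
      · obtain ⟨w, hw, rfl, w2⟩ := h2 y hy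
        rw [← ih _ hy w hw rfl]
        exact (e _ _ (H w hw).1 h1).1 w2

/-- `h` is increasing on `X` with values in `J` above `p`. -/
def Inc (J p X h : Z) : Prop :=
  (∀ a ∈ X, app h a ∈ J ∧ p ∈ app h a) ∧ ∀ a ∈ X, ∀ b ∈ X, a ∈ b → app h a ∈ app h b

/-- The value of a code at an assignment. -/
noncomputable def evl (w h d : Z) : Z := app (fst d) (gr (fun n => app h (app (snd d) n)) w)

/-- The indices that are used. -/
noncomputable def idx (w r c d : Z) : Z :=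
  img (fun n => app r n) w ∪ (img (fun n => app (snd c) n) w ∪ img (fun n => app (snd d) n) w)

/-- Membership between codes. -/
def Rl (M : S) (C J w c d : Z) : Prop := ∃ p ∈ C, ∃ r ∈ M, (∀ n ∈ w, (app r n).IsOrdinal) ∧
  ∀ h ∈ M, Inc J p (idx w r c d) h → evl w h c ∈ evl w h d

theorem enum (s : List Ordinal.{0}) : ∃ r : Z, (∀ n ∈ Ordinal.omega0.toZFSet,
    (app r n).IsOrdinal) ∧ ∀ a ∈ s, app r (s.idxOf a : Ordinal.{0}).toZFSet = a.toZFSet := by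
  let ρ : Ordinal.{0} → Ordinal.{0} := fun a => (s.idxOf a : Ordinal.{0})
  have i : Set.InjOn ρ {a | a ∈ s} := fun a ha b _ e => (List.idxOf_inj ha).1 (Nat.cast_injective e)
  refine ⟨gr (fun n => (Function.invFunOn ρ {a | a ∈ s} n.rank).toZFSet) Ordinal.omega0.toZFSet,
    fun n hn => by rw [app_gr hn]; exact isOrdinal_toZFSet _, fun a ha => ?_⟩
  rw [app_gr (Ordinal.toZFSet_mem_toZFSet_iff.2 (Ordinal.natCast_lt_omega0 _)),
    Ordinal.rank_toZFSet]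
  exact congrArg _ (i.leftInvOn_invFunOn ha)

variable {T : Type u} {G : Amb T}

namespace NS

variable {A : NS T} {I : Set T}

/-- The function given by a code. -/
noncomputable def vl (G : Amb T) (d : Z) (x : A.HH) : Z :=
  app (fst d) (gr (fun n => G.o (x (app (snd d) n).rank)) Ordinal.omega0.toZFSet)

theorem FF.pre {F : A.HH → T} (h : FF G F) (κ : Ordinal.{0} → Ordinal.{0}) :
    FF G fun x : A.HH => F fun a => x (κ a) := by
  obtain ⟨p, hp, s, h1, φ, h2⟩ := h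
  refine ⟨p, hp, s.map κ, fun _ => h1 _, φ, fun q => ?_⟩
  have := h2 (fun a => q.1 (κ a), q.2)
  rwa [show A.up (fun h _ => co G p s h) (fun a => q.1 (κ a), q.2) =
    A.up (fun h _ => co G p (s.map κ) h) q from by simp [NS.up, co, Function.comp_def]] at this

theorem FF.supp {F : A.HH → T} (h : FF G F) : ∃ s : List Ordinal.{0}, ∀ x y : A.HH,
    (∀ a ∈ s, x a = y a) → F x = F y := by
  obtain ⟨p, hp, s, h1, φ, h2⟩ := h
  refine ⟨s, fun x y e => (h2 (y, ⟨_, h1 x⟩)).1 ?_⟩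
  have := (h2 (x, ⟨_, h1 x⟩)).2 rfl
  rwa [NS.up, co, List.map_congr_left (g := fun a => (y a).1) fun a ha => congrArg _ (e a ha)] at this

theorem Ind.dfb (h : Ind G A I) (ga : A.Good G) {u : Ultrafilter A.HH}
    (hu : ∀ p ∈ A.C, ∀ s, Bs G I p s ∈ u) [Small.{0} A.C] :
    Dfb ((h.lu ga hu).pi '' {f | ∃ F, FF G F ∧ f = fun x => G.col A.In (F x)}) := by
  have l := h.lu ga hu
  obtain ⟨z, hz⟩ := ga.ne
  have : Nonempty A.C := ⟨⟨z, hz⟩⟩
  let w := Ordinal.omega0.{0}.toZFSet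
  let C : Z := ZFSet.range fun a : A.C => G.o a
  let J : Z := ZFSet.sep (fun y => ∃ a ∈ I, G.o a = y) C
  let P : Z := ZFSet.range fun a : A.C => G.col A.In a
  let dc : Z → A.C := Function.invFun fun a : A.C => G.o a
  have dco : ∀ a : A.C, dc (G.o a) = a :=
    Function.leftInverse_invFun fun _ _ e => Subtype.ext (Amb.o_inj e)
  have mC : ∀ a : A.C, G.o a ∈ C := fun a => mem_range.2 ⟨a, rfl⟩
  let B := ZFSet.sep (fun f => ∀ s, ∃ F : A.HH → T, FF G F ∧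
    vl G (pair f s) = fun x => G.col A.In (F x)) (powerset (prod (powerset (prod w C)) P))
  have mB : ∀ f, f ∈ B ↔ f ⊆ prod (powerset (prod w C)) P ∧ ∀ s, ∃ F : A.HH → T, FF G F ∧
      vl G (pair f s) = fun x => G.col A.In (F x) := fun f => by rw [mem_sep, mem_powerset]
  refine dfb_col (α := S × Z × Z × Z × Z) (m := fun a => a.1)
    (V := fun a d => fst d ∈ a.2.1 ∧ d = pair (fst d) (snd d) ∧
      ∀ n ∈ a.2.2.2.2, (app (snd d) n).IsOrdinal)
    (R := fun a c d => Rl a.1 a.2.2.1 a.2.2.2.1 a.2.2.2.2 c d) (by fun_prop) (by fun_prop)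
    (by unfold Rl Inc evl idx; fun_prop) (Set.univ, B, C, J, w)
    (by exact ⟨rfl, trivial, trivial, trivial, trivial⟩) l.tr (fun d => l.pi (vl G d))
    (fun x => ⟨?_, ?_⟩) fun c d hc hd => ?_
  · rintro ⟨_, ⟨F, hF, rfl⟩, rfl⟩
    obtain ⟨s, hs⟩ := hF.supp
    obtain ⟨r, r1, r2⟩ := enum s
    let f := gr (fun σ => G.col A.In (F fun a => dc (app σ (s.idxOf a : Ordinal.{0}).toZFSet)))
      (powerset (prod w C))
    have ev : ∀ t, vl G (pair f t) = fun x : A.HH => G.col A.In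
        (F fun a => x (app t (s.idxOf a : Ordinal.{0}).toZFSet).rank) := fun t => funext fun x => by
      rw [vl, fst_pair, snd_pair, app_gr (mem_powerset.2 fun y hy => by
        obtain ⟨n, hn, rfl⟩ := mem_gr.1 hy
        exact pair_mem_prod.2 ⟨hn, mC _⟩)]
      refine congrArg (fun k => G.col A.In (F k)) (funext fun a => ?_)
      rw [app_gr (Ordinal.toZFSet_mem_toZFSet_iff.2 (Ordinal.natCast_lt_omega0 _)), dco]
    refine ⟨pair f r, ⟨?_, by simp, by simpa using r1⟩, congrArg _ ((ev r).trans (funext fun x =>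
      congrArg _ (hs _ _ fun a ha => by rw [r2 a ha, Ordinal.rank_toZFSet])))⟩
    rw [fst_pair]
    refine (mB _).2 ⟨fun y hy => ?_, fun t => ⟨_, hF.pre _, ev t⟩⟩
    obtain ⟨n, hn, rfl⟩ := mem_gr.1 hy
    exact pair_mem_prod.2 ⟨hn, mem_range.2 ⟨⟨_, hF.mem _⟩, rfl⟩⟩
  · rintro ⟨d, ⟨d1, d2, -⟩, rfl⟩
    exact ⟨_, d2 ▸ ((mB _).1 d1).2 (snd d), rfl⟩
  obtain ⟨F1, f1, e1⟩ := ((mB _).1 hc.1).2 (snd c)
  obtain ⟨F2, f2, e2⟩ := ((mB _).1 hd.1).2 (snd d)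
  rw [← hc.2.1] at e1
  rw [← hd.2.1] at e2
  refine Iff.trans ?_ (l.pi_mem ⟨F1, f1, e1⟩ ⟨F2, f2, e2⟩).symm
  have ev : ∀ r k (x : A.HH), (∀ a ∈ idx w r c d, a.IsOrdinal → app k a = G.o (x a.rank)) →
      (evl w k c ∈ evl w k d ↔ vl G c x ∈ vl G d x) := fun r k x e => by
    rw [evl, evl, vl, vl, gr_congr fun n hn => e _ (mem_union.2 (.inr (mem_union.2 (.inl
      (mem_img.2 ⟨n, hn, rfl⟩))))) (hc.2.2 n hn), gr_congr fun n hn => e _ (mem_union.2 (.inr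
      (mem_union.2 (.inr (mem_img.2 ⟨n, hn, rfl⟩))))) (hd.2.2 n hn)]
  constructor
  · rintro ⟨_, hp, r, -, r1, H⟩
    obtain ⟨p, rfl⟩ := mem_range.1 hp
    by_contra n
    obtain ⟨q, hq, s, k⟩ := h.decide ga hu (fd_es (.neg (.mem 0 1))) (ff_cs f1 fun _ => f2)
      (by have := Ultrafilter.eventually_not.2 n; rw [e1, e2] at this; exact this)
    have o : ∀ a ∈ idx w r c d, a.IsOrdinal ∧ ∃ n : ℕ, a ∈ [app r (n : Ordinal.{0}).toZFSet,
        app (snd c) (n : Ordinal.{0}).toZFSet, app (snd d) (n : Ordinal.{0}).toZFSet] := by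
      have : ∀ n ∈ w, ∃ m : ℕ, (m : Ordinal.{0}).toZFSet = n := fun n hn => by
        obtain ⟨a, ha, rfl⟩ := Ordinal.mem_toZFSet_iff.1 hn
        obtain ⟨m, rfl⟩ := Ordinal.lt_omega0.1 ha
        exact ⟨m, rfl⟩
      simp only [idx, mem_union, mem_img]
      rintro _ (⟨n, hn, rfl⟩ | ⟨n, hn, rfl⟩ | ⟨n, hn, rfl⟩)
      exacts [⟨r1 n hn, (this n hn).imp fun _ e => by simp [e]⟩,
        ⟨hc.2.2 n hn, (this n hn).imp fun _ e => by simp [e]⟩,
        ⟨hd.2.2 n hn, (this n hn).imp fun _ e => by simp [e]⟩]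
    obtain ⟨x, hx⟩ := h.cnt (cs q fun _ => p) (cs_mem (fun _ => p.2) hq) (cs s fun n =>
      (List.range n).flatMap fun i : ℕ => [app r (i : Ordinal.{0}).toZFSet, app (snd c)
        (i : Ordinal.{0}).toZFSet, app (snd d) (i : Ordinal.{0}).toZFSet].map rank)
    have m : ∀ a ∈ idx w r c d, ∃ n, ∀ k, n < k → a.rank ∈ (List.range k).flatMap fun i : ℕ =>
        [app r (i : Ordinal.{0}).toZFSet, app (snd c) (i : Ordinal.{0}).toZFSet,
          app (snd d) (i : Ordinal.{0}).toZFSet].map rank := fun a ha =>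
      (o a ha).2.imp fun n hn k c => List.mem_flatMap.2 ⟨n, List.mem_range.2 c,
        List.mem_map_of_mem hn⟩
    have := (ev r _ x fun a ha _ => app_gr ha).1 (H (gr (fun a => G.o (x a.rank)) (idx w r c d))
      trivial ⟨fun a ha => ?_, fun a ha b hb e => ?_⟩)
    · rw [e1, e2] at this
      exact k x (hx 0) this
    · obtain ⟨n, hn⟩ := m a ha
      have := (hx (n + 2)).1 _ (hn _ n.lt_succ_self)
      rw [app_gr ha]
      exact ⟨(mem_sep.2 ⟨mC _, _, this.1, rfl⟩ : _ ∈ J), Amb.o_mem_o.2 this.2⟩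
    · obtain ⟨n, hn⟩ := m a ha
      obtain ⟨n', hn'⟩ := m b hb
      rw [app_gr ha, app_gr hb]
      exact Amb.o_mem_o.2 ((hx (n + n' + 2)).2 _ (hn (n + n' + 1) (by omega)) _
        (hn' (n + n' + 1) (by omega)) (rank_lt_of_mem e))
  · intro e
    rw [e1, e2] at e
    obtain ⟨p, hp, s, k⟩ := h.decide ga hu (fd_es (.mem 0 1)) (ff_cs f1 fun _ => f2) e
    obtain ⟨r, r1, r2⟩ := enum s
    refine ⟨_, mC ⟨p, hp⟩, r, trivial, r1, fun g _ i => ?_⟩
    have a1 : ∀ a ∈ idx w r c d, (dc (app g a)).1 ∈ I ∧ G.o (dc (app g a)) = app g a :=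
      fun a ha => by
        obtain ⟨y, y1, y2⟩ := (mem_sep.1 (show app g a ∈ J from (i.1 a ha).1)).2
        rw [← y2, dco ⟨y, h.sub y1⟩]
        exact ⟨y1, rfl⟩
    have a2 : ∀ a ∈ s, a.toZFSet ∈ idx w r c d := fun a ha => mem_union.2 (.inl (mem_img.2
      ⟨_, Ordinal.toZFSet_mem_toZFSet_iff.2 (Ordinal.natCast_lt_omega0 _), r2 a ha⟩))
    rw [ev r g (fun a => dc (app g a.toZFSet)) fun a ha o => by
      rw [o.toZFSet_rank_eq, (a1 a ha).2], e1, e2]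
    refine k _ ⟨fun a ha => ⟨(a1 _ (a2 a ha)).1, Amb.o_mem_o.1 ?_⟩, fun a ha b hb c =>
      Amb.o_mem_o.1 ?_⟩
    · rw [(a1 _ (a2 a ha)).2]
      exact (i.1 _ (a2 a ha)).2
    · rw [(a1 _ (a2 a ha)).2, (a1 _ (a2 b hb)).2]
      exact i.2 _ (a2 a ha) _ (a2 b hb) (Ordinal.toZFSet_mem_toZFSet_iff.2 c)

/-- The model generated by a proper class of indiscernibles, with its definition. -/
theorem Ind.model2 (h : Ind G A I) (ga : A.Good G) [Small.{0} A.C] :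
    ∃ Q j, Tr Q ∧ Elem (A.P G) Q j ∧ (∀ o : Ordinal.{0}, o.toZFSet ∈ Q) ∧ Dfb Q := by
  obtain ⟨u, hu⟩ := h.ultra ga.toBase
  have l := h.lu ga hu
  have m : ∀ a, (fun x : A.HH => G.o (x a)) ∈
      {f | ∃ F, FF G F ∧ f = fun x => G.col A.In (F x)} := fun a => by
    obtain ⟨F, h1, h2⟩ := ga.skF (fd_o 1 0) fun _ => ga.toBase.ff_val a
    exact ⟨F, h1, funext fun x => let ⟨y, hy, c⟩ := ga.o_mem _ (x a).2; h2 x y hy c.symm⟩
  obtain ⟨z, hz⟩ := ga.ne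
  have lt : ∀ a c, a < c → l.pi (fun x => G.o (x a)) ∈ l.pi fun x => G.o (x c) := fun a c e =>
    (l.pi_mem (m a) (m c)).2 (mem_of_superset (hu z hz [a, c]) fun x hx =>
      Amb.o_mem_o.2 (hx.2 a (by simp) c (by simp) e))
  have le : ∀ a, a ≤ (l.pi fun x => G.o (x a)).rank := fun a => by
    induction a using WellFoundedLT.induction with
    | ind a ih => exact le_of_forall_lt fun c hc => (ih c hc).trans_lt (rank_lt_of_mem (lt c a hc))
  refine ⟨_, _, l.tr, l.el, fun o => l.tr _ ⟨_, m (o + 1), rfl⟩ _ ?_, h.dfb ga hu⟩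
  have : (l.pi fun x => G.o (x (o + 1))).IsOrdinal := (l.losU (U.ud
    (p := fun p : Z => p.IsOrdinal) (by fun_prop)) (fun _ => _)
    (fun _ => m (o + 1)) 0 fun _ _ => rfl).2 (.of_forall fun x => Amb.o_ord _)
  rw [← IsOrdinal.toZFSet_rank_eq this, Ordinal.toZFSet_mem_toZFSet_iff]
  exact (lt_add_one o).trans_le (le _)

end NS

/-- Conclusion (a) from `o(k) ≥ k⁺⁺` in an inner model. -/
theorem conA_of_not_sm {M : S} {k : Z} (hI : Inner M) (ko : k.IsOrdinal) (e : ¬ Sm M k) : ConA := by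
  have h := hI.1
  have m := h.zf
  obtain ⟨k, km, ko, r, hr, d, hd, e1, e2, e3⟩ := exists_exact m h.ac (ko.toZFSet_rank_eq ▸ h.ord _)
    ko e
  obtain ⟨κ, rfl⟩ := isOrdinal_iff_mem_range_toZFSet.1 ko
  obtain ⟨δ, rfl⟩ := isOrdinal_iff_mem_range_toZFSet.1 (e1.ord' m hr hd)
  obtain ⟨μ, hμ⟩ := exists_next M κ
  have le : ∀ {V} (x : Ordinal.{0}), NZ M κ.toZFSet V →
      (x.toZFSet ∈ insert (app r V) (app r V) ↔ x ≤ (app r V).rank) := fun x hV => by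
    rw [← (e1.ord m hr hV).toZFSet_rank_eq, ← Ordinal.toZFSet_add_one,
      Ordinal.toZFSet_mem_toZFSet_iff, Ordinal.rank_toZFSet, Order.lt_add_one_iff]
  have top : ∀ x, x < δ ↔ ∃ V, Normal M κ V ∧ x ≤ (app r V).rank := fun x => by
    rw [← Ordinal.toZFSet_mem_toZFSet_iff, e1.2 _ (h.ord x)]
    exact exists_congr fun V => ⟨fun ⟨_, a, b⟩ => ⟨(normal_iff m km).2 a, (le x a).1 b⟩,
      fun ⟨a, b⟩ => ⟨a.mem, (normal_iff m km).1 a, (le x ((normal_iff m km).1 a)).2 b⟩⟩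
  refine ⟨M, hI, κ, μ, δ, ((top 0).1 (pos_of_ne_zero ?_)).imp fun _ => And.left,
    (next_iff m h.ord).2 hμ, (next_iff m h.ord).2 fun x => ⟨fun c => ?_, fun ⟨g, hg, g1, g2⟩ => ?_⟩,
    fun V => (app r V).rank, fun V hV x => ?_, top⟩
  · rintro rfl
    exact e2 ⟨∅, m.empty, by simp, by simp⟩
  · obtain ⟨g, hg, g1, g2⟩ := e3 _ (Ordinal.toZFSet_mem_toZFSet_iff.2 c)
    refine ⟨g, hg, fun y hy => ?_, g2⟩
    rw [← (g1 y hy).1.toZFSet_rank_eq, Ordinal.toZFSet_mem_toZFSet_iff, hμ,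
      (g1 y hy).1.toZFSet_rank_eq]
    exact (g1 y hy).2
  · by_contra c
    have s := Ordinal.toZFSet_subset_toZFSet_iff.2 (not_lt.1 c)
    refine e2 ⟨g, hg, fun y hy => ?_, fun y hy z hz => g2 y (s hy) z (s hz)⟩
    obtain ⟨w, hw, e⟩ := Ordinal.mem_toZFSet_iff.1 (g1 y (s hy))
    exact e ▸ ⟨isOrdinal_toZFSet w, (hμ w).1 hw⟩
  · have V1 := (normal_iff m km).1 hV
    rw [← Ordinal.toZFSet_mem_toZFSet_iff, (e1.ord m hr V1).toZFSet_rank_eq,
      e1.1 V hV.mem V1 _ (h.ord x)]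
    exact exists_congr fun W => ⟨fun ⟨_, a, b, c⟩ => ⟨(normal_iff m km).2 a, (below_iff m km).2 b,
      (le x a).1 c⟩, fun ⟨a, b, c⟩ => ⟨a.mem, (normal_iff m km).1 a, (below_iff m km).1 b,
        (le x ((normal_iff m km).1 a)).2 c⟩⟩

/-- All three conclusions from a set model with unboundedly many strong points and a definable
elementary extension that contains all ordinals. -/
theorem con_of_elem {P Q : S} {j : Z → Z} (p : ZF0 P) (c : AC P) (t : Tr Q) (el : Elem P Q j)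
    (o : ∀ o : Ordinal.{0}, o.toZFSet ∈ Q) (D : Dfb Q) (H : ∀ a ∈ P, a.IsOrdinal → ∃ k ∈ P,
      k.IsOrdinal ∧ a ∈ k ∧ ∀ s ∈ P, SZ P k s) : ConA ∧ ConB ∧ ConC := by
  have q := el.zf p t
  have qa := el.ac p q c
  have i : Elem Q Q id := ⟨fun _ h => h, fun _ _ _ => Iff.rfl⟩
  have I : Inner Q := ⟨q.inner qa o, D⟩
  have K : ∀ a, ∃ k, a < k ∧ ∀ l, k < l → StrTo Q k l := fun a => by
    obtain ⟨k, hk, ko, h1, h2⟩ := el.allU p q (fun z : S × Z => z.2.IsOrdinal → ∃ k ∈ z.1,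
      k.IsOrdinal ∧ z.2 ∈ k ∧ ∀ s ∈ z.1, SZ z.1 k s) (Q, a.toZFSet) (by fun_prop)
      (by rintro ⟨_, a⟩ ⟨rfl, h⟩; exact H a h) (by exact ⟨rfl, o a⟩) (isOrdinal_toZFSet a)
    rw [← ko.toZFSet_rank_eq] at h1 h2 hk
    refine ⟨_, Ordinal.toZFSet_mem_toZFSet_iff.1 h1, fun l _ => ?_⟩
    obtain ⟨s, hs, e, -⟩ := i.V q q (o l) (isOrdinal_toZFSet l)
    exact (h2 _ (q.insert (o l) hs)).strTo q qa hk (mem_insert _ _) fun x hx c =>
      mem_insert_of_mem _ ((e x).2 ⟨hx, by simpa using c⟩)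
  obtain ⟨k, -, e⟩ := K 0
  exact ⟨conA_of_not_sm I (isOrdinal_toZFSet k) (not_sm_of q qa (o k) fun l c =>
    ⟨Q, qa, i, o l, e l c⟩), ⟨Q, I, k, strong_of q fun l c => ⟨Q, i, o l, e l c⟩⟩, Q, I, fun a =>
    (K a).imp fun _ e => ⟨e.1, strong_of q fun l c => ⟨Q, i, o l, e.2 l c⟩⟩⟩

theorem NS.Good.con {A : NS T} (ga : A.Good G) {Q : S} {j : Z → Z} (t : Tr Q)
    (el : Elem (A.P G) Q j) (o : ∀ o : Ordinal.{0}, o.toZFSet ∈ Q) (D : Dfb Q)
    (H : ∀ a ∈ A.C, ∃ K, G.lt a K ∧ ∀ b ∈ A.C, ∃ τ L n, G.lt b L ∧ NS.Fr G A K τ L n) :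
    ConA ∧ ConB ∧ ConC := by
  refine con_of_elem ga.zf ga.ac t el o D ?_
  rintro _ ⟨a, ha, rfl⟩ ao
  obtain ⟨K, h1, h2⟩ := H a ha
  obtain ⟨_, _, _, -, f⟩ := h2 a ha
  refine ⟨_, ga.o_mem K (f.Km ga), Amb.o_ord K, ?_, ?_⟩
  · rw [← ao.toZFSet_rank_eq, ← (Amb.o_ord K).toZFSet_rank_eq, Ordinal.toZFSet_mem_toZFSet_iff]
    exact (Amb.rank_col _ a).trans_lt (rank_lt_of_mem (Amb.o_mem_o.2 h1))
  · rintro _ ⟨b, hb, rfl⟩
    obtain ⟨_, _, _, h3, f⟩ := h2 b hb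
    exact f.sz ga fun x hx => (Amb.mem_col.1 hx).imp fun u c => ⟨Amb.trans c.1.1 h3, c.2⟩

end Pool.Agent.Lib.MP_5c0be7_lc

namespace Pool.Agent.KM

open Ordinal Tr Pool.Agent.Lib.MP_5c0be7_lc Gren

universe u

/-- A countably complete measure at a limit of strong ordinals gives definable inner models. -/
theorem gren2 [AccSt.{u}] [RegSt.{u}] (E : Seq.{u}) (v k t : Ordinal.{u})
    (e : Ordinal.{u} → Ordinal.{u}) [_root_.Small.{0} (Set.Iio v)] (ls : LS E v)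
    (act : Act E v k t e) (oc : ∀ X : ℕ → Tr.{u}, (∀ n, In t (X n) ∧
      Nm E ((X n).map e) (leaf k)) → ∃ a, In k a ∧ ∀ n, Nm E (X n) a) (ns : ¬ Small E k) :
    ConA ∧ ConB ∧ ConC := by
  have h := top ls act oc
  have kv := (act.lt.trans act.dom).le
  have kl := limit_of_not_suc (nsk act) (zero_le.trans_lt act.big).ne'
  obtain ⟨I, hI⟩ := h.ind
  obtain ⟨Q, j, h1, h2, h3, D⟩ := hI.model2 h.good
  refine h.good.con h1 h2 h3 D fun a ha => ?_
  obtain ⟨m, h4, h5, h6, t', h7, h8, h9⟩ : ∃ m, a.1.ht < m ∧ m < k ∧ StrongTo E k m := by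
    by_contra c
    exact ns ⟨_, In.ht_lt kl ha, fun m c1 c2 c3 => c ⟨m, c1, c2, c3⟩⟩
  refine ⟨⟨leaf m, by simpa using h5.trans_le kv⟩, lt_leaf.2 ((in_ht _).mono h4.le),
    fun b hb => ?_⟩
  obtain ⟨l, c1, c2, c3⟩ := exb (nsk act) hb h5
  obtain ⟨n, c4, c5⟩ := h9 l c1
  exact ⟨_, _, _, by exact lt_leaf.2 c3,
    fr (ls.mono kv) kv (nsk act) (omega0_pos.trans h6) h7 h8 c2 c1 c4 c5⟩

/-- The assembly, with definable inner models. -/
theorem main2 [AccSt.{1}] [RegSt.{1}] [CovSt] (H : HypH) : ConA ∧ ConB ∧ ConC := by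
  by_contra hc
  refine CovSt.cov (fun E v k t e hv ls act oc => ?_) H
  by_contra hs
  have := small_of_lt_univ hv
  exact hc (gren2 E v k t e ls act (oc.seed act.move) hs)

end Pool.Agent.KM
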