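import Pool.Agent.Lib.MP_5c0be7_lc.G.EM0

/-!
The model generated by a proper class of indiscernibles.
-/

namespace Pool.Agent.Lib.MP_5c0be7_lc

open ZFSet Cx Filter Pool.Agent.Lib.MP_053343_lc
open Pool.Agent.Shared.LDefs (E cons tl)

universe u

variable {T : Type u} {G : Amb T}

namespace NS

variable {A : NS T} {I : Set T} {p q : T} {s S : List Ordinal.{0}}

/-- Assignments of points to ordinals. -/
abbrev HH (A : NS T) : Type (max u 1) := Ordinal.{0} → A.C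

/-- The code of a parameter and the values of an assignment on a list. -/
def co (G : Amb T) (p : T) (s : List Ordinal.{0}) (h : A.HH) : T := cd G p (s.map fun a => (h a).1)

/-- Functions definable from a code. -/
def FF (G : Amb T) (F : A.HH → T) : Prop := ∃ p ∈ A.C, ∃ s, Tm G A (fun h _ => co G p s h) F

/-- Assignments that are increasing on `s` with values in `I` above `p`. -/
def Bs (G : Amb T) (I : Set T) (p : T) (s : List Ordinal.{0}) : Set A.HH :=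
  {h | (∀ a ∈ s, (h a).1 ∈ I ∧ G.lt p (h a)) ∧ ∀ a ∈ s, ∀ b ∈ s, a < b → G.lt (h a) (h b)}

theorem srt (s : List Ordinal.{0}) : ∃ S : List Ordinal.{0}, S.Pairwise (· > ·) ∧
    ∀ x, x ∈ S ↔ x ∈ s :=
  ⟨s.toFinset.sort (· ≥ ·), (Finset.sortedGT_sort _).pairwise, fun x => by simp⟩

theorem Bs.dec {h : A.HH} (d : h ∈ Bs G I p s) (hS : S.Pairwise (· > ·)) (e : ∀ a ∈ S, a ∈ s)
    (l : ∀ a ∈ S, G.lt q (h a)) : Dec G I q (S.map fun a => (h a).1) :=
  ⟨List.pairwise_map.2 (hS.imp_of_mem fun ha hb c => d.2 _ (e _ hb) _ (e _ ha) c), fun _ hy =>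
    let ⟨a, ha, c⟩ := List.mem_map.1 hy; c ▸ ⟨(d.1 a (e a ha)).1, l a ha⟩⟩

theorem map_eq {C : Type*} (h : Ordinal.{0} → C) (hs : s.Nodup) : ∀ l : List C, l.length = s.length →
    ∃ h' : Ordinal.{0} → C, s.map h' = l := by
  induction s with
  | nil => exact fun l e => ⟨h, (List.length_eq_zero_iff.1 e).symm⟩
  | cons a s ih =>
    rintro (_ | ⟨y, l⟩) e
    · cases e
    obtain ⟨h', rfl⟩ := ih (List.nodup_cons.1 hs).2 l (Nat.succ.inj e)
    refine ⟨Function.update h' a y, ?_⟩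
    rw [List.map_cons, Function.update_self]
    exact congrArg _ (List.map_congr_left fun b hb => Function.update_of_ne
      (fun c : b = a => (List.nodup_cons.1 hs).1 (c ▸ hb)) _ _)

theorem ladder (a : Ordinal.{0}) (m : ℕ) : ∃ l : List Ordinal.{0}, l.length = m ∧
    l.Pairwise (· > ·) ∧ ∀ x ∈ l, a ≤ x ∧ x < a + m := by
  induction m with
  | zero => exact ⟨[], rfl, .nil, nofun⟩
  | succ m ih =>
    obtain ⟨l, h1, h2, h3⟩ := ih
    have e : a + m < a + (m + 1 : ℕ) := (add_lt_add_iff_left a).2 (Nat.cast_lt.2 m.lt_succ_self)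
    exact ⟨(a + m) :: l, congrArg _ h1, .cons (fun x hx => (h3 x hx).2) h2,
      List.forall_mem_cons.2 ⟨⟨le_self_add, e⟩, fun x hx => ⟨(h3 x hx).1, (h3 x hx).2.trans e⟩⟩⟩

section
variable (b : A.Base G)
include b

theorem Base.co_mem (hp : p ∈ A.C) (h : A.HH) : co G p s h ∈ A.C :=
  b.cd_mem hp fun _ hy => let ⟨a, _, e⟩ := List.mem_map.1 hy; e ▸ (h a).2

theorem Base.un (hp : p ∈ A.C) : Tm G A (fun h _ => co G p s h) (fun _ : A.HH => p) ∧
    ∀ a ∈ s, Tm G A (fun h _ => co G p s h) fun h : A.HH => (h a).1 :=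
  Tm.uncd b (Tm.var 0 (b.co_mem hp)) (fun _ => hp) fun h a => (h a).2

theorem Base.le1 (hp : p ∈ A.C) (hq : q ∈ A.C) (e : ∀ a ∈ s, a ∈ S) :
    Tm G A (fun h _ => co G (G.pr p q) S h) (co G p s : A.HH → T) :=
  have := b.un (s := S) (b.prc p hp q hq)
  (this.1.fst (fun _ => hp) fun _ => hq).cd b fun a ha => this.2 a (e a ha)

theorem Base.le2 (hp : p ∈ A.C) (hq : q ∈ A.C) (e : ∀ a ∈ s, a ∈ S) :
    Tm G A (fun h _ => co G (G.pr p q) S h) (co G q s : A.HH → T) :=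
  have := b.un (s := S) (b.prc p hp q hq)
  (this.1.snd (fun _ => hp) fun _ => hq).cd b fun a ha => this.2 a (e a ha)

theorem Base.norm {F : A.HH → T} (h : FF G F) : ∃ p ∈ A.C, ∃ S : List Ordinal.{0},
    S.Pairwise (· > ·) ∧ Tm G A (fun h _ => co G p S h) F :=
  let ⟨p, hp, s, t⟩ := h; let ⟨S, h1, h2⟩ := srt s
  ⟨_, b.prc p hp p hp, S, h1, t.via id (b.le1 hp hp fun a => (h2 a).2)⟩

theorem Base.common {F : ℕ → A.HH → T} (hF : ∀ i, FF G (F i)) (n : ℕ) :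
    ∃ p ∈ A.C, ∃ s, ∀ i < n, Tm G A (fun h _ => co G p s h) (F i) := by
  induction n with
  | zero => exact b.ne.imp fun p hp => ⟨hp, [], nofun⟩
  | succ n ih =>
    obtain ⟨p, hp, s, e⟩ := ih
    obtain ⟨q, hq, t, e'⟩ := hF n
    refine ⟨_, b.prc p hp q hq, s ++ t, fun i hi => (Nat.lt_succ_iff_lt_or_eq.1 hi).elim
      (fun c => (e i c).via id (b.le1 hp hq fun _ => List.mem_append_left _)) ?_⟩
    rintro rfl
    exact e'.via id (b.le2 hp hq fun _ => List.mem_append_right _)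

theorem Base.dfS (φ : Fm) {F : ℕ → A.HH → T} (hF : ∀ i, FF G (F i)) : ∃ p ∈ A.C, ∃ s,
    Df G A (A.up fun h _ => co G p s h) fun x => A.Sat G φ (cs x.2.1 fun i => F i x.1) := by
  obtain ⟨n, hn⟩ := sat_fin (G := G) φ
  obtain ⟨p, hp, s, e⟩ := b.common hF n
  refine ⟨p, hp, s, (Df.sub φ (Tm.top.cs (s := fun i x => if i < n then F i x.1 else p)
    fun i => ?_)).congr fun x => hn A _ _ ?_⟩
  · split_ifs with c
    exacts [(e i c).wk, (b.un hp).1.wk]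
  · rintro (_ | i) hi
    exacts [rfl, if_pos (by omega)]

theorem Base.ff_val (a : Ordinal.{0}) : FF G fun h : A.HH => (h a).1 :=
  b.ne.imp fun _ hp => ⟨hp, [a], (b.un hp).2 a (.head _)⟩

end

theorem FF.mem {F : A.HH → T} (h : FF G F) (x : A.HH) : F x ∈ A.C :=
  let ⟨_, _, _, t⟩ := h; t.1 x

theorem ff_cs {F : A.HH → T} {v : ℕ → A.HH → T} (h : FF G F) (hv : ∀ i, FF G (v i)) :
    ∀ i, FF G (cs F v i)
  | 0 => h
  | i + 1 => hv i

variable {Q : NS T → (ℕ → T) → Prop}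

theorem Good.skF (ga : A.Good G) (hQ : FD G (Good G) Q) {F : ℕ → A.HH → T}
    (hF : ∀ i, FF G (F i)) : ∃ F', FF G F' ∧ ∀ h, ∀ y ∈ A.C, Q A (cs y fun i => F i h) →
      Q A (cs (F' h) fun i => F i h) := by
  obtain ⟨φ, e⟩ := hQ
  obtain ⟨p, hp, s, d⟩ := ga.toBase.dfS φ hF
  obtain ⟨F', t, c⟩ := d.sko (R := fun h y => A.Sat G φ (cs y fun i => F i h))
    (ga.toBase.co_mem hp)
  have k := fun h y (hy : y ∈ A.C) => e A ga _ (cs_mem (fun i => (hF i).mem h) hy)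
  exact ⟨F', ⟨p, hp, s, t⟩, fun h y hy d => (k h _ (t.1 h)).1 (c h y hy ((k h y hy).2 d))⟩

namespace Ind

variable (h : Ind G A I)
include h

theorem cnt (p : ℕ → T) (hp : ∀ n, p n ∈ A.C) (s : ℕ → List Ordinal.{0}) :
    ∃ x : A.HH, ∀ n, x ∈ Bs G I (p n) (s n) := by
  have cZ : {a | ∃ n, a ∈ s n}.Countable := by
    rw [Set.setOf_exists]; exact Set.countable_iUnion fun n => (s n).finite_toSet.countable
  have k : ∀ a (f : ∀ b < a, A.C), ∃ y : A.C, y.1 ∈ I ∧ (∀ n, G.lt (p n) y) ∧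
      ∀ b hb, (∃ n, b ∈ s n) → G.lt (f b hb) y := fun (a : Ordinal.{0}) f => by
    have : Countable {b // b < a ∧ ∃ n, b ∈ s n} := (cZ.mono fun _ => And.right).to_subtype
    obtain ⟨g, hg⟩ := exists_surjective_nat (ℕ ⊕ {b // b < a ∧ ∃ n, b ∈ s n})
    obtain ⟨y, hy, e⟩ := h.cof (fun n => Sum.elim p (fun b : {b // b < a ∧ ∃ n, b ∈ s n} =>
      (f b.1 b.2.1).1) (g n)) fun n => by
      cases g n; exacts [hp _, Subtype.prop _]
    refine ⟨⟨y, h.sub hy⟩, hy, fun n => ?_, fun b hb c => ?_⟩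
    · obtain ⟨m, c⟩ := hg (.inl n); simpa [c] using e m
    · obtain ⟨m, c⟩ := hg (.inr ⟨b, hb, c⟩); simpa [c] using e m
  choose K k1 k2 k3 using k
  let x : A.HH := (wellFounded_lt (α := Ordinal.{0})).fix K
  have e : ∀ a, x a = K a fun b _ => x b := fun a => WellFounded.fix_eq _ _ _
  exact ⟨x, fun n => ⟨fun a _ => e a ▸ ⟨k1 _ _, k2 _ _ n⟩,
    fun a ha b _ c => by rw [e b]; exact k3 b (fun b _ => x b) a c ⟨n, ha⟩⟩⟩

theorem ultra (b : A.Base G) : ∃ u : Ultrafilter A.HH, ∀ p ∈ A.C, ∀ s, Bs G I p s ∈ u := by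
  obtain ⟨u, e⟩ := Ultrafilter.exists_ultrafilter_of_finite_inter_nonempty
    {X : Set A.HH | ∃ p ∈ A.C, ∃ s, X = Bs G I p s} fun t ht => by
      obtain ⟨z, hz⟩ := b.ne
      choose p hp s e using fun X : t => ht X.2
      obtain ⟨g, hg⟩ := exists_surjective_nat (Option t)
      obtain ⟨x, c⟩ := h.cnt (fun n => (g n).elim z p) (fun n => by
        cases g n; exacts [hz, hp _]) fun n => (g n).elim [] s
      refine ⟨x, fun X hX => ?_⟩
      obtain ⟨n, d⟩ := hg (some ⟨X, hX⟩)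
      have := c n
      rw [d] at this
      exact (Set.ext_iff.1 (e ⟨X, hX⟩) x).2 this
  exact ⟨u, fun p hp s => e ⟨p, hp, s, rfl⟩⟩

variable (ga : A.Good G) {u : Ultrafilter A.HH} (hu : ∀ p ∈ A.C, ∀ s, Bs G I p s ∈ u)
include ga hu

theorem decide (hQ : FD G (Good G) Q) {F : ℕ → A.HH → T} (hF : ∀ i, FF G (F i))
    (e : ∀ᶠ x in u, Q A fun i => F i x) :
    ∃ p ∈ A.C, ∃ s, ∀ x ∈ Bs G I p s, Q A fun i => F i x := by
  have b := ga.toBase
  obtain ⟨φ, c⟩ := hQ.rename Nat.succ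
  obtain ⟨p, hp, s, d⟩ := b.dfS φ hF
  obtain ⟨S, h1, h2⟩ := srt s
  have pp := b.prc p hp p hp
  obtain ⟨ψ, d⟩ := ((b.un hp).1.bind (R := fun x y => A.Sat G φ (cs y fun i => F i x)) d).via id
    (b.le1 hp hp fun a => (h2 a).2)
  have k := fun x => (d x).trans (c A ga _ (cs_mem (fun i => (hF i).mem x) hp))
  obtain ⟨x, x1, x2⟩ := (e.and (hu _ pp S)).exists
  exact ⟨_, pp, S, fun y hy => (k y).1 (h.ind ψ _ pp _ _ (by simp)
    (Bs.dec x2 h1 (fun _ => id) fun a ha => (x2.1 a ha).2)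
    (Bs.dec hy h1 (fun _ => id) fun a ha => (hy.1 a ha).2) ((k x).2 x1))⟩

theorem bound {F : A.HH → T} (hF : FF G F) : ∃ a, ∀ᶠ x in u, G.lt (F x) (x a) := by
  have b := ga.toBase
  obtain ⟨p, hp, s, t⟩ := hF
  obtain ⟨a, ha⟩ := (s.finite_toSet.image (· + 1)).bddAbove
  have t0 : Tm G A (fun (x : A.HH × A.C) _ => G.pr (co G p s x.1) x.2)
      fun x => G.pr (co G p s x.1) x.2 := Tm.var 0 fun x => b.prc _ (b.co_mem hp _) _ x.2.2
  obtain ⟨ψ, d⟩ := Df.sub2 (.lt 0 1) (t.via Prod.fst (t0.fst (fun _ => b.co_mem hp _)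
    fun x => x.2.2)) (t0.snd (fun _ => b.co_mem hp _) fun x => x.2.2)
  refine ⟨a, mem_of_superset (hu p hp (a :: s)) fun x hx => ?_⟩
  obtain ⟨y, hy, e⟩ := h.cof (cs (F x) fun _ => co G p s x) (cs_mem (fun _ => b.co_mem hp _) (t.1 x))
  have x1 := hx.1 a (.head _)
  refine (d (x, x a)).1 (h.ind ψ _ (b.co_mem hp x) [y] [x a] rfl ⟨by simp, by simpa using ⟨hy, e 1⟩⟩
    ⟨by simp, List.forall_mem_singleton.2 ⟨x1.1, cd_lt (h.cl _ x1.1) x1.2 fun z hz => ?_⟩⟩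
    ((d (x, ⟨y, h.sub hy⟩)).2 (e 0)))
  obtain ⟨c, hc, rfl⟩ := List.mem_map.1 hz
  exact hx.2 c (.tail _ hc) a (.head _) ((lt_add_one c).trans_le (ha ⟨c, hc, rfl⟩))

theorem shift {F : A.HH → T} (hF : FF G F) {a : Ordinal.{0}} (e : ∀ᶠ x in u, G.lt (F x) (x a)) :
    ∃ p ∈ A.C, ∃ s F', (∀ c ∈ s, c < a + Ordinal.omega0) ∧ Tm G A (fun h _ => co G p s h) F' ∧
      ∀ᶠ x in u, F x = F' x := by
  have b := ga.toBase
  obtain ⟨p, hp, s, t⟩ := hF
  obtain ⟨hi, s1, s2⟩ := srt (s.filter fun c => a ≤ c)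
  obtain ⟨lo, s3, s4⟩ := srt (s.filter fun c => c < a)
  obtain ⟨hj, s5, s6, s7⟩ := ladder a hi.length
  simp only [List.mem_filter, decide_eq_true_eq] at s2 s4
  have pp := b.prc p hp p hp
  obtain ⟨t1, δ, t2⟩ := t.via id (b.le1 (S := hi ++ lo) hp hp fun c hc => List.mem_append.2
    ((le_or_gt a c).imp (fun d => (s2 c).2 ⟨hc, d⟩) fun d => (s4 c).2 ⟨hc, d⟩))
  generalize G.pr p p = p at pp t2
  obtain ⟨F', t3, t4⟩ := (Df.sat (G := G) (A := A) δ).sko (ε := fun h _ => co G p (hj ++ lo) h)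
    (R := fun x y => A.Sat G δ (cs y fun _ => co G p (hj ++ lo) x)) (b.co_mem pp)
  refine ⟨p, pp, _, F', fun c hc => (List.mem_append.1 hc).elim (fun d => (s7 c d).2.trans
    ((add_lt_add_iff_left a).2 (Ordinal.natCast_lt_omega0 _))) fun d =>
      ((s4 c).1 d).2.trans_le le_self_add, t3, ?_⟩
  have t5 := Tm.uncd b (ε := fun (x : A.C × A.C × A.HH) _ => co G (G.pr x.1 x.2.1) hi x.2.2)
    (Tm.var 0 fun x => b.co_mem (b.prc _ x.1.2 _ x.2.1.2) _) (fun x => b.prc _ x.1.2 _ x.2.1.2)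
    fun x a => (x.2.2 a).2
  obtain ⟨ψ, d⟩ := Df.sub2 δ (t5.1.snd (fun x => x.1.2) fun x => x.2.1.2)
    ((t5.1.fst (fun x => x.1.2) fun x => x.2.1.2).cd b t5.2)
  refine (e.and (hu p pp (a :: (hi ++ hj ++ lo)))).mono fun x ⟨x1, x2⟩ => ?_
  have nd : (hi ++ lo).Nodup := (List.pairwise_append.2 ⟨s1, s3, fun c hc d hd =>
    ((s4 d).1 hd).2.trans_le ((s2 c).1 hc).2⟩ : (hi ++ lo).Pairwise (· > ·)).imp ne_of_gt
  obtain ⟨x', e1⟩ := map_eq x nd ((hj ++ lo).map x) (by simp [s5])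
  have e2 : (hi ++ lo).map (fun c => (x' c).1) = (hj ++ lo).map fun c => (x c).1 := by
    simpa only [List.map_map, Function.comp_def] using congrArg (List.map Subtype.val) e1
  have e3 : co G p (hi ++ lo) x' = co G p (hj ++ lo) x := congrArg _ e2
  rw [List.map_append, List.map_append] at e2
  have e4 := (List.append_inj e2 (by simp [s5])).1
  have xa := x2.1 a (.head _)
  have up : ∀ c, c ∈ hi ∨ c ∈ hj → a ≤ c → G.lt (G.pr (co G p lo x) (F x)) (x c) := fun c hc l => by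
    have := h.cl _ xa.1 _ _ (cd_lt (l := lo.map fun c => (x c).1) (h.cl _ xa.1) xa.2 fun z hz => by
      obtain ⟨c, hc, rfl⟩ := List.mem_map.1 hz
      exact x2.2 c (by simp [hc]) a (.head _) ((s4 c).1 hc).2) x1
    exact l.eq_or_lt.elim (fun c => c ▸ this) fun l => Amb.trans this
      (x2.2 a (.head _) c (by rcases hc with hc | hc <;> simp [hc]) l)
  have cm := b.co_mem (s := lo) pp x
  have e5 := h.ind ψ _ (b.prc _ cm _ (t1 x)) _ _ (by simp [s5])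
    (Bs.dec x2 s1 (fun c hc => by simp [hc]) fun c hc => up c (.inl hc) ((s2 c).1 hc).2)
    (Bs.dec x2 s6 (fun c hc => by simp [hc]) fun c hc => up c (.inr hc) (s7 c hc).1)
    ((d (⟨_, cm⟩, ⟨_, t1 x⟩, x)).2 (by
      have := (t2 (x, ⟨_, t1 x⟩)).2 rfl
      rwa [NS.up, co, List.map_append, cd_append] at this))
  rw [← e4] at e5
  have e6 : A.Sat G δ (cs (F x) fun _ => co G p (hj ++ lo) x) := by
    have := (d (⟨_, cm⟩, ⟨_, t1 x⟩, x')).1 e5
    rwa [co, List.map_append, cd_append, ← e4]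
  have e7 := t4 x _ (t1 x) e6
  rw [← e3] at e6 e7
  exact ((t2 (x', ⟨_, t1 x⟩)).1 e6).trans ((t2 (x', ⟨_, t3.1 x⟩)).1 e7).symm

theorem lu [Small.{0} A.C] :
    LU (A.P G) u {f | ∃ F, FF G F ∧ f = fun x => G.col A.In (F x)} := by
  have b := ga.toBase
  refine ⟨ga.zf, ?_, ?_, fun φ g hg => ?_, ?_, ?_⟩
  · rintro _ ⟨F, hF, rfl⟩
    exact .of_forall fun x => ⟨_, hF.mem x, rfl⟩
  · rintro _ ⟨n, hn, rfl⟩
    exact ⟨_, ⟨fun _ => n, ⟨n, hn, [], (b.un hn).1⟩, rfl⟩, .of_forall fun _ => rfl⟩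
  · choose F hF e using hg
    obtain ⟨F', h1, h2⟩ := ga.skF (fd_es φ) hF
    refine ⟨_, ⟨F', h1, rfl⟩, .of_forall fun x => ?_⟩
    rintro ⟨_, ⟨y, hy, rfl⟩, c⟩
    simp only [e] at c ⊢
    exact col_cs _ _ _ ▸ h2 x y hy ((col_cs _ _ _).symm ▸ c)
  · rw [wellFounded_iff_isEmpty_descending_chain]
    refine ⟨fun ⟨f, hf⟩ => ?_⟩
    choose F hF e using fun n => (hf n).2.1
    choose p hp s c using fun n => h.decide ga hu (fd_es (.mem 0 1))
      (ff_cs (hF (n + 1)) fun _ => hF n) (by have := (hf n).2.2; rw [e, e] at this; exact this)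
    obtain ⟨x, hx⟩ := h.cnt p hp s
    exact (wellFounded_iff_isEmpty_descending_chain.1 mem_wf).false
      ⟨fun n => G.col A.In (F n x), fun n => c n x (hx n)⟩
  · rintro _ ⟨F, hF, rfl⟩
    obtain ⟨a, ha⟩ := h.bound ga hu hF
    let W := Fm × A.C × List (Set.Iio (a + Ordinal.omega0))
    let Φ : W → (A.HH → Z) → Prop := fun t f => ∃ F, FF G F ∧ (f = fun x => G.col A.In (F x)) ∧
      ∀ x, ∀ y ∈ A.C, A.Sat G t.1 (cs y fun _ => co G t.2.1 (t.2.2.map (↑)) x) ↔ y = F x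
    refine ⟨{f | ∃ t, Φ t f}, small_of_injective (β := W) (f := fun f => f.2.choose) fun f g e => ?_,
      fun f ⟨t, F, c⟩ => ⟨F, c.1, c.2.1⟩, ?_⟩
    · obtain ⟨F1, a1, a2, a3⟩ := f.2.choose_spec
      obtain ⟨F2, -, b2, b3⟩ := g.2.choose_spec
      rw [show f.2.choose = g.2.choose from e] at a3
      refine Subtype.ext (a2.trans (Eq.trans (funext fun x => congrArg _ ?_) b2.symm))
      exact (b3 x _ (a1.mem x)).1 ((a3 x _ (a1.mem x)).2 rfl)
    · rintro _ ⟨F1, h1, rfl⟩ e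
      obtain ⟨F2, h2, e2⟩ := ga.skF ((FD.mem 0 2).and (fd_eq 0 1)) (ff_cs h1 fun _ => hF)
      have e3 := e.mono fun x c => let ⟨y, c⟩ := b.mem_pi.1 c; e2 x y (b.mem (hF.mem x) c.1) c
      obtain ⟨p, hp, s, F3, c1, c2, c3⟩ := h.shift ga hu h2
        ((e3.and ha).mono fun x c => Amb.trans (b.lt _ _ c.1.1) c.2)
      lift s to List (Set.Iio (a + Ordinal.omega0)) using c1
      obtain ⟨δ, c4⟩ := c2.2
      exact ⟨_, ⟨(δ, ⟨p, hp⟩, s), F3, ⟨p, hp, _, c2⟩, rfl, fun x y hy => c4 (x, ⟨y, hy⟩)⟩,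
        (e3.and c3).mono fun x c => c.1.2.symm.trans (congrArg _ c.2)⟩

omit hu in
/-- The model generated by a proper class of indiscernibles. -/
theorem model [Small.{0} A.C] :
    ∃ Q j, Tr Q ∧ Elem (A.P G) Q j ∧ ∀ o : Ordinal.{0}, o.toZFSet ∈ Q := by
  obtain ⟨u, hu⟩ := h.ultra ga.toBase
  have l := h.lu ga hu
  have m : ∀ a, (fun x : A.HH => G.o (x a)) ∈
      {f | ∃ F, FF G F ∧ f = fun x => G.col A.In (F x)} := fun a => by
    obtain ⟨F, h1, h2⟩ := ga.skF (fd_o 1 0) fun _ => ga.toBase.ff_val a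
    exact ⟨F, h1, funext fun x => let ⟨y, hy, c⟩ := ga.o_mem _ (x a).2; h2 x y hy c.symm⟩
  obtain ⟨z, hz⟩ := ga.ne
  have lt : ∀ a c, a < c → l.pi (fun x => G.o (x a)) ∈ l.pi fun x => G.o (x c) := fun a c e =>
    (l.pi_mem (m a) (m c)).2 (mem_of_superset (hu z hz [a, c]) fun x hx =>
      Amb.o_mem_o.2 (hx.2 a (by simp) c (by simp) e))
  have le : ∀ a, a ≤ (l.pi fun x => G.o (x a)).rank := fun a => by
    induction a using WellFoundedLT.induction with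
    | ind a ih => exact le_of_forall_lt fun c hc => (ih c hc).trans_lt (rank_lt_of_mem (lt c a hc))
  refine ⟨_, _, l.tr, l.el, fun o => l.tr _ ⟨_, m (o + 1), rfl⟩ _ ?_⟩
  have : (l.pi fun x => G.o (x (o + 1))).IsOrdinal := (l.losU (U.ud (p := fun p : Z => p.IsOrdinal) (by fun_prop)) (fun _ => _)
    (fun _ => m (o + 1)) 0 fun _ _ => rfl).2 (.of_forall fun x => Amb.o_ord _)
  rw [← IsOrdinal.toZFSet_rank_eq this, Ordinal.toZFSet_mem_toZFSet_iff]
  exact (lt_add_one o).trans_le (le _)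

end Ind

end NS

end Pool.Agent.Lib.MP_5c0be7_lc
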