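import Pool.Agent.Lib.MP_5c0be7_lc.G.Ind

/-!
Predicates and functions that are definable along a family of environments.
-/

namespace Pool.Agent.Lib.MP_5c0be7_lc

universe u w w'

/-- Renaming of variables. -/
def Fm.rn : Fm → (ℕ → ℕ) → Fm
  | .mem i j, σ => .mem (σ i) (σ j)
  | .lt i j, σ => .lt (σ i) (σ j)
  | .eq i j, σ => .eq (σ i) (σ j)
  | .pr i j k, σ => .pr (σ i) (σ j) (σ k)
  | .neg φ, σ => .neg (φ.rn σ)
  | .and φ ψ, σ => .and (φ.rn σ) (ψ.rn σ)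
  | .ex φ, σ => .ex (φ.rn fun i => match i with | 0 => 0 | i + 1 => σ i + 1)

variable {T : Type u} {G : Amb T}

theorem sat_rn (A : NS T) (φ : Fm) : ∀ σ v, A.Sat G (φ.rn σ) v ↔ A.Sat G φ fun i => v (σ i) := by
  induction φ with
  | mem | lt | eq | pr => exact fun _ _ => Iff.rfl
  | neg φ ih => exact fun σ v => not_congr (ih σ v)
  | and φ ψ i1 i2 => exact fun σ v => and_congr (i1 σ v) (i2 σ v)
  | ex φ ih =>
    refine fun σ v => exists_congr fun x => and_congr_right fun _ => (ih _ _).trans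
      (iff_of_eq (congrArg _ ?_))
    funext i
    cases i <;> rfl

namespace NS

variable {A : NS T} {X : Type w} {Y : Type w'} {ε : X → ℕ → T} {P Q : X → Prop} {τ τ1 τ2 : X → T}
  {R : X → T → Prop}

/-- `P` is defined by one formula along the environments `ε`. -/
def Df (G : Amb T) (A : NS T) (ε : X → ℕ → T) (P : X → Prop) : Prop :=
  ∃ φ, ∀ x, A.Sat G φ (ε x) ↔ P x

/-- One more variable. -/
def up (A : NS T) (ε : X → ℕ → T) : X × A.C → ℕ → T := fun q => cs q.2.1 (ε q.1)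

/-- `τ` is a definable function along the environments `ε`. -/
def Tm (G : Amb T) (A : NS T) (ε : X → ℕ → T) (τ : X → T) : Prop :=
  (∀ x, τ x ∈ A.C) ∧ Df G A (A.up ε) fun q => q.2.1 = τ q.1

theorem Df.sat (φ : Fm) : Df G A ε fun x => A.Sat G φ (ε x) := ⟨φ, fun _ => Iff.rfl⟩

theorem Df.congr (h : Df G A ε P) (e : ∀ x, P x ↔ Q x) : Df G A ε Q :=
  h.imp fun _ h x => (h x).trans (e x)

theorem Df.not (h : Df G A ε P) : Df G A ε fun x => ¬ P x :=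
  let ⟨φ, h⟩ := h; ⟨.neg φ, fun x => not_congr (h x)⟩

theorem Df.and (h : Df G A ε P) (h' : Df G A ε Q) : Df G A ε fun x => P x ∧ Q x :=
  let ⟨φ, h⟩ := h; let ⟨ψ, h'⟩ := h'; ⟨.and φ ψ, fun x => and_congr (h x) (h' x)⟩

theorem Df.or (h : Df G A ε P) (h' : Df G A ε Q) : Df G A ε fun x => P x ∨ Q x :=
  (h.not.and h'.not).not.congr fun _ => by tauto

theorem Df.ex (h : Df G A (A.up ε) fun q => R q.1 q.2) : Df G A ε fun x => ∃ y ∈ A.C, R x y :=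
  let ⟨φ, h⟩ := h
  ⟨.ex φ, fun x => exists_congr fun y => and_congr_right fun hy => h (x, ⟨y, hy⟩)⟩

theorem Df.re (h : Df G A ε P) {ε' : Y → ℕ → T} (g : Y → X) (σ : ℕ → ℕ)
    (e : ∀ y i, ε' y (σ i) = ε (g y) i) : Df G A ε' fun y => P (g y) :=
  let ⟨φ, h⟩ := h
  ⟨φ.rn σ, fun y => (sat_rn A φ σ _).trans ((iff_of_eq (congrArg _ (funext (e y)))).trans (h _))⟩

theorem Df.wk (h : Df G A ε P) : Df G A (A.up ε) fun q => P q.1 :=
  h.re Prod.fst Nat.succ fun _ _ => rfl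

theorem Df.wk1 (h : Df G A (A.up ε) fun q => R q.1 q.2) :
    Df G A (A.up (A.up ε)) fun q => R q.1.1 q.2 :=
  h.re (fun q : (X × A.C) × A.C => (q.1.1, q.2)) (fun i => match i with | 0 => 0 | i + 1 => i + 2)
    fun _ i => by cases i <;> rfl

theorem Tm.wk (h : Tm G A ε τ) : Tm G A (A.up ε) fun q => τ q.1 :=
  ⟨fun _ => h.1 _, h.2.wk1 (R := fun x y => y = τ x)⟩

theorem Tm.var (i : ℕ) (h : ∀ x, ε x i ∈ A.C) : Tm G A ε fun x => ε x i :=
  ⟨h, Df.sat (.eq 0 (i + 1))⟩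

theorem Tm.top : Tm G A (A.up ε) fun q => q.2.1 := Tm.var 0 fun q => q.2.2

theorem Tm.bind (h : Tm G A ε τ) (d : Df G A (A.up ε) fun q => R q.1 q.2) :
    Df G A ε fun x => R x (τ x) :=
  (Df.ex (R := fun x y => y = τ x ∧ R x y) (h.2.and d)).congr fun x =>
    ⟨fun ⟨_, _, e, c⟩ => e ▸ c, fun c => ⟨_, h.1 x, rfl, c⟩⟩

theorem Tm.cs {s : ℕ → X → T} (h : Tm G A ε τ) (hs : ∀ i, Tm G A ε (s i)) :
    ∀ i, Tm G A ε fun x => cs (τ x) (fun i => s i x) i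
  | 0 => h
  | i + 1 => hs i

theorem Df.sub0 (φ : Fm) : ∀ {X : Type (max w u)} {ε : X → ℕ → T} {s : X → ℕ → T},
    (∀ i, Tm G A ε fun x => s x i) → Df G A ε fun x => A.Sat G φ (s x) := by
  induction φ with
  | mem i j =>
    exact fun {X ε s} h => (h i).bind (R := fun x y => A.In y (s x j))
      ((h j).wk.bind (R := fun q z => A.In q.2 z) (Df.sat (.mem 1 0)))
  | lt i j =>
    exact fun {X ε s} h => (h i).bind (R := fun x y => G.lt y (s x j))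
      ((h j).wk.bind (R := fun q z => G.lt q.2 z) (Df.sat (.lt 1 0)))
  | eq i j =>
    exact fun {X ε s} h => (h i).bind (R := fun x y => y = s x j) (h j).2
  | pr i j k =>
    exact fun {X ε s} h => (h i).bind (R := fun x y => y = G.pr (s x j) (s x k))
      ((h j).wk.bind (R := fun q z => q.2.1 = G.pr z (s q.1 k))
        ((h k).wk.wk.bind (R := fun q z => q.1.2.1 = G.pr q.2 z) (Df.sat (.pr 2 1 0))))
  | neg φ ih => exact fun h => (ih h).not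
  | and φ ψ i1 i2 => exact fun h => (i1 h).and (i2 h)
  | ex φ ih =>
    exact fun {X ε s} h => Df.ex (R := fun x y => A.Sat G φ (cs y (s x)))
      (ih (Tm.top.cs (s := fun i q => s q.1 i) fun i => (h i).wk))

/-- Substitution of definable functions in a formula. -/
theorem Df.sub (φ : Fm) {s : X → ℕ → T} (h : ∀ i, Tm G A ε fun x => s x i) :
    Df G A ε fun x => A.Sat G φ (s x) :=
  (Df.sub0.{u, w} φ (X := ULift.{u} X) (ε := fun x => ε x.down) (s := fun x => s x.down) fun i =>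
    ⟨fun _ => (h i).1 _, (h i).2.re (fun q : ULift.{u} X × A.C => (q.1.down, q.2)) id
      fun _ _ => rfl⟩).re ULift.up id fun _ _ => rfl

theorem Df.sub2 (φ : Fm) (h1 : Tm G A ε τ1) (h2 : Tm G A ε τ2) :
    Df G A ε fun x => A.Sat G φ (cs (τ1 x) fun _ => τ2 x) :=
  Df.sub φ (h1.cs fun _ => h2)

theorem Tm.pr (b : A.Base G) (h1 : Tm G A ε τ1) (h2 : Tm G A ε τ2) :
    Tm G A ε fun x => G.pr (τ1 x) (τ2 x) :=
  ⟨fun x => b.prc _ (h1.1 x) _ (h2.1 x),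
    Df.sub (.pr 0 1 2) (Tm.top.cs (h1.wk.cs fun _ => h2.wk))⟩

theorem Tm.fst (h : Tm G A ε fun x => G.pr (τ1 x) (τ2 x)) (h1 : ∀ x, τ1 x ∈ A.C)
    (h2 : ∀ x, τ2 x ∈ A.C) : Tm G A ε τ1 :=
  ⟨h1, (Df.sub2 (.ex (.pr 2 1 0)) Tm.top h.wk).congr fun q =>
    ⟨fun ⟨_, _, e⟩ => (G.inj _ _ _ _ e).1.symm, fun e => ⟨_, h2 q.1, congrArg (G.pr · _) e.symm⟩⟩⟩

theorem Tm.snd (h : Tm G A ε fun x => G.pr (τ1 x) (τ2 x)) (h1 : ∀ x, τ1 x ∈ A.C)
    (h2 : ∀ x, τ2 x ∈ A.C) : Tm G A ε τ2 :=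
  ⟨h2, (Df.sub2 (.ex (.pr 2 0 1)) Tm.top h.wk).congr fun q =>
    ⟨fun ⟨_, _, e⟩ => (G.inj _ _ _ _ e).2.symm, fun e => ⟨_, h1 q.1, congrArg (G.pr _) e.symm⟩⟩⟩

open Classical in
/-- Least witnesses are definable. -/
theorem Df.sko (h : Df G A (A.up ε) fun q => R q.1 q.2) (h0 : ∀ x, ε x 0 ∈ A.C) :
    ∃ F, Tm G A ε F ∧ ∀ x, ∀ y ∈ A.C, R x y → R x (F x) := by
  have k : ∀ x, ∃ z ∈ A.C, ∀ y ∈ A.C, ((R x y ∧ ¬ ∃ t ∈ A.C, R x t ∧ G.lt t y) ∨
      ((¬ ∃ t ∈ A.C, R x t) ∧ y = ε x 0) ↔ y = z) ∧ (R x y → R x z) := fun x => by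
    by_cases c : ∃ t ∈ A.C, R x t
    · obtain ⟨z, ⟨z1, z2⟩, z3⟩ := G.wo.wf.has_min {t | t ∈ A.C ∧ R x t} c
      refine ⟨z, z1, fun y hy => ⟨⟨fun d => ?_, fun d => Or.inl (d ▸ ⟨z2, fun ⟨t, t1, t2, t3⟩ =>
        z3 t ⟨t1, t2⟩ t3⟩)⟩, fun _ => z2⟩⟩
      obtain d | d := d
      · rcases Amb.tri (G := G) y z with e | e | e
        exacts [(z3 y ⟨hy, d.1⟩ e).elim, e, (d.2 ⟨z, z1, z2, e⟩).elim]
      · exact (d.1 c).elim
    · exact ⟨_, h0 x, fun y hy => ⟨⟨fun d => d.elim (fun d => (c ⟨y, hy, d.1⟩).elim) And.right,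
        fun d => Or.inr ⟨c, d⟩⟩, fun d => (c ⟨y, hy, d⟩).elim⟩⟩
  choose F h1 h2 using k
  exact ⟨F, ⟨h1, ((h.and (Df.ex (R := fun (q : X × A.C) t => R q.1 t ∧ G.lt t q.2)
    (h.wk1.and (Df.sat (.lt 0 1)))).not).or (h.ex.not.wk.and (Df.sat (.eq 0 1)))).congr
      fun q => (h2 q.1 q.2 q.2.2).1⟩, fun x y hy => (h2 x y hy).2⟩

variable {ι : Type*} {η : X → ι → T}

theorem Tm.cd (b : A.Base G) (h : Tm G A ε τ) {s : List ι} (hs : ∀ a ∈ s, Tm G A ε fun x => η x a) :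
    Tm G A ε fun x => cd G (τ x) (s.map (η x)) := by
  induction s with
  | nil => exact h
  | cons a s ih => exact (ih fun a ha => hs a (.tail _ ha)).pr b (hs a (.head _))

theorem Tm.uncd (b : A.Base G) {s : List ι} (h : Tm G A ε fun x => NS.cd G (τ x) (s.map (η x)))
    (h1 : ∀ x, τ x ∈ A.C) (h2 : ∀ x a, η x a ∈ A.C) :
    Tm G A ε τ ∧ ∀ a ∈ s, Tm G A ε fun x => η x a := by
  induction s with
  | nil => exact ⟨h, nofun⟩
  | cons a s ih =>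
    have c := fun x => b.cd_mem (l := s.map (η x)) (h1 x) fun y hy =>
      let ⟨a, _, e⟩ := List.mem_map.1 hy; e ▸ h2 x a
    have := ih (h.fst c fun x => h2 x a)
    exact ⟨this.1, List.forall_mem_cons.2 ⟨h.snd c fun x => h2 x a, this.2⟩⟩

/-- Change of the environment of a predicate of one code. -/
theorem Df.via {c : Y → T} {P : Y → Prop} (h : Df G A (fun y _ => c y) P) (g : X → Y)
    (t : Tm G A ε fun x => c (g x)) : Df G A ε fun x => P (g x) :=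
  let ⟨φ, h⟩ := h; (Df.sub φ fun _ => t).congr fun x => h (g x)

theorem Tm.via {c F : Y → T} (h : Tm G A (fun y _ => c y) F) (g : X → Y)
    (t : Tm G A ε fun x => c (g x)) : Tm G A ε fun x => F (g x) :=
  let ⟨h1, φ, h⟩ := h
  ⟨fun _ => h1 _, (Df.sub2 φ Tm.top t.wk).congr fun q => h (g q.1, q.2)⟩

theorem cd_append (p : T) (l l' : List T) : cd G p (l ++ l') = cd G (cd G p l') l := by
  induction l with
  | nil => rfl
  | cons a l ih => exact congrArg (G.pr · a) ih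

end NS

end Pool.Agent.Lib.MP_5c0be7_lc
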