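import Pool.Agent.Lib.MP_5c0be7_lc.G.LU

/-!
Extenders in first-order form and their ultrapowers.
-/

namespace Pool.Agent.Lib.MP_5c0be7_lc

open ZFSet Cx Filter Pool.Agent.Lib.MP_053343_lc
open Pool.Agent.Shared.LDefs (E cons tl img mem_img bun mem_bun app gr app_gr gr_congr app_eq
  fst snd fst_pair snd_pair)

universe v

theorem LU.los3 {H : Type v} {M : S} {u : Ultrafilter H} {D : Set (H → Z)} (h : LU M u D)
    {R : Z → Z → Z → Prop} (hR : U fun p : Z × Z × Z => R p.1 p.2.1 p.2.2) {f g k : H → Z}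
    (hf : f ∈ D) (hg : g ∈ D) (hk : k ∈ D) :
    R (h.pi f) (h.pi g) (h.pi k) ↔ ∀ᶠ x in u, R (f x) (g x) (k x) := by
  obtain ⟨φ, e⟩ := hR.ud
  let v : ℕ → H → Z := fun i => if i % 2 = 0 then f else if i / 2 % 2 = 0 then g else k
  have hv : ∀ i, v i ∈ D := fun i => by
    simp only [v]
    split_ifs
    exacts [hf, hg, hk]
  refine (e _ h.zq _ fun i => ⟨_, hv i, rfl⟩).symm.trans ((h.los φ v hv).trans (eventually_congr
    (((h.mem f hf).and ((h.mem g hg).and (h.mem k hk))).mono fun x c => e M h.zf _ fun i => ?_)))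
  simp only [v]
  split_ifs
  exacts [c.1, c.2.1, c.2.2]

/-- A relation that is well-founded in `M` is well-founded. -/
theorem ZF0.wf {α : Type v} [Cx α] {M : S} (m : ZF0 M) {pr : α → Z → Z}
    (hp : U fun p : α × Z => pr p.1 p.2) (x : α) (o : ok M x) {D : Z} (hD : D ∈ M)
    (sub : ∀ b ∈ D, pr x b ⊆ D) (wf : ∀ s ∈ M, s ⊆ D → ∀ a ∈ s, ∃ a ∈ s, ∀ c ∈ pr x a, c ∉ s) :
    WellFounded fun c b => b ∈ D ∧ c ∈ pr x b := by
  obtain ⟨q, -, e⟩ := m.recur hp (G := fun x b g => img (fun c => Shared.LDefs.app g c) (pr x b))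
    (by fun_prop) x o hD sub wf
  exact Subrelation.wf (r := InvImage (· ∈ ·) (Shared.LDefs.app q)) (fun {c b} h =>
    show _ ∈ Shared.LDefs.app q b from e b h.1 ▸ mem_img.2 ⟨c, h.2, app_gr h.2⟩)
    (InvImage.wf _ mem_wf)

/-- The relation `P` on `d` has measure one for the generators `a` and `b`. -/
def Fz (d F a b : Z) (P : Z → Z → Prop) : Prop :=
  pair (pair a b) (ZFSet.sep (fun z => P (fst z) (snd z)) (prod d d)) ∈ F

@[fun_prop] theorem U.fz {α : Type v} [Cx α] {d F a b : α → Z} {P : α → Z → Z → Prop} (hd : U d)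
    (hF : U F) (ha : U a) (hb : U b) (hP : U fun p : α × Z × Z => P p.1 p.2.1 p.2.2) :
    U fun x => Fz (d x) (F x) (a x) (b x) (P x) := by
  exact ((ha.pair hb).pair ((hd.prod hd).sep (R := fun x z => P x (Shared.LDefs.fst z)
    (Shared.LDefs.snd z)) (hP.comp (U.id'.fst.prodMk (U.id'.snd.fstZ.prodMk U.id'.snd.sndZ))))).mem hF

/-- `F` is an extender on `d` with generators `D` that coheres with the relation `I`, and `r` is
the collapse of `I`. -/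
def EZ (M : S) (d D F p q I r : Z) : Prop :=
  (d.IsOrdinal ∧ D.IsOrdinal ∧ d ⊆ D ∧ ∃ a ∈ d, a ≠ ∅ ∧ ∀ b ∈ a, ∃ c ∈ a, b ∈ c) ∧
  (∀ a ∈ D, ∀ b ∈ D, ∀ X ∈ M, X ⊆ prod d d →
    pair (pair a b) X ∈ F ∨ pair (pair a b) (prod d d \ X) ∈ F) ∧
  (∀ a ∈ D, ∀ b ∈ D, ∀ c ∈ D, ∀ X ∈ M, ∀ Y ∈ M, ∀ V ∈ M, ∀ W ∈ M, pair (pair a b) X ∈ F →
    pair (pair a c) Y ∈ F → pair (pair b c) V ∈ F → pair (pair a a) W ∈ F →
    ∃ x ∈ d, ∃ y ∈ d, ∃ z ∈ d, pair x y ∈ X ∧ pair x z ∈ Y ∧ pair y z ∈ V ∧ pair x x ∈ W) ∧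
  (∀ a ∈ D, ∀ b ∈ D, ∃ c ∈ D, Fz d F c a (fun x y => y = app p x) ∧
    Fz d F c b fun x y => y = app q x) ∧
  (∀ a ∈ D, ∀ b ∈ D, a ∈ b → Fz d F a b fun x y => x ∈ y) ∧
  (∀ a ∈ D, ∀ b ∈ D, (Fz d F a b fun x y => pair x y ∈ I) ↔ pair a b ∈ I) ∧
  (∀ b ∈ d, Fz d F b b fun x _ => x = b) ∧
  (∀ c ∈ D, ∀ b ∈ D, ∀ g ∈ M, (Fz d F c b fun x y => app g x ∈ y) →
    ∃ a ∈ b, Fz d F c a fun x y => y = app g x) ∧
  (∀ g ∈ M, ∀ s ∈ M, s ⊆ D → (∀ a ∈ s, ∃ c ∈ s, Fz d F c a fun x y => app g x ∈ app g y) →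
    ∀ a ∈ s, False) ∧
  ∀ b ∈ D, app r b = img (fun a => app r a) (ZFSet.sep (fun a => pair a b ∈ I) b)

/-- `d` has an extender in `M` whose ultrapower contains the elements of `s`. -/
def SZ (M : S) (d s : Z) : Prop :=
  ∃ D ∈ M, ∃ F ∈ M, ∃ p ∈ M, ∃ q ∈ M, ∃ I ∈ M, ∃ r ∈ M, EZ M d D F p q I r ∧
    ∀ x ∈ s, (∃ a ∈ D, x = app r a) ∧ (x.IsOrdinal → x ∈ D)

@[fun_prop] theorem U.sz {α : Type v} [Cx α] {m : α → S} {s t : α → Z} (hm : U m) (hs : U s)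
    (ht : U t) : U fun x => SZ (m x) (s x) (t x) := by
  unfold SZ EZ; fun_prop

/-- A model with an extender. -/
structure EU (M : S) (d D F p q I r : Z) : Prop where
  zf : ZF0 M
  ac : AC M
  dm : d ∈ M
  Dm : D ∈ M
  Fm : F ∈ M
  pm : p ∈ M
  qm : q ∈ M
  Im : I ∈ M
  rm : r ∈ M
  ez : EZ M d D F p q I r

variable {M : S} {d D F p q I r a b c f g : Z} {P Q R : Z → Z → Prop}

theorem mem_rel {x y : Z} : pair x y ∈ ZFSet.sep (fun z => P (fst z) (snd z)) (prod d d) ↔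
    x ∈ d ∧ y ∈ d ∧ P x y := by
  simp [and_assoc]

namespace EU

variable (h : EU M d D F p q I r)
include h

/-- The relation `P` on `d` is in `M`. -/
def Df (_ : EU M d D F p q I r) (P : Z → Z → Prop) : Prop :=
  ZFSet.sep (fun z => P (fst z) (snd z)) (prod d d) ∈ M

theorem df {α : Type v} [Cx α] (P : α → Z → Z → Prop) (x : α)
    (hP : U fun p : α × Z × Z => P p.1 p.2.1 p.2.2) (o : ok M x) : h.Df (P x) :=
  h.zf.sepU (R := fun x z => P x (fst z) (snd z))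
    (hP.comp (U.id'.fst.prodMk (U.id'.snd.fstZ.prodMk U.id'.snd.sndZ))) x o
    (h.zf.prod h.dm h.dm)

theorem fz_df (e : Fz d F a b P) : h.Df P := by
  simpa [Df] using h.zf.tm (fun z : Z => snd z) _ (by fun_prop) (h.zf.trans _ h.Fm _ e)

theorem by_sat (ha : a ∈ D) (hb : b ∈ D) (e : h.Df P) (c : ¬ Fz d F a b fun x y => ¬ P x y) :
    Fz d F a b P := (h.ez.2.1 a ha b hb _ e fun _ y => (mem_sep.1 y).1).resolve_right fun e' => c (by
  unfold Fz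
  convert e' using 2
  ext; simp; tauto)

theorem sat {W : Z → Z → Prop} (ha : a ∈ D) (hb : b ∈ D) (hc : c ∈ D) (e1 : Fz d F a b P)
    (e2 : Fz d F a c Q) (e3 : Fz d F b c R) (e4 : Fz d F a a W) :
    ∃ x ∈ d, ∃ y ∈ d, ∃ z ∈ d, P x y ∧ Q x z ∧ R y z ∧ W x x := by
  simpa only [mem_rel, and_assoc, exists_and_left, and_self_left, and_congr_right_iff,
    exists_prop] using (h.ez.2.2.1 a ha b hb c hc _ (h.fz_df e1) _ (h.fz_df e2) _ (h.fz_df e3) _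
      (h.fz_df e4) e1 e2 e3 e4).imp fun x ⟨hx, y, hy, z, hz, c1, c2, c3, c4⟩ =>
      (⟨hx, y, hy, z, hz, (mem_rel.1 c1).2.2, (mem_rel.1 c2).2.2, (mem_rel.1 c3).2.2,
        (mem_rel.1 c4).2.2⟩ : x ∈ d ∧ ∃ y ∈ d, ∃ z ∈ d, P x y ∧ Q x z ∧ R y z ∧ W x x)

theorem top (ha : a ∈ D) : Fz d F a a fun _ _ => True :=
  h.by_sat ha ha (h.df (fun (_ : Z) _ _ => True) ∅ (by fun_prop) h.zf.empty) fun e =>
    let ⟨_, _, _, _, _, _, c, _⟩ := h.sat ha ha ha e e e e; c trivial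

theorem cmp (hf : f ∈ M) (hg : g ∈ M) : ∃ k ∈ M, ∀ x ∈ d, app k x = app f (app g x) :=
  ⟨_, h.zf.tm (fun p : Z × Z × Z => gr (fun x => app p.1 (app p.2.1 x)) p.2.2) (f, g, d)
    (by fun_prop) ⟨hf, hg, h.dm⟩, fun _ hx => app_gr hx⟩

theorem join (s : Set Z) (hs : s.Finite) : s ⊆ {a | a ∈ D} → ∃ c ∈ D, ∃ t : Z → Z,
    ∀ a ∈ s, t a ∈ M ∧ Fz d F c a fun x y => y = app (t a) x := by
  induction s, hs using Set.Finite.induction_on with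
  | empty =>
    obtain ⟨a, ha, -⟩ := h.ez.1.2.2.2
    exact fun _ => ⟨a, h.ez.1.2.2.1 ha, id, nofun⟩
  | @insert a s _ _ ih =>
    intro e
    obtain ⟨c, hc, t, ht⟩ := ih fun _ y => e (Or.inr y)
    obtain ⟨c', hc', e1, e2⟩ := h.ez.2.2.2.1 c hc a (e (Or.inl rfl))
    suffices ∀ b ∈ insert a s, ∃ k ∈ M, Fz d F c' b fun x y => y = app k x by
      choose! t h1 h2 using this
      exact ⟨c', hc', t, fun b hb => ⟨h1 b hb, h2 b hb⟩⟩
    rintro b (rfl | hb)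
    · exact ⟨q, h.qm, e2⟩
    · obtain ⟨k, hk, e3⟩ := h.cmp (ht b hb).1 h.pm
      refine ⟨k, hk, h.by_sat hc' (e (Or.inr hb)) (h.df (fun (k : Z) x y => y = app k x) k
        (by fun_prop) hk) fun c => ?_⟩
      obtain ⟨x, hx, y, -, z, -, rfl, c2, c3, -⟩ := h.sat hc' hc (e (Or.inr hb)) e1 c (ht b hb).2
        (h.top hc')
      exact c2 (c3.trans (e3 x hx).symm)

theorem exU : ∃ u : Ultrafilter (Z → Z), ∀ a ∈ D, ∀ b ∈ D, ∀ X ∈ M, pair (pair a b) X ∈ F →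
    X ⊆ prod d d → ∀ᶠ k : Z → Z in u, pair (k a) (k b) ∈ X := by
  classical
  obtain ⟨u, hu⟩ := Ultrafilter.exists_ultrafilter_of_finite_inter_nonempty
    ((fun i : Z × Z × Z => {k : Z → Z | pair (k i.1) (k i.2.1) ∈ i.2.2}) '' {i | i.1 ∈ D ∧ i.2.1 ∈ D ∧
      i.2.2 ∈ M ∧ pair (pair i.1 i.2.1) i.2.2 ∈ F ∧ i.2.2 ⊆ prod d d}) fun T hT => by
    obtain ⟨s, hs, rfl⟩ := Finset.subset_set_image_iff.1 hT
    obtain ⟨c, hc, t, ht⟩ := h.join ((fun i : Z × Z × Z => i.1) '' ↑s ∪ (fun i : Z × Z × Z => i.2.1) '' ↑s)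
      ((s.finite_toSet.image _).union (s.finite_toSet.image _)) (by
        rintro _ (⟨i, hi, rfl⟩ | ⟨i, hi, rfl⟩)
        exacts [(hs hi).1, (hs hi).2.1])
    have key : ∀ s' : Finset (Z × Z × Z), s' ⊆ s → ∃ Y ∈ M, (Fz d F c c fun x _ => x ∈ Y) ∧
        ∀ x ∈ Y, ∀ i ∈ s', pair (app (t i.1) x) (app (t i.2.1) x) ∈ i.2.2 := fun s' => by
      induction s' using Finset.induction_on with
      | empty => exact fun _ => ⟨d, h.dm, h.by_sat hc hc (h.df (fun (d : Z) x _ => x ∈ d) d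
          (by fun_prop) h.dm) fun e => let ⟨_, c, _, _, _, _, c', _⟩ := h.sat hc hc hc e e e e; c' c,
          fun _ _ _ => nofun⟩
      | insert i s' _ ih =>
        intro e
        obtain ⟨Y, hY, e1, e2⟩ := ih fun _ y => e (Finset.mem_insert_of_mem y)
        have hi := e (Finset.mem_insert_self _ _)
        obtain ⟨i1, i2, i3, i4, i5⟩ := hs hi
        have t1 := ht _ (Or.inl ⟨i, hi, rfl⟩)
        have t2 := ht _ (Or.inr ⟨i, hi, rfl⟩)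
        have e3 : Fz d F i.1 i.2.1 fun x y => pair x y ∈ i.2.2 := by
          unfold Fz
          convert i4 using 2
          exact ZFSet.ext fun z => mem_sep.trans ⟨fun ⟨c, c'⟩ => by
            obtain ⟨x, -, y, -, rfl⟩ := mem_prod.1 c; simpa using c', fun c => ⟨i5 c, by
            obtain ⟨x, -, y, -, rfl⟩ := mem_prod.1 (i5 c); simpa using c⟩⟩
        have e4 : Fz d F c c fun x _ => pair (app (t i.1) x) (app (t i.2.1) x) ∈ i.2.2 :=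
          h.by_sat hc hc (h.df (fun (p : Z × Z × Z) x _ => pair (app p.1 x) (app p.2.1 x) ∈ p.2.2)
            (_, _, _) (by fun_prop) (by exact ⟨t1.1, t2.1, i3⟩)) fun c => by
            obtain ⟨x, -, y, -, z, -, rfl, rfl, c3, c4⟩ := h.sat hc i1 i2 t1.2 t2.2 e3 c
            exact c4 c3
        have hY' := h.zf.tm (fun p : Z × Z × Z × Z => ZFSet.sep (fun x => pair (app p.1 x)
          (app p.2.1 x) ∈ p.2.2.1) p.2.2.2) (_, _, _, _) (by fun_prop)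
          (by exact ⟨t1.1, t2.1, i3, hY⟩)
        refine ⟨_, hY', h.by_sat hc hc (h.df (fun (d : Z) x _ => x ∈ d) _ (by fun_prop) hY')
          fun c => ?_, fun x hx j hj => ?_⟩
        · obtain ⟨x, -, -, -, -, -, c1, c2, -, c4⟩ := h.sat hc hc hc e1 e4 e1 c
          exact c4 (mem_sep.2 ⟨c1, c2⟩)
        · rcases Finset.mem_insert.1 hj with rfl | hj
          exacts [(mem_sep.1 hx).2, e2 x (mem_sep.1 hx).1 j hj]
    obtain ⟨Y, -, e1, e2⟩ := key s subset_rfl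
    obtain ⟨x, -, -, -, -, -, c1, -⟩ := h.sat hc hc hc e1 e1 e1 e1
    exact ⟨fun a => app (t a) x, by simpa using fun a b X hi => e2 x c1 (a, b, X) hi⟩
  exact ⟨u, fun a ha b hb X hX e e' => hu ⟨(a, b, X), ⟨ha, hb, hX, e, e'⟩, rfl⟩⟩

/-- The ultrafilter of threads. -/
noncomputable def u : Ultrafilter (Z → Z) := h.exU.choose

theorem ae (ha : a ∈ D) (hb : b ∈ D) (e : Fz d F a b P) :
    ∀ᶠ k : Z → Z in h.u, k a ∈ d ∧ k b ∈ d ∧ P (k a) (k b) :=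
  (h.exU.choose_spec a ha b hb _ (h.fz_df e) e fun _ y => (mem_sep.1 y).1).mono
    fun _ => mem_rel.1

theorem of_ae (ha : a ∈ D) (hb : b ∈ D) (e : h.Df P) (c : ∀ᶠ k : Z → Z in h.u, P (k a) (k b)) :
    Fz d F a b P :=
  h.by_sat ha hb e fun e' => let ⟨_, c1, c2⟩ := (c.and (h.ae ha hb e')).exists; c2.2.2 c1

theorem aed (ha : a ∈ D) : ∀ᶠ k : Z → Z in h.u, k a ∈ d := (h.ae ha ha (h.top ha)).mono fun _ => And.left

theorem dir (ha : a ∈ D) (hb : b ∈ D) :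
    ∃ c ∈ D, ∀ᶠ k : Z → Z in h.u, k a = app p (k c) ∧ k b = app q (k c) :=
  let ⟨c, hc, e1, e2⟩ := h.ez.2.2.2.1 a ha b hb
  ⟨c, hc, ((h.ae hc ha e1).and (h.ae hc hb e2)).mono fun _ e => ⟨e.1.2.2, e.2.2.2⟩⟩

theorem om : Ordinal.omega0.toZFSet ∈ d := (limit_iff h.ez.1.1).1 h.ez.1.2.2.2

theorem iwf {s a : Z} (hs : s ∈ M) (sD : ∀ z ∈ s, fst z ∈ D) (ha : a ∈ s) : ∃ a ∈ s, ∀ c ∈ s,
    ¬ Fz d F (fst c) (fst a) fun x y => app (snd c) x ∈ app (snd a) y := by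
  by_contra e
  push Not at e
  have m := h.zf
  obtain ⟨c, hc, e1⟩ := m.choice h.ac (R := fun (p : Z × Z × Z) a c => c ∈ p.1 ∧
    Fz p.2.1 p.2.2 (fst c) (fst a) fun x y => app (snd c) x ∈ app (snd a) y) (by fun_prop) (s, d, F)
    (by exact ⟨hs, h.dm, h.Fm⟩) hs fun a ha => (e a ha).imp fun c hc => ⟨m.trans _ hs _ hc.1, hc⟩
  have w := m.trans _ h.dm _ h.om
  obtain ⟨t, ht, e2⟩ := m.iter w hc (m.trans _ hs _ ha)
  have e3 : ∀ n : ℕ, (app c)^[n] a ∈ s := fun n => by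
    induction n with
    | zero => exact ha
    | succ n ih => rw [Function.iterate_succ_apply']; exact (e1 _ ih).1
  have n1 := fun n : ℕ => Ordinal.toZFSet_mem_toZFSet_iff.2 (Ordinal.natCast_lt_omega0 n)
  have n2 := fun n : ℕ => h.ez.1.1.mem_trans (n1 n) h.om
  have hg := m.tm (fun p : Z × Z × Z × Z => gr (fun x => app (snd (app p.1 (app p.2.2.1 x)))
    (app p.2.1 x)) p.2.2.2) (t, p, q, d) (by fun_prop) ⟨ht, h.pm, h.qm, h.dm⟩
  have hS := m.tm (fun z : (Z × Z × Z × Z) × Z × Z × Z => ZFSet.sep (fun b => ∃ n ∈ z.2.2.2,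
    (Fz z.1.2.2.2 z.2.1 b (fst (app z.1.1 n)) fun x y => y = app z.1.2.1 x) ∧
    Fz z.1.2.2.2 z.2.1 b n fun x y => y = app z.1.2.2.1 x) z.2.2.1)
    ((t, p, q, d), F, D, Ordinal.omega0.toZFSet) (by fun_prop) (by exact ⟨⟨ht, h.pm, h.qm, h.dm⟩, h.Fm, h.Dm, w⟩)
  have ex := fun n : ℕ => h.ez.2.2.2.1 _ (sD _ (e2 n ▸ e3 n)) _ (h.ez.1.2.2.1 (n2 n))
  have val : ∀ (n : ℕ), ∀ b ∈ D, (Fz d F b (fst (app t (n : Ordinal).toZFSet)) fun x y =>
      y = app p x) → (Fz d F b (n : Ordinal).toZFSet fun x y => y = app q x) → ∀ᶠ k : Z → Z in h.u,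
      app (gr (fun x => app (snd (app t (app q x))) (app p x)) d) (k b) =
        app (snd ((app c)^[n] a)) (k (fst ((app c)^[n] a))) := fun n b hb c1 c2 => by
    have nD := h.ez.1.2.2.1 (n2 n)
    filter_upwards [h.ae hb (sD _ (e2 n ▸ e3 n)) c1, h.ae hb nD c2,
      h.ae nD nD (h.ez.2.2.2.2.2.2.1 _ (n2 n))] with k d1 d2 d3
    rw [app_gr d1.1, ← d1.2.2, ← d2.2.2, d3.2.2, e2]
  obtain ⟨b, hb, c0⟩ := ex 0
  refine h.ez.2.2.2.2.2.2.2.2.1 _ hg _ hS (fun _ y => (mem_sep.1 y).1) (fun b hb => ?_) b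
    (mem_sep.2 ⟨hb, _, n1 0, c0⟩)
  obtain ⟨hb, _, hn, c1, c2⟩ := mem_sep.1 hb
  obtain ⟨n, hn', rfl⟩ := Ordinal.mem_toZFSet_iff.1 hn
  obtain ⟨n, rfl⟩ := Ordinal.lt_omega0.1 hn'
  obtain ⟨b', hb', c3, c4⟩ := ex (n + 1)
  refine ⟨b', mem_sep.2 ⟨hb', _, n1 (n + 1), c3, c4⟩, h.of_ae hb' hb (h.df
    (fun (g : Z) x y => app g x ∈ app g y) _ (by fun_prop) hg) ?_⟩
  filter_upwards [val n b hb c1 c2, val _ b' hb' c3 c4, h.ae (sD _ (e1 _ (e3 n)).1) (sD _ (e3 n))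
    (e1 _ (e3 n)).2] with k d1 d2 d3
  rw [d1, d2, Function.iterate_succ_apply']
  exact d3.2.2

/-- The functions of the ultrapower. -/
def fn (a f : Z) (k : Z → Z) : Z := app f (k a)

/-- The family of functions. -/
def Fn (_ : EU M d D F p q I r) : Set ((Z → Z) → Z) := {g | ∃ a ∈ D, ∃ f ∈ M, g = fn a f}

theorem exT (hg : g ∈ M) : ∃ T ∈ M, T.IsTransitive ∧ ∀ a ∈ d, app g a ∈ T := by
  obtain ⟨T, h1, h2, h3⟩ := h.zf.tc (h.zf.tm (fun p : Z × Z => img (fun a => app p.1 a) p.2) (g, d)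
    (by fun_prop) ⟨hg, h.dm⟩)
  exact ⟨T, h1, h2, fun a ha => h3 (mem_img.2 ⟨a, ha, rfl⟩)⟩

theorem res {T : Z} (ha : a ∈ D) (hf : f ∈ M) (hT : T ∈ M) (e : ∀ᶠ k : Z → Z in h.u, fn a f k ∈ T) :
    ∃ f' ∈ pow M (prod d T), ∀ᶠ k : Z → Z in h.u, fn a f k = fn a f' k :=
  ⟨_, mem_pow.2 ⟨fun _ y => (mem_inter.1 y).2, h.zf.tm (fun p : Z × Z × Z =>
    gr (fun a => app p.1 a) p.2.1 ∩ prod p.2.1 p.2.2) (f, d, T) (by fun_prop) ⟨hf, h.dm, hT⟩⟩,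
    (e.and (h.aed ha)).mono fun _ e => (app_res e.2 e.1).symm⟩

theorem wf : WellFounded fun f g => f ∈ h.Fn ∧ g ∈ h.Fn ∧ ∀ᶠ k : Z → Z in h.u, f k ∈ g k := by
  refine ⟨fun g => ?_⟩
  by_cases hg : g ∈ h.Fn
  swap
  · exact ⟨_, fun _ e => (hg e.2.1).elim⟩
  obtain ⟨b, hb, g, hg, rfl⟩ := hg
  obtain ⟨T, hT, tT, e0⟩ := h.exT hg
  have hD := h.zf.prod h.Dm (h.zf.pow (h.zf.prod h.dm hT))
  have sD : ∀ z ∈ prod D (pow M (prod d T)), fst z ∈ D := fun z hz => by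
    obtain ⟨x, hx, y, -, rfl⟩ := mem_prod.1 hz; simpa using hx
  have w := h.zf.wf (pr := fun (p : Z × Z × Z) a => ZFSet.sep (fun c => Fz p.2.1 p.2.2 (fst c)
    (fst a) fun x y => app (snd c) x ∈ app (snd a) y) p.1) (by fun_prop) (_, d, F)
    (by exact ⟨hD, h.dm, h.Fm⟩) hD (fun _ _ _ y => (mem_sep.1 y).1) fun s hs e a ha =>
      (h.iwf hs (fun z hz => sD z (e hz)) ha).imp fun a ha =>
        ⟨ha.1, fun c hc e => ha.2 c e (mem_sep.1 hc).2⟩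
  have key : ∀ z ∈ prod D (pow M (prod d T)), ∀ g, (∀ᶠ k : Z → Z in h.u, g k ∈ T) →
      (∀ᶠ k : Z → Z in h.u, g k = fn (fst z) (snd z) k) → Acc (fun f g => f ∈ h.Fn ∧ g ∈ h.Fn ∧
        ∀ᶠ k : Z → Z in h.u, f k ∈ g k) g := fun z => by
    induction z using w.induction with
    | _ z ih =>
      intro hz g e1 e2
      refine ⟨_, ?_⟩
      rintro _ ⟨⟨a, ha, f, hf, rfl⟩, -, e3⟩
      have e4 := (e1.and e3).mono fun _ e => tT _ e.1 e.2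
      obtain ⟨f', h1, h2⟩ := h.res ha hf hT e4
      have h3 := pair_mem_prod.2 ⟨ha, h1⟩
      obtain ⟨x, hx, y, hy, rfl⟩ := mem_prod.1 hz
      refine ih _ ⟨hz, mem_sep.2 ⟨h3, ?_⟩⟩ h3 _ e4 (by simpa using h2)
      simp only [fst_pair, snd_pair] at e2 ⊢
      exact h.of_ae ha hx (h.df (fun (g : Z × Z) x y => app g.1 x ∈ app g.2 y) (f', y)
        (by fun_prop) ⟨(mem_pow.1 h1).2, (mem_pow.1 hy).2⟩) ((h2.and (e2.and e3)).mono
          fun k e => show fn a f' k ∈ fn x y k from e.1 ▸ e.2.1 ▸ e.2.2)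
  have e1 : ∀ᶠ k : Z → Z in h.u, fn b g k ∈ T := (h.aed hb).mono fun _ => e0 _
  obtain ⟨f, h1, h2⟩ := h.res hb hg hT e1
  exact key _ (pair_mem_prod.2 ⟨hb, h1⟩) _ e1 (by simpa using h2)

theorem common (g : ℕ → (Z → Z) → Z) (hg : ∀ i, g i ∈ h.Fn) (n : ℕ) : ∃ c ∈ D, ∃ v, EM M v ∧
    ∀ i < n, ∀ᶠ k : Z → Z in h.u, g i k = fn c (v i) k := by
  choose a ha f hf e using hg
  obtain ⟨c, hc, t, ht⟩ := h.join (a '' {i | i < n}) ((Set.finite_lt_nat n).image _) (by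
    rintro _ ⟨i, -, rfl⟩; exact ha i)
  have : ∀ i, ∃ v ∈ M, i < n → ∀ᶠ k : Z → Z in h.u, g i k = fn c v k := fun i => by
    by_cases hi : i < n
    · obtain ⟨t1, t2⟩ := ht _ ⟨i, hi, rfl⟩
      obtain ⟨v, hv, e'⟩ := h.cmp (hf i) t1
      exact ⟨v, hv, fun _ => (h.ae hc (ha i) t2).mono fun k c => by
        rw [e i, fn, fn, e' _ c.1, c.2.2]⟩
    · exact ⟨∅, h.zf.empty, fun c => (hi c).elim⟩
  choose v hv e' using this
  exact ⟨c, hc, v, hv, e'⟩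

theorem lu : LU M h.u h.Fn where
  zf := h.zf
  mem := by
    rintro _ ⟨a, ha, f, hf, rfl⟩
    exact (h.aed ha).mono fun k c => h.zf.app hf (h.zf.trans _ h.dm _ c)
  cst x hx := ⟨_, ⟨_, h.ez.1.2.2.1 h.om, _, h.zf.tm (fun p : Z × Z => prod p.1 {p.2}) (d, x)
    (by fun_prop) ⟨h.dm, hx⟩, rfl⟩, (h.aed (h.ez.1.2.2.1 h.om)).mono fun _ => app_const⟩
  sk φ g hg := by
    obtain ⟨n, hn⟩ := es_fin (.ex φ)
    obtain ⟨n', hn'⟩ := es_fin φ
    obtain ⟨c, hc, v, hv, e⟩ := h.common g hg (max n n')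
    have u : U fun p : (S × E.{0}) × Z × Z => ES p.1.1 φ (cons p.2.2 fun i =>
        app (p.1.2 i) p.2.1) := U.es φ (s := fun n (p : (S × E.{0}) × Z × Z) => cons p.2.2
          (fun i => app (p.1.2 i) p.2.1) n) (by
        rintro (_ | n)
        exacts [U.id'.snd.snd, (U.id'.fst.snd.ev n).app U.id'.snd.fst]) U.id'.fst.fst
    obtain ⟨f, hf, e3⟩ := h.zf.choice h.ac (R := fun (p : S × E.{0}) a y =>
      ES p.1 (.ex φ) (fun i => app (p.2 i) a) → ES p.1 φ (cons y fun i => app (p.2 i) a))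
      (((U.esApp _).comp (U.id'.fst.prodMk U.id'.snd.fst)).imp' u) (M, v) (by exact ⟨rfl, hv⟩)
      h.dm fun a _ => by
        by_cases c : ES M (.ex φ) fun i => app (v i) a
        · exact c.imp fun y hy => ⟨hy.1, fun _ => hy.2⟩
        · exact ⟨∅, h.zf.empty, fun e => (c e).elim⟩
    refine ⟨_, ⟨c, hc, f, hf, rfl⟩, ?_⟩
    filter_upwards [(eventually_all_finite (Set.finite_lt_nat _)).2 e, h.aed hc] with k d1 d2 d3
    refine (hn' M _ _ ?_).1 (e3 _ d2 ((hn M _ _ fun i hi => d1 i (lt_max_of_lt_left hi)).1 d3))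
    rintro (_ | i) hi
    exacts [rfl, (d1 i (lt_max_of_lt_right (by omega))).symm]
  wf := h.wf
  small := by
    rintro _ ⟨b, hb, g, hg, rfl⟩
    obtain ⟨T, hT, tT, e0⟩ := h.exT hg
    refine ⟨Set.range fun z : prod D (pow M (prod d T)) => fn (fst z.1) (snd z.1),
      small_range _, ?_, ?_⟩
    · rintro _ ⟨⟨_, hz⟩, rfl⟩
      obtain ⟨x, hx, y, hy, rfl⟩ := mem_prod.1 hz
      exact ⟨x, hx, y, (mem_pow.1 hy).2, by simp⟩
    · rintro _ ⟨a, ha, f, hf, rfl⟩ e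
      obtain ⟨f', h1, h2⟩ := h.res ha hf hT ((e.and (h.aed hb)).mono fun _ e => tT _ (e0 _ e.2) e.1)
      exact ⟨_, ⟨⟨_, pair_mem_prod.2 ⟨ha, h1⟩⟩, rfl⟩, by simpa using h2⟩

theorem idm : gr (fun a => a) d ∈ M :=
  h.zf.tm (fun p : Z => gr (fun a => a) p) d (by fun_prop) h.dm

theorem fn_mem (ha : a ∈ D) (hf : f ∈ M) : fn a f ∈ h.Fn := ⟨a, ha, f, hf, rfl⟩

theorem fn_id (ha : a ∈ D) : ∀ᶠ k : Z → Z in h.u, fn a (gr (fun a => a) d) k = k a :=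
  (h.aed ha).mono fun _ => app_gr

theorem norm (hb : b ∈ D) (hc : c ∈ D) (hf : f ∈ M) (e : ∀ᶠ k : Z → Z in h.u, app f (k c) ∈ k b) :
    ∃ a ∈ b, ∀ᶠ k : Z → Z in h.u, k a = app f (k c) :=
  let ⟨a, ha, e⟩ := h.ez.2.2.2.2.2.2.2.1 c hc b hb f hf (h.of_ae hc hb
    (h.df (fun (f : Z) x y => app f x ∈ y) f (by fun_prop) hf) e)
  ⟨a, ha, (h.ae hc (h.ez.1.2.1.mem_trans ha hb) e).mono fun _ e => e.2.2⟩

theorem pi_id (b : Z) : b ∈ D → h.lu.pi (fn b (gr (fun a => a) d)) = b := by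
  induction b using ZFSet.inductionOn with
  | h b ih =>
    intro hb
    have aD := fun a (ha : a ∈ b) => h.ez.1.2.1.mem_trans ha hb
    ext y
    refine ⟨fun hy => ?_, fun hy => ih y hy (aD y hy) ▸ (h.lu.pi_mem (h.fn_mem (aD y hy) h.idm)
      (h.fn_mem hb h.idm)).2 ?_⟩
    · obtain ⟨_, ⟨c, hc, f, hf, rfl⟩, e, rfl⟩ := (h.lu.mem_pi (h.fn_mem hb h.idm)).1 hy
      obtain ⟨a, ha, e1⟩ := h.norm hb hc hf ((e.and (h.fn_id hb)).mono fun _ e => e.2 ▸ e.1)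
      rwa [h.lu.pi_congr _ (h.fn_mem hc hf) _ (h.fn_mem (aD a ha) h.idm) ((e1.and
        (h.fn_id (aD a ha))).mono fun _ e => (e.2.trans e.1).symm), ih a ha (aD a ha)]
    · filter_upwards [h.fn_id hb, h.fn_id (aD y hy), h.ae (aD y hy) hb
        (h.ez.2.2.2.2.1 y (aD y hy) b hb hy)] with k c1 c2 c3
      rw [c1, c2]; exact c3.2.2

theorem pi_r (b : Z) : b ∈ D → h.lu.pi (fn b r) = app r b := by
  induction b using ZFSet.inductionOn with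
  | h b ih =>
    intro hb
    have aD := fun a (ha : a ∈ b) => h.ez.1.2.1.mem_trans ha hb
    have er := h.ez.2.2.2.2.2.2.2.2.2
    ext y
    rw [er b hb, mem_img]
    constructor
    · intro hy
      obtain ⟨_, ⟨c, hc, f, hf, rfl⟩, e, rfl⟩ := (h.lu.mem_pi (h.fn_mem hb h.rm)).1 hy
      obtain ⟨c', hc', e1⟩ := h.dir hc hb
      obtain ⟨g, hg, e2⟩ := h.zf.choice h.ac (R := fun (z : (Z × Z × Z) × Z × Z) x u =>
        app z.1.1 (app z.1.2.1 x) ∈ img (fun a => app z.2.2 a) (ZFSet.sep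
          (fun a => pair a (app z.1.2.2 x) ∈ z.2.1) (app z.1.2.2 x)) → u ∈ app z.1.2.2 x ∧
          pair u (app z.1.2.2 x) ∈ z.2.1 ∧ app z.2.2 u = app z.1.1 (app z.1.2.1 x)) (by fun_prop)
        ((f, p, q), I, r) (by exact ⟨⟨hf, h.pm, h.qm⟩, h.Im, h.rm⟩) h.dm fun x hx => by
          by_cases c : app f (app p x) ∈ img (fun a => app r a) (ZFSet.sep
            (fun a => pair a (app q x) ∈ I) (app q x))
          · obtain ⟨u, c1, c2⟩ := mem_img.1 c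
            exact ⟨u, h.zf.trans _ (h.zf.app h.qm (h.zf.trans _ h.dm _ hx)) _ (mem_sep.1 c1).1,
              fun _ => ⟨(mem_sep.1 c1).1, (mem_sep.1 c1).2, c2⟩⟩
          · exact ⟨∅, h.zf.empty, fun e => (c e).elim⟩
      have e3 : ∀ᶠ k : Z → Z in h.u, app g (k c') ∈ k b ∧ pair (app g (k c')) (k b) ∈ I ∧
          app r (app g (k c')) = app f (k c) := by
        filter_upwards [e, e1, h.aed hc', h.aed hb] with k c1 c2 c3 c4
        rw [fn, fn, er _ (h.ez.1.2.2.1 c4), c2.1, c2.2] at c1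
        rw [c2.1, c2.2]
        exact e2 _ c3 c1
      obtain ⟨a, ha, e4⟩ := h.norm hb hc' hg (e3.mono fun _ => And.left)
      refine ⟨a, mem_sep.2 ⟨ha, (h.ez.2.2.2.2.2.1 a (aD a ha) b hb).1 (h.of_ae (aD a ha) hb
        (h.df (fun (f : Z) x y => pair x y ∈ f) I (by fun_prop) h.Im)
        ((e3.and e4).mono fun _ e => e.2 ▸ e.1.2.1))⟩, (ih a ha (aD a ha)).symm.trans
        (h.lu.pi_congr _ (h.fn_mem (aD a ha) h.rm) _ (h.fn_mem hc hf)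
          ((e3.and e4).mono fun k e => show app r (k a) = _ from e.2 ▸ e.1.2.2))⟩
    · rintro ⟨a, ha, rfl⟩
      obtain ⟨h1, h2⟩ := mem_sep.1 ha
      refine ih a h1 (aD a h1) ▸ (h.lu.pi_mem (h.fn_mem (aD a h1) h.rm) (h.fn_mem hb h.rm)).2 ?_
      filter_upwards [h.ae (aD a h1) hb ((h.ez.2.2.2.2.2.1 a (aD a h1) b hb).2 h2),
        h.ae (aD a h1) hb (h.ez.2.2.2.2.1 a (aD a h1) b hb h1)] with k c1 c2
      rw [fn, fn, er _ (h.ez.1.2.2.1 c1.2.1)]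
      exact mem_img.2 ⟨_, mem_sep.2 ⟨c2.2.2, c1.2.2⟩, rfl⟩

theorem ext : Ext M (h.lu.pi '' h.Fn) h.lu.j d D where
  zf := h.zf
  tr := h.lu.tr
  el := h.lu.el
  dm := h.dm
  Dm := h.Dm
  sub a ha := h.pi_id a ha ▸ (h.lu.pi_mem (h.fn_mem ha h.idm) (h.lu.k_mem h.dm)).2 (by
    filter_upwards [h.fn_id ha, h.lu.k_eq d, h.aed ha] with k c1 c2 c3
    rwa [c1, c2])
  gen := by
    rintro _ ⟨_, ⟨a, ha, f, hf, rfl⟩, rfl⟩
    refine ⟨a, ha, f, hf, ((h.lu.los3 (R := fun x y z => x = app y z) (by fun_prop)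
      (h.fn_mem ha hf) (h.lu.k_mem hf) (h.fn_mem ha h.idm)).2 ?_).trans
      (congrArg (app _) (h.pi_id a ha))⟩
    filter_upwards [h.fn_id ha, h.lu.k_eq f] with k c1 c2
    rw [c1, c2, fn]
  am := ⟨F, h.Fm, fun a ha b hb X hX e => by
    have := h.lu.los3 (R := fun x y z => pair x y ∈ z) (by fun_prop)
      (h.fn_mem ha h.idm) (h.fn_mem hb h.idm) (h.lu.k_mem hX)
    rw [h.pi_id a ha, h.pi_id b hb] at this
    refine Iff.trans ?_ (Iff.trans (eventually_congr (q := fun k : Z → Z => pair (k a) (k b) ∈ X) ?_)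
      Iff.rfl |>.symm.trans this.symm)
    · refine ⟨fun c => h.exU.choose_spec a ha b hb X hX c e, fun c => ?_⟩
      refine (h.ez.2.1 a ha b hb X hX e).resolve_right fun c' => ?_
      obtain ⟨k, c1, c2⟩ := (c.and (h.exU.choose_spec a ha b hb _ (h.zf.tm (fun z : Z × Z =>
        prod z.1 z.1 \ z.2) (d, X) (by fun_prop) ⟨h.dm, hX⟩) c' fun _ y => (mem_sdiff.1 y).1)).exists
      exact (mem_sdiff.1 c2).2 c1
    · filter_upwards [h.fn_id ha, h.fn_id hb, h.lu.k_eq X] with k c1 c2 c3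
      rw [c1, c2, c3]⟩

theorem fix (ha : a ∈ d) : h.lu.j a = a := by
  have aD := h.ez.1.2.2.1 ha
  refine (h.lu.pi_congr _ (h.lu.k_mem (h.zf.trans _ h.dm _ ha)) _ (h.fn_mem aD h.idm) ?_).trans
    (h.pi_id a aD)
  filter_upwards [h.fn_id aD, h.lu.k_eq a, h.ae aD aD (h.ez.2.2.2.2.2.2.1 a ha)] with k c1 c2 c3
  rw [c1, c2, c3.2.2]

end EU

theorem SZ.strTo {k l : Ordinal.{0}} {s : Z} (h : SZ M k.toZFSet s) (m : ZF0 M) (c : AC M)
    (hk : k.toZFSet ∈ M) (hl : l.toZFSet ∈ s) (e : ∀ x ∈ M, x.rank < l → x ∈ s) : StrTo M k l := by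
  obtain ⟨D, h1, F, h2, p, h3, q, h4, I, h5, r, h6, h7, h8⟩ := h
  have u : EU M _ D F p q I r := ⟨m, c, hk, h1, h2, h3, h4, h5, h6, h7⟩
  refine ⟨_, _, _, _, u.ext, fun a ha => u.fix (Ordinal.toZFSet_mem_toZFSet_iff.2 ha),
    u.ext.sub ((h8 _ hl).2 (isOrdinal_toZFSet l)), fun x hx c => ?_⟩
  obtain ⟨a, ha, rfl⟩ := (h8 x (e x hx c)).1
  exact ⟨_, u.fn_mem ha h6, u.pi_r a ha⟩

/-- All three conclusions from a set model with unboundedly many strong points and an elementary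
extension that contains all ordinals. -/
theorem conc_of_elem {P Q : S} {j : Z → Z} (p : ZF0 P) (c : AC P) (t : Tr Q) (el : Elem P Q j)
    (o : ∀ o : Ordinal.{0}, o.toZFSet ∈ Q) (H : ∀ a ∈ P, a.IsOrdinal → ∃ k ∈ P, k.IsOrdinal ∧
      a ∈ k ∧ ∀ s ∈ P, SZ P k s) : ConcA ∧ ConcB ∧ ConcC := by
  have q := el.zf p t
  have qa := el.ac p q c
  have i : Elem Q Q id := ⟨fun _ h => h, fun _ _ _ => Iff.rfl⟩
  refine Chain.conc (P := fun _ : Unit => Q) ⟨fun _ _ => ⟨(), le_rfl, le_rfl⟩, fun _ => q,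
    fun _ => qa, fun _ _ _ => i, fun a => ⟨(), o a⟩⟩ fun a => ?_
  obtain ⟨k, hk, ko, h1, h2⟩ := el.allU p q (fun z : S × Z => z.2.IsOrdinal → ∃ k ∈ z.1,
    k.IsOrdinal ∧ z.2 ∈ k ∧ ∀ s ∈ z.1, SZ z.1 k s) (Q, a.toZFSet) (by fun_prop)
    (by rintro ⟨_, a⟩ ⟨rfl, h⟩; exact H a h) (by exact ⟨rfl, o a⟩) (isOrdinal_toZFSet a)
  rw [← ko.toZFSet_rank_eq] at h1 h2 hk
  refine ⟨_, Ordinal.toZFSet_mem_toZFSet_iff.1 h1, fun l _ => ⟨(), o l, ?_⟩⟩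
  obtain ⟨s, hs, e, -⟩ := i.V q q (o l) (isOrdinal_toZFSet l)
  exact (h2 _ (q.insert (o l) hs)).strTo q qa hk (mem_insert _ _) fun x hx c =>
    mem_insert_of_mem _ ((e x).2 ⟨hx, by simpa using c⟩)

end Pool.Agent.Lib.MP_5c0be7_lc
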