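import Pool.Agent.Lib.MP_5c0be7_lc.G.EZ

/-!
Named extender fragments give extenders in the collapse.
-/

namespace Pool.Agent.Lib.MP_5c0be7_lc

open ZFSet Cx Pool.Agent.Lib.MP_053343_lc
open Pool.Agent.Shared.LDefs (E cons tl img mem_img bun mem_bun app gr app_gr gr_congr app_eq
  fst snd fst_pair snd_pair)

universe u

theorem ZF0.rk {M : S} (m : ZF0 M) {g d : Z} (hg : g ∈ M) (hd : d ∈ M) : ∃ f ∈ M,
    (∀ x ∈ d, (Shared.LDefs.app f x).IsOrdinal ∧ ∀ z ∈ Shared.LDefs.app f x, ∃ y ∈ d,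
      Shared.LDefs.app f y = z) ∧ ∀ x ∈ d, ∀ y ∈ d, Shared.LDefs.app g x ∈ Shared.LDefs.app g y →
      Shared.LDefs.app f x ∈ Shared.LDefs.app f y := by
  have w := InvImage.wf (Shared.LDefs.app g) mem_wf
  obtain ⟨f, hf, e⟩ := m.recur (pr := fun (p : Z × Z) b => ZFSet.sep (fun c =>
    Shared.LDefs.app p.1 c ∈ Shared.LDefs.app p.1 b) p.2) (G := fun p b f => bun (ZFSet.sep (fun c =>
    Shared.LDefs.app p.1 c ∈ Shared.LDefs.app p.1 b) p.2) fun c => Insert.insert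
      (Shared.LDefs.app f c) (Shared.LDefs.app f c)) (by fun_prop) (by fun_prop) (g, d)
    (by exact ⟨hg, hd⟩) hd (fun _ _ _ y => (mem_sep.1 y).1) fun s _ _ a ha =>
      let ⟨a, h1, h2⟩ := w.has_min {x | x ∈ s} ⟨a, ha⟩; ⟨a, h1, fun c hc e => h2 c e (mem_sep.1 hc).2⟩
  have k : ∀ b ∈ d, ∀ z, z ∈ Shared.LDefs.app f b ↔ ∃ c ∈ d, Shared.LDefs.app g c ∈
      Shared.LDefs.app g b ∧ (z = Shared.LDefs.app f c ∨ z ∈ Shared.LDefs.app f c) := fun b hb z => by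
    rw [e b hb, mem_bun]
    exact exists_congr fun c => ⟨fun ⟨h1, h2⟩ => ⟨(mem_sep.1 h1).1, (mem_sep.1 h1).2, by
      rwa [app_gr h1, mem_insert_iff] at h2⟩, fun ⟨h1, h2, h3⟩ => ⟨mem_sep.2 ⟨h1, h2⟩, by
      rwa [app_gr (mem_sep.2 ⟨h1, h2⟩), mem_insert_iff]⟩⟩
  refine ⟨f, hf, fun x => ?_, fun x hx y hy c => (k y hy _).2 ⟨x, hx, c, Or.inl rfl⟩⟩
  induction x using w.induction with
  | _ x ih =>
    refine fun hx => ⟨isOrdinal_iff_forall_mem_isOrdinal.2 ⟨fun z hz y hy => ?_, fun z hz => ?_⟩,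
      fun z hz => ?_⟩ <;> obtain ⟨c, hc, c1, c2⟩ := (k x hx z).1 hz
    · exact (k x hx y).2 ⟨c, hc, c1, Or.inr (c2.elim (fun e => e ▸ hy) ((ih c c1 hc).1.mem_trans hy))⟩
    · exact c2.elim (fun e => e ▸ (ih c c1 hc).1) (ih c c1 hc).1.mem
    · exact c2.elim (fun e => ⟨c, hc, e.symm⟩) ((ih c c1 hc).2 z)

variable {T : Type u} {G : Amb T} {A : NS T} {K τ L n a b c w w' : T}

namespace NS

/-- `n` names the fragment below `L` of an extender on the subsets of `K`, which are all named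
below `τ`. -/
structure Fr (G : Amb T) (A : NS T) (K τ L n : T) : Prop where
  tm : τ ∈ A.C
  Lm : L ∈ A.C
  nm' : n ∈ A.C
  Kt : G.lt K τ
  KL : G.lt K L
  lim : ∃ a, G.lt a K ∧ (∃ b, G.lt b a) ∧ ∀ b, G.lt b a → ∃ c, G.lt c a ∧ G.lt b c
  clK : ∀ a b, G.lt a K → G.lt b K → G.lt (G.pr a b) K
  clt : ∀ a b, G.lt a τ → G.lt b τ → G.lt (G.pr a b) τ
  clL : ∀ a b, G.lt a L → G.lt b L → G.lt (G.pr a b) L
  acc : ∀ X ∈ A.C, ∀ c, G.lt c τ → (∀ u, A.In u X → G.lt u c) →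
    ∃ w, G.lt w τ ∧ ∀ u, A.In u w ↔ A.In u X
  reg : ∀ h ∈ A.C, (∀ x z z', A.In (G.pr x z) h → A.In (G.pr x z') h → z = z') →
    ∃ a, G.lt a τ ∧ (∀ x z, G.lt x K → G.lt z a → G.lt (G.pr x z) a) ∧
      ∀ x z, G.lt x K → G.lt z τ → A.In (G.pr x z) h → G.lt z a
  fix : ∀ X a, G.lt X τ → G.lt a K → (A.In (G.pr X a) n ↔ A.In a X)
  ultra : ∀ X Y a, G.lt X τ → G.lt Y τ → G.lt a L → (∀ v, G.lt v K → A.In v X ∨ A.In v Y) →
    A.In (G.pr X a) n ∨ A.In (G.pr Y a) n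
  sat : ∀ X Y Z W a b c, G.lt X τ → G.lt Y τ → G.lt Z τ → G.lt W τ → G.lt a L → G.lt b L →
    G.lt c L → A.In (G.pr X (G.pr a b)) n → A.In (G.pr Y (G.pr a c)) n →
    A.In (G.pr Z (G.pr b c)) n → A.In (G.pr W (G.pr a a)) n → ∃ x y z, G.lt x K ∧ G.lt y K ∧
      G.lt z K ∧ A.In (G.pr x y) X ∧ A.In (G.pr x z) Y ∧ A.In (G.pr y z) Z ∧ A.In (G.pr x x) W
  fst : ∀ X a b, G.lt X τ → G.lt a L → G.lt b L → (∀ x y, G.lt x K → G.lt y K →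
    A.In (G.pr (G.pr x y) x) X) → A.In (G.pr X (G.pr (G.pr a b) a)) n
  snd : ∀ X a b, G.lt X τ → G.lt a L → G.lt b L → (∀ x y, G.lt x K → G.lt y K →
    A.In (G.pr (G.pr x y) y) X) → A.In (G.pr X (G.pr (G.pr a b) b)) n
  lt : ∀ X a b, G.lt X τ → G.lt a L → G.lt b L → (∀ x y, G.lt x K → G.lt y K → G.lt x y →
    A.In (G.pr x y) X) → G.lt a b → A.In (G.pr X (G.pr a b)) n
  nm : ∀ X a b, G.lt X τ → G.lt a L → G.lt b L → (∀ x y, G.lt x K → G.lt y K →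
    (A.In (G.pr x y) X ↔ A.In x y)) → (A.In (G.pr X (G.pr a b)) n ↔ A.In a b)
  normal : ∀ f w c b, G.lt f τ → G.lt w τ → G.lt c L → G.lt b L → (∀ x y, G.lt x K → G.lt y K →
    A.In (G.pr x y) w → ∃ z, G.lt z y ∧ A.In (G.pr x z) f) → A.In (G.pr w (G.pr c b)) n →
    ∃ a, G.lt a b ∧ A.In (G.pr f (G.pr c a)) n
  wf : ∀ X h, ∀ S ∈ A.C, G.lt X τ → G.lt h τ → (∀ x, G.lt x K → ∃ z, A.In (G.pr x z) h) →
    (∀ x y z w, G.lt x K → G.lt y K → A.In (G.pr x y) X → A.In (G.pr x z) h → A.In (G.pr y w) h →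
      G.lt z w) → (∀ a, G.lt a L → A.In a S → ∃ a', G.lt a' L ∧ A.In a' S ∧
      A.In (G.pr X (G.pr a' a)) n) → ∀ a, G.lt a L → ¬ A.In a S

variable {R : NS T → (ℕ → T) → Prop} {v : ℕ → T}

theorem Good.relO (h : A.Good G) (hR : FD G (Good G) R) (hv : ∀ i, v i ∈ A.C) (ha : a ∈ A.C)
    (hb : b ∈ A.C) : ∃ X ∈ A.P G, ∀ u t, pair (G.o u) (G.o t) ∈ X ↔
      G.lt u a ∧ G.lt t b ∧ R A (cs t (cs u v)) := by
  have k : ∀ z u t, (fun i => cs t (cs u (cs z v)) (match i with | 0 => 0 | 1 => 1 | i + 2 => i + 3))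
      = cs t (cs u v) := fun z u t => funext fun i => by rcases i with _ | _ | i <;> rfl
  refine ⟨_, h.sepT ((fd_oo 2 1 0).and (hR.rename fun i => match i with
    | 0 => 0 | 1 => 1 | i + 2 => i + 3)).ex.ex hv (h.zf.prod (h.o_mem a ha) (h.o_mem b hb)),
    fun u t => mem_sep.trans ?_⟩
  simp only [k, pair_mem_prod, Amb.o_mem_o, and_assoc]
  refine and_congr_right fun c1 => and_congr_right fun c2 => ⟨?_, fun c => ?_⟩
  · rintro ⟨z, -, e, u', -, t', -, e', c⟩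
    obtain ⟨e1, e2⟩ := pair_inj.1 (e.symm.trans e')
    rwa [Amb.o_inj e1, Amb.o_inj e2]
  · obtain ⟨z, hz, e⟩ := h.zf.opair (h.o_mem u (h.init a ha u c1)) (h.o_mem t (h.init b hb t c2))
    exact ⟨z, hz, e, u, h.init a ha u c1, t, h.init b hb t c2, e, c⟩

theorem Good.relT (h : A.Good G) {X : Z} (hX : X ∈ A.P G) (hc : c ∈ A.C)
    (cl : ∀ a b, G.lt a c → G.lt b c → G.lt (G.pr a b) c) : ∃ w ∈ A.C, (∀ u, A.In u w → G.lt u c) ∧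
      ∀ u t, G.lt u c → G.lt t c → (A.In (G.pr u t) w ↔ pair (G.o u) (G.o t) ∈ X) := by
  obtain ⟨x, hx, rfl⟩ := hX
  obtain ⟨n, hn, c1⟩ := h.compD ((FD.pr 2 1 0).and (fd_om 1 0 3)).ex.ex (fun _ => hx) hc
  exact ⟨n, hn, fun u e => ((c1 u).1 e).1, fun u t l1 l2 => (c1 _).trans
    ⟨fun ⟨_, u', _, t', _, d, d'⟩ => by obtain ⟨rfl, rfl⟩ := G.inj _ _ _ _ d; exact d',
      fun d => ⟨cl u t l1 l2, u, h.init c hc u l1, t, h.init c hc t l2, rfl, d⟩⟩⟩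

/-- `w` names the relation `X`. -/
def Rep (G : Amb T) (A : NS T) (K w : T) (P : Z → Z → Prop) : Prop :=
  ∀ u t, G.lt u K → G.lt t K → (A.In (G.pr u t) w ↔ P (G.o u) (G.o t))

namespace Fr

variable (h : Fr G A K τ L n) (ga : A.Good G) {P : Z → Z → Prop} {X F : Z}
include h ga

theorem Km : K ∈ A.C := ga.init τ h.tm K h.Kt

theorem exRep (hX : X ∈ A.P G) : ∃ w, G.lt w τ ∧ Rep G A K w fun x y => pair x y ∈ X :=
  let ⟨w, hw, e1, e2⟩ := ga.relT hX (h.Km ga) h.clK; let ⟨w', e3, e4⟩ := h.acc w hw K h.Kt e1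
  ⟨w', e3, fun u t l1 l2 => (e4 _).trans (e2 u t l1 l2)⟩

theorem exRep' (hX : ZFSet.sep (fun z => P (Shared.LDefs.fst z) (Shared.LDefs.snd z))
    (prod (G.o K) (G.o K)) ∈ A.P G) :
    ∃ w, G.lt w τ ∧ Rep G A K w P :=
  (h.exRep ga hX).imp fun _ e => ⟨e.1, fun u t l1 l2 => (e.2 u t l1 l2).trans (mem_rel.trans
    ((and_iff_right (Amb.o_mem_o.2 l1)).trans (and_iff_right (Amb.o_mem_o.2 l2))))⟩

theorem compl (hw : G.lt w τ) : ∃ w', G.lt w' τ ∧ ∀ u, G.lt u K → (A.In u w' ↔ ¬ A.In u w) :=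
  let ⟨m, hm, e⟩ := ga.compD (FD.mem 0 1).not (fun _ => ga.init τ h.tm w hw) (h.Km ga)
  let ⟨w', e3, e4⟩ := h.acc m hm K h.Kt fun u c => ((e u).1 c).1
  ⟨w', e3, fun u l => (e4 u).trans ((e u).trans (and_iff_right l))⟩

theorem indep (hw : G.lt w τ) (hw' : G.lt w' τ) (e : Rep G A K w P) (e' : Rep G A K w' P)
    (ha : G.lt a L) (hb : G.lt b L) (c : A.In (G.pr w (G.pr a b)) n) :
    A.In (G.pr w' (G.pr a b)) n := by
  obtain ⟨z, hz, e1⟩ := h.compl ga hw'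
  obtain ⟨d, hd, e2⟩ := h.exRep' ga (P := fun x y => x = y) (ga.zf.tm (fun d : Z => ZFSet.sep
    (fun z => Shared.LDefs.fst z = Shared.LDefs.snd z) (prod d d)) _ (by fun_prop)
    (ga.o_mem K (h.Km ga)))
  obtain ⟨d', hd', e3⟩ := h.compl ga hd
  have dg : ∀ a, G.lt a L → A.In (G.pr d (G.pr a a)) n := fun a ha =>
    (h.ultra d d' _ hd hd' (h.clL a a ha ha) fun v l => (em _).imp_right (e3 v l).2).resolve_right
      fun c => let ⟨x, _, _, l, _, _, _, _, _, c'⟩ := h.sat _ _ _ _ _ _ _ hd' hd' hd' hd' ha ha ha c c c c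
        (e3 _ (h.clK x x l l)).1 c' ((e2 x x l l).2 rfl)
  refine (h.ultra w' z _ hw' hz (h.clL a b ha hb) fun v l => (em _).imp_right
    (e1 v l).2).resolve_right fun c' => ?_
  obtain ⟨x, y, y', l1, l2, l3, c1, c2, c3, -⟩ := h.sat _ _ _ _ _ _ _ hw hz hd hd ha hb hb c c'
    (dg b hb) (dg a ha)
  obtain rfl := Amb.o_inj ((e2 y y' l2 l3).1 c3)
  exact (e1 _ (h.clK x y l1 l2)).1 c2 ((e' x y l1 l2).2 ((e x y l1 l2).1 c1))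

theorem exF : ∃ F ∈ A.P G, ∀ a b, G.lt a L → G.lt b L → ∀ X, pair (pair (G.o a) (G.o b)) X ∈ F ↔
    X ∈ pow (A.P G) (prod (G.o K) (G.o K)) ∧ ∃ w, G.lt w τ ∧ (Rep G A K w fun x y => pair x y ∈ X) ∧
      A.In (G.pr w (G.pr a b)) n := by
  have m := ga.zf
  have d1 := ga.o_mem K (h.Km ga)
  have d2 := ga.o_mem L h.Lm
  refine ⟨_, ga.sepT ((FD.pr 1 5 4).and ((fd_mp 3 1 9).and ((FD.lt 3 8).and ((((FD.lt 1 9).imp'
    ((FD.lt 0 9).imp' ((fd_mp 1 0 5).iff (fd_om 1 0 4)))).all.all).and ((fd_oo 0 5 4).and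
    (fd_pair 6 0 2)))))).ex.ex.ex.ex.ex.ex (cs_mem (cs_mem (fun _ => h.nm') h.tm) (h.Km ga))
    (m.prod (m.prod d2 d2) (m.pow (m.prod d1 d1))), fun a b ha hb X => mem_sep.trans ⟨?_, ?_⟩⟩
  · rintro ⟨c0, z, -, c1, a', -, b', -, w, hw, x, hx, t, -, r, -, c2, c3, c4, c5, c6, c7⟩
    obtain ⟨c8, rfl⟩ := pair_inj.1 (c1.symm.trans c7)
    obtain ⟨c9, c10⟩ := pair_inj.1 (c8.trans c6)
    obtain rfl := Amb.o_inj c9
    obtain rfl := Amb.o_inj c10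
    exact ⟨(pair_mem_prod.1 c0).2, w, c4, fun u t l1 l2 => c5 u (ga.init K (h.Km ga) u l1) t
      (ga.init K (h.Km ga) t l2) l1 l2, (show t = _ from c2) ▸ c3⟩
  · rintro ⟨hX, w, c1, c2, c3⟩
    obtain ⟨x, hx, rfl⟩ := (mem_pow.1 hX).2
    have aA := ga.init _ h.Lm a ha
    have bA := ga.init _ h.Lm b hb
    obtain ⟨r, hr, c6⟩ := m.opair (ga.o_mem a aA) (ga.o_mem b bA)
    obtain ⟨z, hz, c7⟩ := m.opair ⟨r, hr, rfl⟩ ⟨x, hx, rfl⟩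
    exact ⟨pair_mem_prod.2 ⟨pair_mem_prod.2 ⟨Amb.o_mem_o.2 ha, Amb.o_mem_o.2 hb⟩, hX⟩, z, hz, c6 ▸ c7,
      a, aA, b, bA, w, ga.init τ h.tm w c1, x, hx, _, ga.prc a aA b bA, r, hr, rfl, c3, c1,
      fun u _ t _ => c2 u t, c6, c7⟩

theorem exR : ∃ r ∈ A.P G, ∀ a, G.lt a L → app r (G.o a) = G.col A.In a := by
  have m := ga.zf
  obtain ⟨s, hs, e⟩ := ga.compD (FD.eq 0 0) (fun _ => h.Lm) h.Lm
  refine ⟨_, ga.sepT (fd_gr 1 0 0).ex (fun _ => hs) (m.prod (ga.o_mem L h.Lm) ⟨s, hs, rfl⟩),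
    fun a ha => app_eq ?_ fun y hy => ?_⟩
  · have aA := ga.init _ h.Lm a ha
    obtain ⟨z, hz, c⟩ := m.opair (ga.o_mem a aA) ⟨a, aA, rfl⟩
    exact mem_sep.2 ⟨pair_mem_prod.2 ⟨Amb.o_mem_o.2 ha, ga.toBase.mem_pi.2 ⟨a, (e a).2 ⟨ha, rfl⟩,
      rfl⟩⟩, z, hz, c, a, aA, c⟩
  · obtain ⟨z, -, c1, u, -, c2⟩ := (mem_sep.1 hy).2
    obtain ⟨c3, rfl⟩ := pair_inj.1 (c1.symm.trans c2)
    rw [Amb.o_inj c3]

theorem exP : ∃ p ∈ A.P G, ∃ q ∈ A.P G, ∀ x y, G.lt x K → G.lt y K →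
    app p (G.o (G.pr x y)) = G.o x ∧ app q (G.o (G.pr x y)) = G.o y := by
  have k := h.Km ga
  obtain ⟨p, hp, e⟩ := ga.relO (FD.pr 2 1 0).ex (fun _ => k) k k
  obtain ⟨q, hq, e'⟩ := ga.relO (FD.pr 2 0 1).ex (fun _ => k) k k
  have s := fun X hX => ga.zf.tm (fun z : Z × Z => z.1 ∩ prod z.2 z.2) (X, G.o K) (by fun_prop)
    (by exact ⟨hX, ga.o_mem K k⟩)
  refine ⟨_, s p hp, _, s q hq, fun x y l1 l2 => ⟨app_eq (mem_inter.2 ⟨(e _ _).2 ⟨h.clK x y l1 l2,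
    l1, y, ga.init K k y l2, rfl⟩, pair_mem_prod.2 ⟨Amb.o_mem_o.2 (h.clK x y l1 l2),
      Amb.o_mem_o.2 l1⟩⟩) fun z hz => ?_, app_eq (mem_inter.2 ⟨(e' _ _).2 ⟨h.clK x y l1 l2,
    l2, x, ga.init K k x l1, rfl⟩, pair_mem_prod.2 ⟨Amb.o_mem_o.2 (h.clK x y l1 l2),
      Amb.o_mem_o.2 l2⟩⟩) fun z hz => ?_⟩⟩ <;>
    obtain ⟨u, -, rfl⟩ := Amb.mem_o.1 (pair_mem_prod.1 (mem_inter.1 hz).2).2
  · obtain ⟨-, -, t, -, c⟩ := (e _ _).1 (mem_inter.1 hz).1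
    exact congrArg _ (G.inj _ _ _ _ c).1.symm
  · obtain ⟨-, -, t, -, c⟩ := (e' _ _).1 (mem_inter.1 hz).1
    exact congrArg _ (G.inj _ _ _ _ c).2.symm

theorem exH {g : Z} (hg : g ∈ A.P G) : ∃ w, G.lt w τ ∧ (∀ x, G.lt x K → ∃ z, A.In (G.pr x z) w) ∧
    ∀ x y z z', G.lt x K → G.lt y K → app g (G.o x) ∈ app g (G.o y) → A.In (G.pr x z) w →
      A.In (G.pr y z') w → G.lt z z' := by
  have k := h.Km ga
  obtain ⟨f, hf, e1, e2⟩ := ga.zf.rk hg (ga.o_mem K k)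
  obtain ⟨f', hf', e0⟩ := ga.zf.grapp hf (ga.o_mem K k)
  have e3 : ∀ c, G.lt c τ ∨ c = τ → ∃ H ∈ A.C, ∀ u, A.In u H ↔ G.lt u τ ∧ ∃ x, G.lt x K ∧ ∃ z,
      G.lt z c ∧ u = G.pr x z ∧ G.o z = app f (G.o x) := fun c hc => by
    have cA : c ∈ A.C := hc.elim (ga.init τ h.tm c) fun e => e ▸ h.tm
    obtain ⟨H, hH, e⟩ := ga.compD ((FD.lt 0 4).and ((FD.pr 2 1 0).and (fd_om 1 0 3))).ex.ex
      (cs_mem (fun _ => cA) hf') h.tm
    refine ⟨H, hH, fun u => (e u).trans (and_congr_right fun _ => ⟨?_, ?_⟩)⟩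
    · rintro ⟨x, -, z, -, c1, c2, c3⟩
      obtain ⟨y, hy, c4⟩ := mem_gr.1 (show _ ∈ gr (app f) _ from e0 ▸ c3)
      obtain ⟨rfl, c5⟩ := pair_inj.1 c4
      exact ⟨x, Amb.o_mem_o.1 hy, z, c1, c2, c5⟩
    · rintro ⟨x, c1, z, c2, c3, c4⟩
      exact ⟨x, ga.init K k x c1, z, ga.init c cA z c2, c2, c3, show _ ∈ G.col A.In f' from
        e0.symm ▸ mem_gr.2 ⟨_, Amb.o_mem_o.2 c1, congrArg _ c4⟩⟩
  have e4 : ∀ {x z c}, (∃ x', G.lt x' K ∧ ∃ z', G.lt z' c ∧ G.pr x z = G.pr x' z' ∧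
      G.o z' = app f (G.o x')) → G.o z = app f (G.o x) := by
    rintro x z c ⟨x', -, z', -, c1, c2⟩
    obtain ⟨rfl, rfl⟩ := G.inj _ _ _ _ c1
    exact c2
  obtain ⟨H, hH, e5⟩ := e3 τ (Or.inr rfl)
  obtain ⟨a, ha, cl, e6⟩ := h.reg H hH fun x z z' c c' =>
    Amb.o_inj ((e4 ((e5 _).1 c).2).trans (e4 ((e5 _).1 c').2).symm)
  have e7 : ∀ x, G.lt x K → app f (G.o x) ∈ G.o a := fun x hx => by
    have := e1 _ (Amb.o_mem_o.2 hx)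
    have c : ∀ y, G.lt y K → G.o a ≠ app f (G.o y) := fun y hy c => G.wo.wf.irrefl.1 a
      (e6 y a hy ha ((e5 _).2 ⟨h.clt _ _ (Amb.trans hy h.Kt) ha, y, hy, a, ha, rfl, c⟩))
    rcases this.1.mem_trichotomous (Amb.o_ord a) with d | d | d
    · exact d
    · exact (c x hx d.symm).elim
    · obtain ⟨y, hy, d⟩ := this.2 _ d
      obtain ⟨y, hy', rfl⟩ := Amb.mem_o.1 hy
      exact (c y hy' d.symm).elim
  obtain ⟨H', hH', e8⟩ := e3 a (Or.inl ha)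
  obtain ⟨w, hw, e9⟩ := h.acc H' hH' a ha fun u c => by
    obtain ⟨-, x, c1, z, c2, rfl, -⟩ := (e8 u).1 c
    exact cl x z c1 c2
  refine ⟨w, hw, fun x hx => ?_, fun x y z z' l1 l2 c c1 c2 => Amb.o_mem_o.1 ?_⟩
  · obtain ⟨z, hz, c⟩ := Amb.mem_o.1 (e7 x hx)
    exact ⟨z, (e9 _).2 ((e8 _).2 ⟨Amb.trans (cl x z hx hz) ha, x, hx, z, hz, rfl, c⟩)⟩
  · rw [e4 ((e8 _).1 ((e9 _).1 c1)).2, e4 ((e8 _).1 ((e9 _).1 c2)).2]
    exact e2 _ (Amb.o_mem_o.2 l1) _ (Amb.o_mem_o.2 l2) c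

theorem sz {s : Z} (hs : ∀ x ∈ s, ∃ u, G.lt u L ∧ G.col A.In u = x) : SZ (A.P G) (G.o K) s := by
  have m := ga.zf
  have d1 := ga.o_mem K (h.Km ga)
  obtain ⟨F, hF, eF⟩ := h.exF ga
  obtain ⟨p, hp, q, hq, ep⟩ := h.exP ga
  obtain ⟨I, hI, eI⟩ := ga.relO (FD.mem 1 0) (fun _ => h.Lm) h.Lm h.Lm
  obtain ⟨r, hr, er⟩ := h.exR ga
  have kl := fun x (c : G.lt x K) => Amb.trans c h.KL
  have fz : ∀ {a b P}, G.lt a L → G.lt b L → Fz (G.o K) F (G.o a) (G.o b) P →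
      ∃ w, G.lt w τ ∧ Rep G A K w P ∧ A.In (G.pr w (G.pr a b)) n := fun ha hb c =>
    ((eF _ _ ha hb _).1 c).2.imp fun w e => ⟨e.1, fun u t l1 l2 => (e.2.1 u t l1 l2).trans
      (mem_rel.trans ((and_iff_right (Amb.o_mem_o.2 l1)).trans
        (and_iff_right (Amb.o_mem_o.2 l2)))), e.2.2⟩
  have zf : ∀ {a b} {α : Type 1} [Cx α] (P : α → Z → Z → Prop) (x : α), (U fun p : α × Z × Z =>
      P p.1 p.2.1 p.2.2) → ok (A.P G) x → G.lt a L → G.lt b L → (∀ w, G.lt w τ →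
      Rep G A K w (P x) → A.In (G.pr w (G.pr a b)) n) → Fz (G.o K) F (G.o a) (G.o b) (P x) :=
    fun P x hP o ha hb c => by
      have := m.sepU (R := fun x z => P x (Shared.LDefs.fst z) (Shared.LDefs.snd z))
        (hP.comp (U.id'.fst.prodMk (U.id'.snd.fstZ.prodMk U.id'.snd.sndZ))) x o (m.prod d1 d1)
      obtain ⟨w, h1, h2⟩ := h.exRep' ga this
      exact (eF _ _ ha hb _).2 ⟨mem_pow.2 ⟨fun _ y => (mem_sep.1 y).1, this⟩, w, h1,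
        fun u t l1 l2 => (h2 u t l1 l2).trans (mem_rel.trans ((and_iff_right
          (Amb.o_mem_o.2 l1)).trans (and_iff_right (Amb.o_mem_o.2 l2)))).symm, c w h1 h2⟩
  have al : ∀ {c} {P : Z → Prop}, (∀ a, G.lt a c → P (G.o a)) → ∀ a ∈ G.o c, P a := fun H a ha => by
    obtain ⟨a, ha', rfl⟩ := Amb.mem_o.1 ha
    exact H a ha'
  refine ⟨_, ga.o_mem L h.Lm, F, hF, p, hp, q, hq, I, hI, r, hr, ⟨⟨Amb.o_ord K, Amb.o_ord L,
    (Amb.o_ord L).subset_of_mem (Amb.o_mem_o.2 h.KL), ?_⟩, al fun a ha => al fun b hb X hX e => ?_,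
    al fun a ha => al fun b hb => al fun c hc X _ Y _ V _ W _ c1 c2 c3 c4 => ?_,
    al fun a ha => al fun b hb => ⟨_, Amb.o_mem_o.2 (h.clL a b ha hb),
      zf (fun (p : Z) x y => y = app p x) p (by fun_prop) hp (h.clL a b ha hb) ha fun w l e =>
        h.fst w a b l ha hb fun x y l1 l2 => (e _ _ (h.clK x y l1 l2) l1).2 (ep x y l1 l2).1.symm,
      zf (fun (p : Z) x y => y = app p x) q (by fun_prop) hq (h.clL a b ha hb) hb fun w l e =>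
        h.snd w a b l ha hb fun x y l1 l2 => (e _ _ (h.clK x y l1 l2) l2).2 (ep x y l1 l2).2.symm⟩,
    al fun a ha => al fun b hb c => zf (fun (_ : Z) x y => x ∈ y) p (by fun_prop) hp ha hb
      fun w l e => h.lt w a b l ha hb (fun x y l1 l2 c => (e x y l1 l2).2 (Amb.o_mem_o.2 c))
        (Amb.o_mem_o.1 c), al fun a ha => al fun b hb => ?_,
    al fun b hb => zf (fun (b : Z) x _ => x = b) _ (by fun_prop) (ga.o_mem b (ga.init _ h.Lm b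
      (kl b hb))) (kl b hb) (kl b hb) fun w l e => (h.fix w _ l (h.clK b b hb hb)).2
        ((e b b hb hb).2 rfl), al fun c hc => al fun b hb g hg e => ?_,
    fun g hg S hS sD H a ha => ?_, al fun b hb => ?_⟩, fun x hx => ?_⟩
  · obtain ⟨a, h1, ⟨b, h2⟩, h3⟩ := h.lim
    exact ⟨_, Amb.o_mem_o.2 h1, fun e => notMem_empty _ (e ▸ Amb.o_mem_o.2 h2), al fun b hb =>
      let ⟨c, h4, h5⟩ := h3 b hb; ⟨_, Amb.o_mem_o.2 h4, Amb.o_mem_o.2 h5⟩⟩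
  · obtain ⟨w, h1, h2⟩ := h.exRep ga hX
    obtain ⟨w', h3, h4⟩ := h.compl ga h1
    refine (h.ultra w w' _ h1 h3 (h.clL a b ha hb) fun v l => (em _).imp_right (h4 v l).2).imp
      (fun c => (eF a b ha hb _).2 ⟨mem_pow.2 ⟨e, hX⟩, w, h1, h2, c⟩) fun c => (eF a b ha hb _).2
      ⟨mem_pow.2 ⟨fun _ y => (mem_sdiff.1 y).1, m.tm (fun z : Z × Z => prod z.1 z.1 \ z.2) (_, X)
        (by fun_prop) ⟨d1, hX⟩⟩, w', h3, fun u t l1 l2 => ?_, c⟩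
    rw [h4 _ (h.clK u t l1 l2), h2 u t l1 l2]
    exact (mem_sdiff.trans
      (and_iff_right (pair_mem_prod.2 ⟨Amb.o_mem_o.2 l1, Amb.o_mem_o.2 l2⟩))).symm
  · obtain ⟨-, w1, l1, r1, c1⟩ := (eF _ _ ha hb _).1 c1
    obtain ⟨-, w2, l2, r2, c2⟩ := (eF _ _ ha hc _).1 c2
    obtain ⟨-, w3, l3, r3, c3⟩ := (eF _ _ hb hc _).1 c3
    obtain ⟨-, w4, l4, r4, c4⟩ := (eF _ _ ha ha _).1 c4
    obtain ⟨x, y, z, hx, hy, hz, d1, d2, d3, d4⟩ := h.sat _ _ _ _ _ _ _ l1 l2 l3 l4 ha hb hc c1 c2 c3 c4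
    exact ⟨_, Amb.o_mem_o.2 hx, _, Amb.o_mem_o.2 hy, _, Amb.o_mem_o.2 hz, (r1 _ _ hx hy).1 d1,
      (r2 _ _ hx hz).1 d2, (r3 _ _ hy hz).1 d3, (r4 _ _ hx hx).1 d4⟩
  · have k : ∀ w, G.lt w τ → (Rep G A K w fun x y => pair x y ∈ I) →
        (A.In (G.pr w (G.pr a b)) n ↔ pair (G.o a) (G.o b) ∈ I) := fun w l e =>
      (h.nm w a b l ha hb fun x y l1 l2 => (e x y l1 l2).trans ((eI x y).trans
        ((and_iff_right (kl x l1)).trans (and_iff_right (kl y l2))))).trans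
        ((eI a b).trans ((and_iff_right ha).trans (and_iff_right hb))).symm
    exact ⟨fun c => let ⟨w, h1, h2, h3⟩ := fz ha hb c; (k w h1 h2).1 h3, fun c =>
      zf (fun (I : Z) x y => pair x y ∈ I) I (by fun_prop) hI ha hb fun w l e => (k w l e).2 c⟩
  · obtain ⟨w, h1, h2, h3⟩ := fz hc hb e
    obtain ⟨f, h4, h5⟩ := h.exRep' ga (P := fun x y => y = app g x) (m.tm (fun z : Z × Z => ZFSet.sep
      (fun w => Shared.LDefs.snd w = app z.1 (Shared.LDefs.fst w)) (prod z.2 z.2)) (g, _)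
      (by fun_prop) ⟨hg, d1⟩)
    obtain ⟨a, h6, h7⟩ := h.normal f w c b h4 h1 hc hb (fun x y l1 l2 e => by
      obtain ⟨z, hz, e⟩ := Amb.mem_o.1 ((h2 x y l1 l2).1 e)
      exact ⟨z, hz, (h5 x z l1 (Amb.trans hz l2)).2 e⟩) h3
    exact ⟨_, Amb.o_mem_o.2 h6, zf (fun (p : Z) x y => y = app p x) g (by fun_prop) hg hc
      (Amb.trans h6 hb) fun w l e => h.indep ga h4 l h5 e hc (Amb.trans h6 hb) h7⟩
  · obtain ⟨X, h1, h2⟩ := h.exRep' ga (P := fun x y => app g x ∈ app g y) (m.tm (fun z : Z × Z =>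
      ZFSet.sep (fun w => app z.1 (Shared.LDefs.fst w) ∈ app z.1 (Shared.LDefs.snd w))
      (prod z.2 z.2)) (g, _) (by fun_prop) ⟨hg, d1⟩)
    obtain ⟨w, h3, h4, h5⟩ := h.exH ga hg
    obtain ⟨S, hS, rfl⟩ := hS
    obtain ⟨S', hS', e⟩ := ga.compD ((fd_o 1 0).and (fd_es (.mem 0 2))).ex (fun _ => hS) h.Lm
    have e' : ∀ a, G.lt a L → (A.In a S' ↔ G.o a ∈ G.col A.In S) := fun a ha => (e a).trans
      ⟨fun ⟨_, _, _, c, c'⟩ => (show G.o a = _ from c) ▸ c', fun c =>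
        let ⟨z, hz, d⟩ := ga.toBase.tr _ ⟨S, hS, rfl⟩ _ c; ⟨ha, z, hz, d.symm,
          (congrArg (· ∈ G.col A.In S) d).mpr c⟩⟩
    obtain ⟨a, ha', rfl⟩ := Amb.mem_o.1 (sD ha)
    refine h.wf X w S' hS' h1 h3 h4 (fun x y z z' l1 l2 c => h5 x y z z' l1 l2 ((h2 x y l1 l2).1 c))
      (fun a ha c => ?_) a ha' ((e' a ha').2 ha)
    obtain ⟨c', h6, h7⟩ := H _ ((e' a ha).1 c)
    obtain ⟨a', h8, rfl⟩ := Amb.mem_o.1 (sD h6)
    obtain ⟨w', h9, h10, h11⟩ := fz h8 ha h7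
    exact ⟨a', h8, (e' a' h8).2 h6, h.indep ga h9 h1 h10 h2 h8 ha h11⟩
  · ext y
    rw [er b hb, Amb.mem_col, mem_img]
    constructor
    · rintro ⟨u, ⟨c1, c2⟩, rfl⟩
      exact ⟨_, mem_sep.2 ⟨Amb.o_mem_o.2 c1, (eI u b).2 ⟨Amb.trans c1 hb, hb, c2⟩⟩,
        er u (Amb.trans c1 hb)⟩
    · rintro ⟨u, c, rfl⟩
      obtain ⟨u, c1, rfl⟩ := Amb.mem_o.1 (mem_sep.1 c).1
      exact ⟨u, ⟨c1, ((eI u b).1 (mem_sep.1 c).2).2.2⟩, (er u (Amb.trans c1 hb)).symm⟩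
  · obtain ⟨u, hu, rfl⟩ := hs x hx
    refine ⟨⟨_, Amb.o_mem_o.2 hu, (er u hu).symm⟩, fun o => ?_⟩
    rw [← o.toZFSet_rank_eq, ← (Amb.o_ord L).toZFSet_rank_eq, Ordinal.toZFSet_mem_toZFSet_iff]
    exact (Amb.rank_col _ u).trans_lt (rank_lt_of_mem (Amb.o_mem_o.2 hu))

end Fr

/-- All three conclusions from unboundedly many strong points and an elementary extension that
contains all ordinals. -/
theorem Good.conc (ga : A.Good G) {Q : S} {j : Z → Z} (t : Tr Q) (el : Elem (A.P G) Q j)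
    (o : ∀ o : Ordinal.{0}, o.toZFSet ∈ Q) (H : ∀ a ∈ A.C, ∃ K, G.lt a K ∧ ∀ b ∈ A.C,
      ∃ τ L n, G.lt b L ∧ Fr G A K τ L n) : ConcA ∧ ConcB ∧ ConcC := by
  refine conc_of_elem ga.zf ga.ac t el o ?_
  rintro _ ⟨a, ha, rfl⟩ ao
  obtain ⟨K, h1, h2⟩ := H a ha
  obtain ⟨_, _, _, -, f⟩ := h2 a ha
  refine ⟨_, ga.o_mem K (f.Km ga), Amb.o_ord K, ?_, ?_⟩
  · rw [← ao.toZFSet_rank_eq, ← (Amb.o_ord K).toZFSet_rank_eq, Ordinal.toZFSet_mem_toZFSet_iff]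
    exact (Amb.rank_col _ a).trans_lt (rank_lt_of_mem (Amb.o_mem_o.2 h1))
  · rintro _ ⟨b, hb, rfl⟩
    obtain ⟨_, _, _, h3, f⟩ := h2 b hb
    exact f.sz ga fun x hx => (Amb.mem_col.1 hx).imp fun u c => ⟨Amb.trans c.1.1 h3, c.2⟩

end NS

end Pool.Agent.Lib.MP_5c0be7_lc
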