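import Pool.Agent.Lib.MP_5c0be7_lc.O.FO3
import Pool.Agent.Lib.MP_5c0be7_lc.K.Loc
import Pool.Agent.Lib.MP_5c0be7_lc.K.StFrag
import Pool.Agent.Lib.MP_5c0be7_lc.F.ActI

/-!
Project KM, block F8: fragments of extenders on the sequence, smallness.
-/

namespace Pool.Agent.KM

open Ordinal Tr

universe u

namespace FragI

variable {E E' : Seq.{u}} {b d g k l m t v : Ordinal.{u}} {e : Ordinal.{u} → Ordinal.{u}}

theorem frag_ag (H : Agree E E' d) (hk : k ≤ d) (ht : t ≤ d) (hl : l ≤ d)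
    {F : Tr.{u} → Tr.{u} → Prop} (h : Frag E d k t l F) : Frag E' d k t l F := by
  have a : ∀ {X : Tr.{u}}, In d X → Nm E' X = Nm E X := fun i => funext fun _ =>
    propext (KN.anm H i).symm
  have c : ∀ {X : Tr.{u}}, In t X → Nm E' X = Nm E X := fun i => a (i.mono ht)
  refine ⟨fun X x i => ?_, fun X Y x i j => ?_, fun X Y Z W x y z i j p q => ?_,
    fun X x y i => ?_, fun X x y i => ?_, fun X x y i => ?_, fun X x y i j p q => ?_,
    fun f w x y i j => ?_, fun X f S i j p => ?_⟩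
  · rw [c i]; exact h.fix X x i
  · rw [c i, c j]; exact h.ultra X Y x i j
  · rw [c i, c j, c p, c q]; exact h.sat X Y Z W x y z i j p q
  · rw [c i]; exact h.fst X x y i
  · rw [c i]; exact h.snd X x y i
  · rw [c i]; exact h.lt X x y i
  · rw [a (p.mono hl)]
    exact h.nm X x y i j p fun x y r s => by rw [← c i, ← a (s.mono hk)]; exact q x y r s
  · rw [c i, c j]; exact h.normal f w x y i j
  · rw [c i, c j, a p]; exact h.wf X f S i j p

theorem congr (H : Agree E E' d) (h : StrongTo E d k) : StrongTo E' d k := by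
  obtain ⟨h1, t, h2, h3, h4⟩ := h
  refine ⟨h1, t, h2, KL.next_ag H h3, fun l hl => ?_⟩
  obtain ⟨n, h5, h6⟩ := h4 l hl
  refine ⟨n, h5, ?_⟩
  rw [show Nm E' n = Nm E n from funext fun _ => propext (KN.anm H h5).symm]
  exact frag_ag H (h3.1.le.trans h2.le) h2.le hl.le h6

variable [DiagSt.{u}]

theorem refl (L : LS E v) (h : Act E v k t e) {a} (ha : a < k) (h1 : a < m) (h2 : m < e k)
    (h3 : StrongTo E (e k) m) : ∃ m < k, a < m ∧ StrongTo E k m :=
  (ActF.df L h (Df.oex (Q := fun E _ m z => z.snd.lab < m ∧ StrongTo E z.fst.lab m)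
    (On.lab IsOp.id.fst) ((Df.olt (On.lab IsOp.id.snd.snd) (On.lab IsOp.id.fst)).and
      (Df.strongTo (On.lab IsOp.id.snd.fst) (On.lab IsOp.id.fst)))) (ActF.succ_lt L h h.lt)
    (z := node (leaf k) (leaf a)) (by simpa using ha.le)).1
    ⟨m, h2, by simpa [h.fix a ha] using h1, h3⟩

theorem small (L : LS E v) (h : Act E v k t e) (hs : Small E k) (h1 : k ≤ m) (h2 : m < e k) :
    ¬ StrongTo E (e k) m := fun h3 =>
  let ⟨_, h4, h5⟩ := hs
  let ⟨n, h6, h7, h8⟩ := refl L h h4 (h4.trans_le h1) h2 h3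
  h5 n h7 h6 h8

/-- One code at level `v + 1` is defined exactly on the extender with index `v`. -/
theorem code : ∃ c : Tr.{u}, c.erase = c ∧ ∀ E v k t e X a, LS E (v + 1) → Act E v k t e →
    In t X → In (v + 1) a →
    ((ev E (v + 1) c (node (node X a) .nil)).isSome ↔ Nm E (X.map e) a) := by
  obtain ⟨p, p1, p2⟩ := ActF.app.{u}
  obtain ⟨c, c1, c2⟩ := Code.bind (IsOp.id.snd.fst.snd.pair IsOp.id.fst)
    ((Code.self p1).pre IsOp.id.fst.fst) (Code.self (erase_of_lv lv_nmc))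
  refine ⟨c, c1, fun E v k t e X a L h i j => ?_⟩
  rw [c2 E _ _ (by simp [j, i.mono (h.dom.le.trans (lt_add_one v).le)])]
  simp only [fst_node, snd_node]
  rw [p2 E v k t e X L h i, Option.bind_some]
  exact ev_nmc j ((KE.w_in h.weak i).mono (lt_add_one v).le)

theorem strong [AccSt.{u}] [FragMkSt.{u}] (L : LS E (b + 1)) (hv : v < b) (h : Act E v k t e)
    (hg : IsCard E (b + 1) g) (ht : t < g) (he : g ≤ e k) : StrongTo E g k := by
  have h1 : v + 1 < b + 1 := KE.s1lt hv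
  refine FragMkSt.make (L.mono ((lt_add_one v).trans h1).le) h ht he fun l hl => ?_
  obtain ⟨c, c1, c2⟩ := code.{u}
  obtain ⟨n, n1, n2⟩ := AccSt.acc_card E (b + 1) (max t l) g
    (fun q => (ev E (v + 1) c (node q .nil)).isSome) hg (max_lt ht hl)
    ⟨node (leaf (v + 1)) (node c .nil), by simp [h1, in_of_lf c1], fun q _ => by simp [NmL]⟩
  refine ⟨n, n1, fun X a i j => (n2 _ ?_).trans (c2 E v k t e X a (L.mono h1.le) h i ?_)⟩
  · simp [i.mono (le_max_left _ _), j.mono (le_max_right _ _)]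
  · exact j.mono (hl.le.trans (he.trans ((h.weak.maps k h.lt).le.trans (lt_add_one v).le)))

end FragI

instance [DiagSt.{u}] [AccSt.{u}] [FragMkSt.{u}] : FragSt.{u} :=
  ⟨fun h => FragI.strong h.ls, fun h => FragI.small h.ls, FragI.congr⟩

end Pool.Agent.KM
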