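import Pool.Agent.Lib.MP_5c0be7_lc.G.Fr
import Pool.Agent.Lib.MP_5c0be7_lc.G.EM
import Pool.Agent.Lib.MP_5c0be7_lc.O.FO2
import Pool.Agent.Lib.MP_5c0be7_lc.O.StF3
import Pool.Agent.Lib.MP_5c0be7_lc.Z.St

/-!
Project KM, block G: the levels of a hierarchy as named structures.
-/

namespace Pool.Agent.KM

open Ordinal Tr Pool.Agent.Lib.MP_5c0be7_lc
open scoped Classical

universe u

namespace Gren

theorem lt_leaf {u : Tr.{u}} {k : Ordinal.{u}} : Lt u (leaf k) ↔ In k u := by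
  refine ⟨?_, fun h => Or.inl (Order.lt_add_one_iff.2 h.ht_le)⟩
  rintro (h | ⟨h1, h⟩)
  · exact ht_le_iff.1 (Order.lt_add_one_iff.1 h)
  · rw [List.shortlex_def] at h
    cases u with
    | nil => simp
    | leaf a =>
      obtain rfl : a = k := by simpa using h1
      simp [ser] at h
    | node l r => cases l <;> simp [ser] at h

theorem lt_node (a : Tr.{u}) : Lt a (node a a) :=
  Or.inr ⟨by simp, List.Shortlex.of_length_lt (by simp [ser])⟩

theorem nm_lt {E : Seq.{u}} {n q : Tr.{u}} (h : Nm E n q) : Lt q n := by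
  obtain ⟨b, h1, h2⟩ := h
  exact Or.inl (ht_lt_ht.2 ⟨b, lv_fst n (by simp [h1]), ((in_node _ _ _).1 (in_of_ev h2)).1⟩)

/-- Trees with labels below `v`. -/
abbrev TT (v : Ordinal.{u}) : Type (u + 1) := {t : Tr.{u} // In v t}

/-- Trees from a small type of labels. -/
def ofTree {α : Type} (f : α → Ordinal.{u}) : BinaryTree (Option α) → Tr.{u}
  | .nil => .nil
  | .node (some a) _ _ => leaf (f a)
  | .node none l r => node (ofTree f l) (ofTree f r)

instance (v : Ordinal.{u}) [_root_.Small.{0} (Set.Iio v)] : _root_.Small.{0} (TT v) := by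
  let f : Shrink.{0} (Set.Iio v) → Ordinal.{u} := fun a => ((equivShrink _).symm a).1
  refine small_subset (s := Set.range (ofTree f)) (t := {t | In v t}) fun t ht => ?_
  induction t with
  | nil => exact ⟨.nil, rfl⟩
  | leaf a => exact ⟨.node (some (equivShrink _ ⟨a, by simpa using ht⟩)) .nil .nil, by
      simp [ofTree, f]⟩
  | node l r i1 i2 =>
    obtain ⟨h1, h2⟩ := (in_node _ _ _).1 ht
    obtain ⟨a, rfl⟩ := i1 h1
    obtain ⟨b, rfl⟩ := i2 h2
    exact ⟨.node none a b, rfl⟩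

/-- The ambient type. -/
def amb (v : Ordinal.{u}) [_root_.Small.{0} (Set.Iio v)] : Amb (TT v) where
  lt a b := Lt a.1 b.1
  pr a b := ⟨node a.1 b.1, (in_node _ _ _).2 ⟨a.2, b.2⟩⟩
  wo := { wf := InvImage.wf _ Tr.lt_wf
          trichotomous := fun a b h1 h2 => Subtype.ext
            (((lt_tri a.1 b.1).resolve_left h1).resolve_right h2) }
  small _ := inferInstance
  inj a b c d h := by simpa [Subtype.ext_iff] using h

/-- A level as a named structure. -/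
def lvl (E : Seq.{u}) (v b : Ordinal.{u}) : NS (TT v) := ⟨{x | In b x.1}, fun u n => Nm E n.1 u.1⟩

/-- Entries of a list. -/
def nth : ℕ → Tr.{u} → Tr.{u}
  | 0, z => z.fst
  | n + 1, z => nth n z.snd

/-- The list of the first values. -/
def mk : ℕ → (ℕ → Tr.{u}) → Tr.{u}
  | 0, _ => .nil
  | n + 1, v => node (v 0) (mk n fun i => v (i + 1))

theorem nth_mk (n : ℕ) : ∀ (v : ℕ → Tr.{u}), ∀ i < n, nth i (mk n v) = v i := by
  induction n with
  | zero => nofun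
  | succ n ih =>
    rintro v (_ | i) hi
    exacts [rfl, ih _ i (by omega)]

theorem in_mk {b : Ordinal.{u}} (n : ℕ) : ∀ (v : ℕ → Tr.{u}), (∀ i, In b (v i)) → In b (mk n v) := by
  induction n with
  | zero => exact fun _ _ => in_nil _
  | succ n ih => exact fun v h => (in_node _ _ _).2 ⟨h 0, ih _ fun i => h _⟩

theorem op_nth (n : ℕ) : IsOp (nth.{u} n) := by
  induction n with
  | zero => exact IsOp.id.fst
  | succ n ih => exact ih.comp IsOp.id.snd

theorem nth_map (s : Ordinal.{u} → Ordinal.{u}) (n : ℕ) : ∀ z, nth n (map s z) = map s (nth n z) := by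
  induction n with
  | zero => exact fun z => map_fst s z
  | succ n ih => exact fun z => by rw [nth, map_snd, ih, nth]

/-- Satisfaction on trees. -/
def sat (E : Seq.{u}) (k : Ordinal.{u}) : Fm → Tr.{u} → Prop
  | .mem i j, z => Nm E (nth j z) (nth i z)
  | .lt i j, z => Lt (nth i z) (nth j z)
  | .eq i j, z => nth i z = nth j z
  | .pr i j l, z => nth i z = node (nth j z) (nth l z)
  | .neg φ, z => ¬ sat E k φ z
  | .and φ ψ, z => sat E k φ z ∧ sat E k ψ z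
  | .ex φ, z => ∃ x, In k x ∧ sat E k φ (node x z)

theorem df_sat (φ : Fm) : Df.{u} fun E _ z => sat E z.fst.lab φ z.snd := by
  have f := fun i => Fn.op ((op_nth.{u} i).comp IsOp.id.snd)
  induction φ with
  | mem i j => exact Df.nm (f j) (f i)
  | lt i j => exact Df.lt (f i) (f j)
  | eq i j => exact Df.eq (f i) (f j)
  | pr i j l => exact Df.eq (f i) ((f j).pair (f l))
  | neg φ ih => exact ih.not
  | and φ ψ i1 i2 => exact i1.and i2
  | ex φ ih =>
    exact Df.bex (P := fun E _ t z => sat E z.fst.lab φ (node t z.snd)) (On.lab IsOp.id.fst)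
      (ih.pre (IsOp.id.snd.fst.pair (IsOp.id.fst.pair IsOp.id.snd.snd)))

variable {E : Seq.{u}} {v k t d m l : Ordinal.{u}} {e : Ordinal.{u} → Ordinal.{u}}

theorem sat_iff [_root_.Small.{0} (Set.Iio v)] (hk : k ≤ v) (φ : Fm) : ∃ n, ∀ (w : ℕ → TT v) z,
    (∀ i < n, nth i z = (w i).1) → ((lvl E v k).Sat (amb v) φ w ↔ sat E k φ z) := by
  induction φ with
  | mem i j | lt i j | eq i j => exact ⟨max i j + 1, fun w z h => by
      simp only [NS.Sat, sat, lvl, amb, Subtype.ext_iff]; rw [h i (by omega), h j (by omega)]⟩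
  | pr i j k => exact ⟨max i (max j k) + 1, fun w z h => by
      simp only [NS.Sat, sat, amb, Subtype.ext_iff]
      rw [h i (by omega), h j (by omega), h k (by omega)]⟩
  | neg φ ih => exact ih.imp fun n h w z e => not_congr (h w z e)
  | and φ ψ i1 i2 =>
    obtain ⟨n, h⟩ := i1
    obtain ⟨m, h'⟩ := i2
    exact ⟨max n m, fun v w e => and_congr (h v w fun i hi => e i (by omega))
      (h' v w fun i hi => e i (by omega))⟩
  | ex φ ih =>
    refine ih.imp fun n h w z e => ?_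
    have k : ∀ x : TT v, ∀ i < n, nth i (node x.1 z) = (cs x w i).1 := by
      rintro x (_ | i) hi
      exacts [rfl, e i (by omega)]
    exact ⟨fun ⟨x, hx, c⟩ => ⟨x.1, hx, (h _ _ (k x)).1 c⟩, fun ⟨x, hx, c⟩ =>
      ⟨⟨x, hx.mono hk⟩, hx, (h _ _ (k ⟨x, hx.mono hk⟩)).2 c⟩⟩

theorem base [_root_.Small.{0} (Set.Iio v)] : (lvl E v k).Base (amb v) :=
  ⟨⟨⟨.nil, in_nil _⟩, in_nil _⟩, fun _ ha _ h => Lt.in h ha, fun a ha => ⟨(amb v).pr a a,
    (in_node _ _ _).2 ⟨ha, ha⟩, lt_node _⟩, fun _ ha _ hb => (in_node _ _ _).2 ⟨ha, hb⟩,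
    fun _ _ => nm_lt⟩

theorem exb (hd : ¬ Suc d) {z : Tr.{u}} (hz : In d z) (hk : k < d) : ∃ b < d, k < b ∧ In b z :=
  have := limit_of_not_suc hd (zero_le.trans_lt hk).ne'
  ⟨max (k + 1) z.ht, max_lt (this.add_one_lt hk) (hz.ht_lt this),
    lt_max_of_lt_left (lt_add_one k), (in_ht z).mono (le_max_right _ _)⟩

theorem accx [AccSt.{u}] (ls : LS E d) (hc : IsCard E d m) (hm : ¬ Suc m) (md : m ≤ d) (hk : k < m)
    {n : Tr.{u}} (hn : In d n) : ∃ w, In m w ∧ ∀ q, Nm E w q ↔ In k q ∧ Nm E n q := by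
  obtain ⟨w, h1, h2⟩ := AccSt.acc_card E d k m (Nm E n) hc hk ⟨n, hn, fun _ _ => Iff.rfl⟩
  obtain ⟨b, h3, h4, h5⟩ := exb hm h1 hk
  obtain ⟨w', h6, h7⟩ := ((Df.in_ (On.lab IsOp.id.snd.fst) Fn.id.fst).and (Df.nm Fn.id.snd.snd
    Fn.id.fst)).named_lim (z := node (leaf k) w) (ls.mono md) hm h3 (by simp [h4, h5])
  exact ⟨w', h6, fun q => (h7 q).trans ⟨fun c => ⟨c.2.1, (h2 q c.2.1).1 c.2.2⟩,
    fun c => ⟨c.1.mono h4.le, c.1, (h2 q c.1).2 c.2⟩⟩⟩

/-- The map on names. -/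
noncomputable def sg (h : Weak E t E v e) (x : TT v) : TT v :=
  if hx : In t x.1 then ⟨x.1.map e, fun _ ha => by
    obtain ⟨a, ha', rfl⟩ := lv_map e _ ▸ ha; exact h.maps a (hx a ha')⟩ else x

theorem sg_val (h : Weak E t E v e) {x : TT v} (hx : In t x.1) : (sg h x).1 = x.1.map e := by
  rw [sg, dif_pos hx]

theorem nsv (act : Act E v k t e) : ¬ Suc v := by
  rintro ⟨c, rfl⟩
  obtain ⟨x, h1, h2⟩ := act.cof c (lt_add_one c)
  exact h2.not_ge (Order.lt_add_one_iff.1 (act.weak.maps x h1))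

theorem nsk (act : Act E v k t e) : ¬ Suc k := by
  rintro ⟨c, rfl⟩
  have := (act.weak.comm _ act.lt).succ_eq
  rw [act.fix c (lt_add_one c)] at this
  exact act.move.ne' this

theorem nst [AccSt.{u}] (ls : LS E v) (act : Act E v k t e) : ¬ Suc t :=
  not_suc_of_limit (AccSt.next_lim E v k t ls ⟨act.lt, act.dom.le, act.top, act.next⟩ act.dom)

variable [AccSt.{u}] [_root_.Small.{0} (Set.Iio v)]

theorem top (ls : LS E v) (act : Act E v k t e) (oc : ∀ X : ℕ → Tr.{u}, (∀ n, In t (X n) ∧ Nm E ((X n).map e) (leaf k)) →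
    ∃ a, In k a ∧ ∀ n, Nm E (X n) a) : NS.Top (amb v) (lvl E v k) (lvl E v (e k))
      {x | In t x.1} (sg act.weak) ⟨leaf k, by simpa using act.lt.trans act.dom⟩ := by
  have kv := (act.lt.trans act.dom).le
  have ev' := (act.weak.maps k act.lt).le
  have lt := ls.mono act.dom.le
  have fx : ∀ a, In k a → map e a = a := fun a ha => map_eq_self fun x hx => act.fix x (ha x hx)
  have card : IsCard E v k := fun a h1 h2 => (lt_or_ge a t).elim (act.card a h1)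
    fun h3 => (act.next a h3 h2).le
  refine ⟨base, base, rfl, fun u => lt_leaf.symm, by simpa [lvl] using act.move,
    fun a ha => In.mono ha act.lt.le, fun a ha => Subtype.ext
      ((sg_val _ (In.mono ha act.lt.le)).trans (fx _ ha)), fun φ w hw => ?_, fun φ w hw => ?_,
    fun m hm => ?_, fun c hc n _ H => ?_, fun X hX => ?_⟩
  · obtain ⟨n, h1⟩ := sat_iff (E := E) kv φ
    obtain ⟨n', h2⟩ := sat_iff (E := E) ev' φ
    obtain ⟨b, h3, h4, h5⟩ := exb (nst ls act) (in_mk (max n n') (fun i => (w i).1) hw) act.lt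
    rw [h1 w _ fun i hi => nth_mk (max n n') _ i (by omega), h2 _ (map e (mk (max n n') fun i =>
      (w i).1)) fun i hi => by rw [nth_map, nth_mk _ _ i (by omega), sg_val _ (hw i)]]
    exact ((df_sat φ).weak_lim (z := node (leaf k) _) act.weak lt ls (nst ls act) h3 le_rfl
      (by simp [h4, h5])).symm
  · obtain ⟨n, h1⟩ := sat_iff (E := E) kv φ
    obtain ⟨n', h2⟩ := sat_iff (E := E) ev' φ
    obtain ⟨b, h3, h4, h5⟩ := exb (nst ls act) (in_mk (max n n') (fun i => (w i).1) hw) act.lt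
    obtain ⟨r, c, h6, h7⟩ := ((Df.in_ (On.lab IsOp.id.snd.fst) Fn.id.fst).and ((df_sat φ).pre
      (IsOp.id.snd.fst.pair (IsOp.id.fst.pair IsOp.id.snd.snd)))).name
    have h8 := add_nat_lt (nst ls act) h3 r
    have h9 : In t (node (leaf (b + r)) (node c (node (leaf k) (mk (max n n') fun i => (w i).1)))) := by
      simp [h8, in_of_lf h6, act.lt, h5.mono h3.le]
    refine ⟨⟨_, h9.mono act.dom.le⟩, h9, fun u => (h7 E b _ _ (lt.mono h8.le)).trans ?_,
      fun u hu => ?_⟩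
    · rw [h1 (cs u w) (node u.1 (mk (max n n') fun i => (w i).1)) (by
        rintro (_ | i) hi
        exacts [rfl, nth_mk _ _ i (by omega)])]
      exact and_iff_right_of_imp fun c => by simp [h4, h5, In.mono (show In k u.1 from c.1) h4.le]
    · rw [h2 (cs u _) (node u.1 (map e (mk (max n n') fun i => (w i).1))) (by
        rintro (_ | i) hi
        exacts [rfl, (nth_map _ _ _).trans (by rw [nth_mk _ _ i (by omega)]; exact
          (sg_val act.weak (hw i)).symm)])]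
      have h10 : e k < e b := act.weak.mono act.lt h3 h4
      have h11 := act.weak.add_nat r h8
      show Nm E (sg _ _).1 u.1 ↔ _
      rw [sg_val _ h9]
      simp only [map_node, map_leaf, h11, show map e c = c from h6 ▸ map_erase e c]
      refine (h7 E _ _ _ (ls.mono (h11 ▸ act.weak.maps _ h8).le)).trans ((and_iff_right ?_).trans
        (and_iff_right hu))
      simp [h10, In.mono (show In (e k) u.1 from hu) h10.le,
        (act.weak.in_map h3 (h5.mono h3.le)).2 h5]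
  · obtain ⟨b, h3, h4, h5⟩ := exb (nsv act) (sg act.weak m).2 (act.lt.trans act.dom)
    obtain ⟨w, h6, h7⟩ := (Df.nm Fn.id.snd.snd (Fn.id.fst.pair Fn.id.snd.fst)).named_lim
      (z := node (leaf k) (sg act.weak m).1) ls (nsv act) h3 (by simp [h4, h5])
    obtain ⟨n, h8, h9⟩ := AccSt.acc E v k t _ act.next ⟨w, h6, fun _ _ => Iff.rfl⟩
    exact ⟨⟨n, h8.mono act.dom.le⟩, h8, fun a ha => (h9 _ ha).trans ((h7 _).trans
      (and_iff_right (In.mono ha h4.le)))⟩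
  · obtain ⟨w, h1, h2⟩ := accx ls card (nsk act) kv (In.ht_lt (limit_of_not_suc (nsk act)
      (zero_le.trans_lt act.big).ne') hc) n.2
    exact ⟨⟨w, h1.mono kv⟩, h1, fun u => (h2 _).trans
      (and_iff_right_of_imp fun d => Lt.in (H u d) (in_ht _))⟩
  · obtain ⟨a, h1, h2⟩ := oc (fun n => (X n).1) fun n => ⟨(hX n).1, sg_val act.weak (hX n).1 ▸ (hX n).2⟩
    exact ⟨⟨a, h1.mono kv⟩, h1, h2⟩

theorem fr [RegSt.{u}] (ls : LS E d) (dv : d ≤ v) (hd : ¬ Suc d) (hm : 0 < m) (td : t < d)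
    (nx : IsNext E d m t) (ml : m < l) (ld : l < d) {n : Tr.{u}} (hn : In d n)
    (f : Frag E d m t l fun X a => Nm E n (node X a)) :
    NS.Fr (amb v) (lvl E v d) ⟨leaf m, by simpa using (ml.trans ld).trans_le dv⟩
      ⟨leaf t, by simpa using td.trans_le dv⟩ ⟨leaf l, by simpa using ld.trans_le dv⟩
      ⟨n, hn.mono dv⟩ := by
  have tl := AccSt.next_lim E d m t ls nx td
  have mv := ((ml.trans ld).trans_le dv).le
  have lv := (ld.trans_le dv).le
  have cl : ∀ {c : Ordinal.{u}} {a b : Tr.{u}}, Lt a (leaf c) → Lt b (leaf c) →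
      Lt (node a b) (leaf c) := fun h1 h2 =>
    lt_leaf.2 ((in_node _ _ _).2 ⟨lt_leaf.1 h1, lt_leaf.1 h2⟩)
  have two : ∀ {P : Tr.{u} → Tr.{u} → Prop}, (∀ x y : TT v, Lt x.1 (leaf m) → Lt y.1 (leaf m) →
      P x.1 y.1) → ∀ x y, In m x → In m y → P x y := fun H x y h1 h2 =>
    H ⟨x, h1.mono mv⟩ ⟨y, h2.mono mv⟩ (lt_leaf.2 h1) (lt_leaf.2 h2)
  refine ⟨by simpa [lvl] using td, by simpa [lvl] using ld, hn, lt_leaf.2 (by simpa using nx.1),
    lt_leaf.2 (by simpa using ml), ⟨⟨leaf 0, by simpa using hm.trans_le mv⟩,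
      lt_leaf.2 (by simpa using hm), ⟨⟨.nil, in_nil _⟩, lt_leaf.2 (in_nil _)⟩, fun b hb =>
      ⟨(amb v).pr b b, cl hb hb, lt_node _⟩⟩, fun _ _ => cl, fun _ _ => cl, fun _ _ => cl,
    fun X hX c hc H => ?_, fun h hh fn => ?_, fun X a h1 h2 => f.fix _ _ (lt_leaf.1 h1)
      (lt_leaf.1 h2) ((lt_leaf.1 h2).mono ml.le), fun X Y a h1 h2 h3 H => f.ultra _ _ _
      (lt_leaf.1 h1) (lt_leaf.1 h2) (lt_leaf.1 h3) fun x hx => H ⟨x, hx.mono mv⟩ (lt_leaf.2 hx),
    fun X Y Z W a b c h1 h2 h3 h4 h5 h6 h7 c1 c2 c3 c4 => ?_,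
    fun X a b h1 h2 h3 H => f.fst _ _ _ (lt_leaf.1 h1) (lt_leaf.1 h2) (lt_leaf.1 h3) (two H),
    fun X a b h1 h2 h3 H => f.snd _ _ _ (lt_leaf.1 h1) (lt_leaf.1 h2) (lt_leaf.1 h3) (two H),
    fun X a b h1 h2 h3 H => f.lt _ _ _ (lt_leaf.1 h1) (lt_leaf.1 h2) (lt_leaf.1 h3) (two H),
    fun X a b h1 h2 h3 H => (f.nm _ _ _ (lt_leaf.1 h1) (lt_leaf.1 h2) (lt_leaf.1 h3) (two
      fun x y c1 c2 => (H x y c1 c2).trans (and_iff_right_of_imp nm_lt).symm)).trans
      (and_iff_right_of_imp nm_lt), fun g w c b h1 h2 h3 h4 H c1 => ?_,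
    fun X h S hS h1 h2 H1 H2 H3 a ha => f.wf X.1 h.1 S.1 (lt_leaf.1 h1) (lt_leaf.1 h2) hS
      (fun x hx => let ⟨z, c⟩ := H1 ⟨x, hx.mono mv⟩ (lt_leaf.2 hx); ⟨z.1, c⟩)
      (fun x y z w c1 c2 c3 c4 c5 => H2 ⟨x, c1.mono mv⟩ ⟨y, c2.mono mv⟩
        ⟨z, ((nm_lt c4).in h.2).snd⟩ ⟨w, ((nm_lt c5).in h.2).snd⟩ (lt_leaf.2 c1) (lt_leaf.2 c2) c3 c4 c5)
      (fun a c1 c2 => let ⟨a', c3, c4⟩ := H3 ⟨a, c1.mono lv⟩ (lt_leaf.2 c1) c2
        ⟨a'.1, lt_leaf.1 c3, c4⟩) a.1 (lt_leaf.1 ha)⟩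
  · obtain ⟨w, h1, h2⟩ := accx ls (AccSt.next_card E d m t ls nx) (not_suc_of_limit tl) td.le
      ((lt_leaf.1 hc).ht_lt tl) hX
    exact ⟨⟨w, h1.mono (td.le.trans dv)⟩, lt_leaf.2 h1, fun u => (h2 _).trans
      (and_iff_right_of_imp fun d => Lt.in (H u d) (in_ht _))⟩
  · obtain ⟨b, h3, h4, h5⟩ := exb hd hh (ml.trans ld)
    obtain ⟨g, h6, h7⟩ := (Df.least (Df.nm Fn.id.snd.snd (Fn.id.snd.fst.pair Fn.id.fst))).named_lim
      ls hd h3 h5
    obtain ⟨a, h8, h9⟩ := RegSt.reg E d m t g ls nx td h6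
    refine ⟨⟨leaf (max a m), by simpa using ⟨h8.trans (td.trans_le dv), (ml.trans ld).trans_le dv⟩⟩,
      lt_leaf.2 (by simpa using ⟨h8, nx.1⟩), fun x z c1 c2 => cl (lt_leaf.2
        ((lt_leaf.1 c1).mono (le_max_right _ _))) c2, fun x z c1 c2 c3 => lt_leaf.2 ?_⟩
    refine (h9 x.1 (node .nil z.1) (lt_leaf.1 c1) ?_ (by simpa using lt_leaf.1 c2)).snd.mono
      (le_max_left _ _)
    rw [h7, if_pos ((lt_leaf.1 c1).mono h4.le), (least_eq_some (t := z.1)).2 ?_]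
    · rfl
    · exact ⟨⟨((nm_lt c3).in h5).snd, c3⟩, fun s c4 c5 => lt_irrefl' s ((show z.1 = s from
        congrArg Subtype.val (fn x z ⟨s, c4.in z.2⟩ c3 c5.2)) ▸ c4)⟩
  · obtain ⟨x, y, z, d1, d2, d3, d4⟩ := f.sat _ _ _ _ _ _ _ (lt_leaf.1 h1) (lt_leaf.1 h2)
      (lt_leaf.1 h3) (lt_leaf.1 h4) (lt_leaf.1 h5) (lt_leaf.1 h6) (lt_leaf.1 h7) c1 c2 c3 c4
    exact ⟨⟨x, d1.mono mv⟩, ⟨y, d2.mono mv⟩, ⟨z, d3.mono mv⟩, lt_leaf.2 d1, lt_leaf.2 d2,
      lt_leaf.2 d3, d4⟩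
  · obtain ⟨a, d1, d2⟩ := f.normal _ _ _ _ (lt_leaf.1 h1) (lt_leaf.1 h2) (lt_leaf.1 h3)
      (lt_leaf.1 h4) (two fun x y c1 c2 c3 => let ⟨z, c⟩ := H x y c1 c2 c3; ⟨z.1, c⟩) c1
    exact ⟨⟨a, d1.in b.2⟩, d1, d2⟩

end Gren

open Gren in
instance [AccSt.{u}] [RegSt.{u}] : GrenSt.{u} where
  gren E v k t e _ ls act oc ns := by
    have h := top ls act oc
    have kv := (act.lt.trans act.dom).le
    have kl := limit_of_not_suc (nsk act) (zero_le.trans_lt act.big).ne'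
    obtain ⟨I, hI⟩ := h.ind
    obtain ⟨Q, j, h1, h2, h3⟩ := hI.model h.good
    refine h.good.conc h1 h2 h3 fun a ha => ?_
    obtain ⟨m, h4, h5, h6, t', h7, h8, h9⟩ : ∃ m, a.1.ht < m ∧ m < k ∧ StrongTo E k m := by
      by_contra c
      exact ns ⟨_, In.ht_lt kl ha, fun m c1 c2 c3 => c ⟨m, c1, c2, c3⟩⟩
    refine ⟨⟨leaf m, by simpa using h5.trans_le kv⟩, lt_leaf.2 ((in_ht _).mono h4.le),
      fun b hb => ?_⟩
    obtain ⟨l, c1, c2, c3⟩ := exb (nsk act) hb h5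
    obtain ⟨n, c4, c5⟩ := h9 l c1
    exact ⟨_, _, _, by exact lt_leaf.2 c3,
      fr (ls.mono kv) kv (nsk act) (omega0_pos.trans h6) h7 h8 c2 c1 c4 c5⟩

end Pool.Agent.KM
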