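import Pool.Agent.Lib.MP_5c0be7_lc.G.LU

/-!
Indiscernibles from a countably complete measure on top of a named structure.
-/

namespace Pool.Agent.Lib.MP_5c0be7_lc

universe u

variable {T : Type u} {G : Amb T}

/-- A numbering of the formulas. -/
def Fm.no : Fm → ℕ
  | .mem i j => Nat.pair 0 (Nat.pair i j)
  | .lt i j => Nat.pair 1 (Nat.pair i j)
  | .eq i j => Nat.pair 2 (Nat.pair i j)
  | .pr i j k => Nat.pair 3 (Nat.pair i (Nat.pair j k))
  | .neg φ => Nat.pair 4 φ.no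
  | .and φ ψ => Nat.pair 5 (Nat.pair φ.no ψ.no)
  | .ex φ => Nat.pair 6 φ.no

instance : Countable Fm := by
  refine ⟨Fm.no, fun φ => ?_⟩
  induction φ with
  | neg φ ih | ex φ ih => intro ψ h; cases ψ <;> simp [Fm.no] at h; rw [ih h]
  | and φ φ' i1 i2 => intro ψ h; cases ψ <;> simp [Fm.no] at h; rw [i1 h.1, i2 h.2]
  | _ => intro ψ h; cases ψ <;> simp_all [Fm.no]

namespace NS

/-- `σ` maps the names in `N` of subsets of `A` to names of subsets of `B`; `A` is the part of `B`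
below `k`; the measure with seed `k` is amenable and countably complete. -/
structure Top (G : Amb T) (A B : NS T) (N : Set T) (σ : T → T) (k : T) : Prop where
  base : A.Base G
  base' : B.Base G
  same : A.In = B.In
  cut : ∀ u, u ∈ A.C ↔ G.lt u k
  km : k ∈ B.C
  sub : A.C ⊆ N
  fix : ∀ a ∈ A.C, σ a = a
  el : ∀ φ v, (∀ i, v i ∈ N) → (A.Sat G φ v ↔ B.Sat G φ fun i => σ (v i))
  df : ∀ φ v, (∀ i, v i ∈ N) → ∃ m ∈ N, (∀ u, A.In u m ↔ u ∈ A.C ∧ A.Sat G φ (cs u v)) ∧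
    ∀ u ∈ B.C, B.In u (σ m) ↔ B.Sat G φ (cs u fun i => σ (v i))
  am : ∀ m ∈ N, ∃ n ∈ N, ∀ a ∈ A.C, A.In a n ↔ B.In (G.pr a k) (σ m)
  ini : ∀ c ∈ A.C, ∀ n, n ∈ N ∨ n ∈ B.C → (∀ u, A.In u n → G.lt u c) →
    ∃ w ∈ A.C, ∀ u, A.In u w ↔ A.In u n
  oc : ∀ X : ℕ → T, (∀ n, X n ∈ N ∧ B.In k (σ (X n))) → ∃ a ∈ A.C, ∀ n, A.In a (X n)

/-- The code of a point and a list of points. -/
def cd (G : Amb T) (p : T) : List T → T
  | [] => p
  | y :: l => G.pr (cd G p l) y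

/-- A strictly decreasing list of points of `I` above `p`. -/
def Dec (G : Amb T) (I : Set T) (p : T) (l : List T) : Prop :=
  l.Pairwise (fun a b => G.lt b a) ∧ ∀ y ∈ l, y ∈ I ∧ G.lt p y

/-- `I` is a set of indiscernibles over smaller parameters, of uncountable cofinality. -/
structure Ind (G : Amb T) (A : NS T) (I : Set T) : Prop where
  sub : I ⊆ A.C
  cof : ∀ a : ℕ → T, (∀ n, a n ∈ A.C) → ∃ y ∈ I, ∀ n, G.lt (a n) y
  cl : ∀ y ∈ I, ∀ a b, G.lt a y → G.lt b y → G.lt (G.pr a b) y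
  ind : ∀ φ, ∀ p ∈ A.C, ∀ l l', l.length = l'.length → Dec G I p l → Dec G I p l' →
    A.Sat G φ (fun _ => cd G p l) → A.Sat G φ fun _ => cd G p l'

variable {A B : NS T} {N I : Set T} {σ : T → T} {k p y : T} {l : List T}

theorem Base.cd_mem (h : A.Base G) (hp : p ∈ A.C) (hl : ∀ y ∈ l, y ∈ A.C) : cd G p l ∈ A.C := by
  induction l with
  | nil => exact hp
  | cons y l ih => exact h.prc _ (ih fun z hz => hl z (.tail _ hz)) _ (hl y (.head _))

theorem cd_lt (c : ∀ a b, G.lt a y → G.lt b y → G.lt (G.pr a b) y) (hp : G.lt p y)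
    (hl : ∀ z ∈ l, G.lt z y) : G.lt (cd G p l) y := by
  induction l with
  | nil => exact hp
  | cons z l ih => exact c _ _ (ih fun z hz => hl z (.tail _ hz)) (hl z (.head _))

theorem Dec.mono {I' : Set T} (h : Dec G I p l) (e : I ⊆ I') : Dec G I' p l :=
  ⟨h.1, fun y hy => ⟨e (h.2 y hy).1, (h.2 y hy).2⟩⟩

/-- The formula that says: the point is closed under pairing and guesses a section. -/
def fD : Fm :=
  .and (.neg (.ex (.ex (.and (.lt 0 2) (.and (.lt 1 2) (.ex (.and (.pr 0 2 1) (.neg (.lt 0 3)))))))))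
    (.neg (.ex (.and (.lt 0 1) (.ex (.and (.pr 0 1 2)
      (.neg (.and (.neg (.and (.mem 0 3) (.neg (.mem 1 4))))
        (.neg (.and (.mem 1 4) (.neg (.mem 0 3)))))))))))

theorem Base.sat_fD (h : A.Base G) (hy : y ∈ A.C) (m n : T) :
    A.Sat G fD (cs y (cs m fun _ => n)) ↔ (∀ a b, G.lt a y → G.lt b y → G.lt (G.pr a b) y) ∧
      ∀ a, G.lt a y → (A.In (G.pr a y) m ↔ A.In a n) := by
  have i := h.init y hy
  refine and_congr ⟨fun c a b ha hb => ?_, fun c ⟨a, _, b, _, hb, ha, z, _, e, d⟩ =>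
    d ((show z = _ from e) ▸ c a b ha hb)⟩ ⟨fun c a ha => ?_, fun c ⟨a, _, ha, z, _, e, d⟩ => ?_⟩
  · by_contra d
    exact c ⟨a, i a ha, b, i b hb, hb, ha, _, h.prc a (i a ha) b (i b hb), rfl, d⟩
  · by_contra d
    refine c ⟨a, i a ha, ha, _, h.prc a (i a ha) y hy, rfl, fun e => d ⟨fun x => ?_, fun x => ?_⟩⟩
    exacts [not_not.1 fun z => e.1 ⟨x, z⟩, not_not.1 fun z => e.2 ⟨x, z⟩]
  · obtain rfl : z = G.pr a y := e
    exact d ⟨fun x => x.2 ((c a ha).1 x.1), fun x => x.2 ((c a ha).2 x.1)⟩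

namespace Top

variable (h : Top G A B N σ k)
include h

theorem map {x : T} (hx : x ∈ A.C) : x ∈ B.C := h.base'.init k h.km x ((h.cut x).1 hx)

theorem elId : A.El G B id :=
  ⟨fun _ => h.map, fun φ v hv => (h.el φ v fun i => h.sub (hv i)).trans
    (iff_of_eq (congrArg _ (funext fun i => h.fix _ (hv i))))⟩

theorem good : A.Good G := by
  refine h.elId.good_of_top h.base h.base' h.km (fun x => (h.cut x).1) (fun φ v hv c hc => ?_)
    fun c hc n hn => h.same ▸ h.ini c hc n (Or.inr hn)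
  obtain ⟨ψ, e⟩ := (FD.lt (G := G) (K := fun _ => True) 0 1).and (FD.sat_rename φ fun i =>
    match i with | 0 => 0 | i + 1 => i + 2)
  obtain ⟨m, hm, e1, -⟩ := h.df ψ (cs c v) fun i => h.sub (cs_mem hv hc i)
  have e2 : ∀ u, A.In u m ↔ G.lt u c ∧ A.Sat G φ (cs u v) := fun u => by
    have k := fun hu : u ∈ A.C => e A trivial _ (cs_mem (cs_mem hv hc) hu)
    simp only [show (fun i => cs u (cs c v) (match i with | 0 => 0 | i + 1 => i + 2)) = cs u v from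
      funext fun i => by cases i <;> rfl] at k
    exact (e1 u).trans ⟨fun d => (k d.1).1 d.2, fun d =>
      ⟨h.base.init c hc u d.1, (k (h.base.init c hc u d.1)).2 d⟩⟩
  obtain ⟨w, hw, e3⟩ := h.ini c hc m (Or.inl hm) fun u d => ((e2 u).1 d).1
  exact ⟨w, h.map hw, fun u => h.same ▸ (e3 u).trans (e2 u)⟩

theorem diag {m : T} (hm : m ∈ N) : ∃ n ∈ N, ∃ D ∈ N, B.In k (σ D) ∧ ∀ y, A.In y D → y ∈ A.C ∧
    (∀ a b, G.lt a y → G.lt b y → G.lt (G.pr a b) y) ∧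
      ∀ a, G.lt a y → (A.In (G.pr a y) m ↔ A.In a n) := by
  obtain ⟨n, hn, e⟩ := h.am m hm
  obtain ⟨D, hD, e1, e2⟩ := h.df fD (cs m fun _ => n) (cs_mem (fun _ => hn) hm)
  refine ⟨n, hn, D, hD, (e2 k h.km).2 ?_, fun y hy => ⟨((e1 y).1 hy).1,
    (h.base.sat_fD ((e1 y).1 hy).1 m n).1 ((e1 y).1 hy).2⟩⟩
  rw [show (fun i => σ (cs m (fun _ => n) i)) = cs (σ m) fun _ => σ n from
    funext fun i => by cases i <;> rfl]
  refine (h.base'.sat_fD h.km _ _).2 ⟨fun a b ha hb => (h.cut _).1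
    (h.base.prc a ((h.cut a).2 ha) b ((h.cut b).2 hb)), fun a ha => ?_⟩
  have aC := (h.cut a).2 ha
  refine (e a aC).symm.trans ((h.el (.mem 0 1) (cs a fun _ => n)
    (cs_mem (fun _ => hn) (h.sub aC))).trans ?_)
  exact iff_of_eq (congrArg (B.In · (σ n)) (h.fix a aC))

theorem row (n : ℕ) : ∀ m ∈ N, ∃ m' ∈ N, ∃ Y ∈ N, B.In k (σ Y) ∧ ∀ l : List T, l.length = n →
    ∀ p, Dec G {y | A.In y Y} p l → (A.In (cd G p l) m ↔ A.In p m') := by
  induction n with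
  | zero =>
    intro m hm
    obtain ⟨-, -, D, hD, e, -⟩ := h.diag hm
    refine ⟨m, hm, D, hD, e, fun l hl p _ => ?_⟩
    rw [List.length_eq_zero_iff.1 hl, cd]
  | succ n ih =>
    intro m hm
    obtain ⟨m1, h1, D, hD, e, e1⟩ := h.diag hm
    obtain ⟨m', h2, Y, hY, e2, e3⟩ := ih m1 h1
    obtain ⟨Z, hZ, e4, e5⟩ := h.df (.and (.mem 0 1) (.mem 0 2)) (cs D fun _ => Y)
      (cs_mem (fun _ => hY) hD)
    refine ⟨m', h2, Z, hZ, (e5 k h.km).2 ⟨e, e2⟩, fun l hl p d => ?_⟩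
    obtain _ | ⟨y, l⟩ := l
    · cases hl
    have y1 := d.2 y (.head _)
    have y2 := e1 y ((e4 y).1 y1.1).2.1
    have d1 := List.pairwise_cons.1 d.1
    exact (y2.2.2 _ (cd_lt y2.2.1 y1.2 d1.1)).trans (e3 l (Nat.succ.inj hl) p ⟨d1.2, fun z hz =>
      ⟨((e4 z).1 (d.2 z (.tail _ hz)).1).2.2, (d.2 z (.tail _ hz)).2⟩⟩)

theorem ind : ∃ I, Ind G A I := by
  obtain ⟨z, hz⟩ := h.base.ne
  have nm : ∀ φ, ∃ m ∈ N, ∀ u ∈ A.C, A.In u m ↔ A.Sat G φ fun _ => u := fun φ => by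
    obtain ⟨ψ, e⟩ := FD.sat_rename (G := G) (K := fun _ => True) φ fun _ => 0
    obtain ⟨m, hm, e1, -⟩ := h.df ψ (fun _ => z) fun _ => h.sub hz
    exact ⟨m, hm, fun u hu => (e1 u).trans ((and_iff_right hu).trans
      (e A trivial _ (cs_mem (fun _ => hz) hu)))⟩
  choose m hm em using nm
  choose m' _ Y hY eY eR using fun q : Fm × ℕ => h.row q.2 _ (hm q.1)
  obtain ⟨_, -, D, hD, eD, cD⟩ := h.diag (h.sub hz)
  refine ⟨{y | A.In y D ∧ ∀ q, A.In y (Y q)}, fun y hy => (cD y hy.1).1, fun a ha => ?_,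
    fun y hy => (cD y hy.1).2.1, fun φ p hp l l' e d d' => ?_⟩
  · choose X hX e1 e2 using fun n => h.df (.lt 1 0) (fun _ => a n) fun _ => h.sub (ha n)
    obtain ⟨f, hf⟩ := exists_surjective_nat (Option ((Fm × ℕ) ⊕ ℕ))
    let W : Option ((Fm × ℕ) ⊕ ℕ) → T := fun o => o.elim D (Sum.elim Y X)
    have hW : ∀ o, W o ∈ N ∧ B.In k (σ (W o)) := by
      rintro (_ | q | n)
      exacts [⟨hD, eD⟩, ⟨hY q, eY q⟩, ⟨hX n, (e2 n k h.km).2
        (show G.lt (σ (a n)) k from (h.fix _ (ha n)).symm ▸ (h.cut _).1 (ha n))⟩]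
    obtain ⟨y, -, c⟩ := h.oc (fun n => W (f n)) fun n => hW _
    have c' : ∀ o, A.In y (W o) := fun o => let ⟨n, e⟩ := hf o; e ▸ c n
    exact ⟨y, ⟨c' none, fun q => c' (some (.inl q))⟩, fun n =>
      ((e1 n y).1 (c' (some (.inr n)))).2⟩
  · have k : ∀ l : List T, Dec G {y | A.In y D ∧ ∀ q, A.In y (Y q)} p l →
        (A.Sat G φ (fun _ => cd G p l) ↔ A.In p (m' (φ, l.length))) := fun l d =>
      (em φ _ (h.base.cd_mem hp fun y hy => (cD y (d.2 y hy).1.1).1)).symm.trans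
        (eR (φ, l.length) l rfl p (d.mono fun y hy => hy.2 _))
    rw [k l d, k l' d', e]
    exact id

end Top

end NS

end Pool.Agent.Lib.MP_5c0be7_lc
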