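import Pool.Agent.Lib.MP_5c0be7_lc.NS2

/-!
Limit ultrapowers: a family of functions into a transitive class that is closed under Skolem
functions modulo an ultrafilter, well-founded and set-like, collapses to a transitive class.
-/

namespace Pool.Agent.Lib.MP_5c0be7_lc

open ZFSet Cx Filter Pool.Agent.Lib.MP_053343_lc
open Pool.Agent.Shared.LDefs (E cons tl)

universe v

/-- The data of a limit ultrapower of `M`. -/
structure LU {H : Type v} (M : S) (u : Ultrafilter H) (D : Set (H → Z)) : Prop where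
  zf : ZF0 M
  mem : ∀ f ∈ D, ∀ᶠ h in u, f h ∈ M
  cst : ∀ x ∈ M, ∃ f ∈ D, ∀ᶠ h in u, f h = x
  sk : ∀ φ (g : ℕ → H → Z), (∀ i, g i ∈ D) → ∃ f ∈ D, ∀ᶠ h in u,
    ES M (.ex φ) (fun i => g i h) → ES M φ (cons (f h) fun i => g i h)
  wf : WellFounded fun f g => f ∈ D ∧ g ∈ D ∧ ∀ᶠ h in u, f h ∈ g h
  small : ∀ g ∈ D, ∃ s : Set (H → Z), Small.{0} s ∧ s ⊆ D ∧
    ∀ f ∈ D, (∀ᶠ h in u, f h ∈ g h) → ∃ c ∈ s, ∀ᶠ h in u, f h = c h

namespace LU

variable {H : Type v} {M : S} {u : Ultrafilter H} {D : Set (H → Z)} (h : LU M u D) {f g : H → Z}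
include h

open Classical in
/-- A set of representatives for the predecessors. -/
def Fs (g : H → Z) : Set (H → Z) :=
  {f | (f ∈ D ∧ g ∈ D ∧ ∀ᶠ x in u, f x ∈ g x) ∧ ∃ hg : g ∈ D, f ∈ (h.small g hg).choose}

instance (g : H → Z) : Small.{0} (h.Fs g) := by
  by_cases hg : g ∈ D
  · have := (h.small g hg).choose_spec.1
    exact small_subset (s := (h.small g hg).choose) fun f hf => hf.2.2
  · exact small_subset (s := ∅) fun f hf => (hg hf.1.2.1).elim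

/-- The transitive collapse. -/
noncomputable def pi : (H → Z) → Z :=
  h.wf.fix fun g ih => ZFSet.range fun f : h.Fs g => ih f.1 f.2.1

theorem mem_pi0 {y : Z} : y ∈ h.pi g ↔ ∃ f ∈ h.Fs g, h.pi f = y := by
  rw [pi, WellFounded.fix_eq]; simp

theorem rep (hf : f ∈ D) (hg : g ∈ D) (e : ∀ᶠ x in u, f x ∈ g x) :
    ∃ c ∈ h.Fs g, ∀ᶠ x in u, f x = c x :=
  let ⟨_, h1, h2⟩ := (h.small g hg).choose_spec; let ⟨c, h3, h4⟩ := h2 f hf e
  ⟨c, ⟨⟨h1 h3, hg, (e.and h4).mono fun _ e => e.2 ▸ e.1⟩, hg, h3⟩, h4⟩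

theorem pi_congr (f : H → Z) : f ∈ D → ∀ g ∈ D, (∀ᶠ x in u, f x = g x) → h.pi f = h.pi g := by
  induction f using h.wf.induction with
  | _ f ih =>
    intro hf g hg e
    ext y
    rw [mem_pi0, mem_pi0]
    constructor
    · rintro ⟨a, ⟨h1, -⟩, rfl⟩
      obtain ⟨b, hb, e'⟩ := h.rep h1.1 hg ((e.and h1.2.2).mono fun _ e => e.1 ▸ e.2)
      exact ⟨b, hb, (ih a h1 h1.1 b hb.1.1 e').symm⟩
    · rintro ⟨a, ⟨h1, -⟩, rfl⟩
      obtain ⟨b, hb, e'⟩ := h.rep h1.1 hf ((e.and h1.2.2).mono fun _ e => e.1 ▸ e.2)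
      exact ⟨b, hb, ih b hb.1 hb.1.1 a h1.1 (e'.mono fun _ => Eq.symm)⟩

theorem mem_pi (hg : g ∈ D) {y : Z} :
    y ∈ h.pi g ↔ ∃ f ∈ D, (∀ᶠ x in u, f x ∈ g x) ∧ h.pi f = y := by
  rw [mem_pi0]
  refine ⟨fun ⟨f, a, b⟩ => ⟨f, a.1.1, a.1.2.2, b⟩, ?_⟩
  rintro ⟨f, hf, e, rfl⟩
  obtain ⟨b, hb, e'⟩ := h.rep hf hg e
  exact ⟨b, hb, (h.pi_congr f hf b hb.1.1 e').symm⟩

theorem sub (hf : f ∈ D) (hg : g ∈ D) (e : ∀ c ∈ D, (∀ᶠ x in u, c x ∈ f x) →
    ∀ᶠ x in u, c x ∈ g x) : ∀ᶠ x in u, f x ⊆ g x := by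
  obtain ⟨c, hc, e1⟩ := h.sk (.and (.mem 0 1) (.neg (.mem 0 2)))
    (fun i => match i with | 0 => f | _ + 1 => g) (by rintro (_ | i); exacts [hf, hg])
  by_contra e2
  have e3 : ∀ᶠ x in u, c x ∈ f x ∧ c x ∉ g x := ((Ultrafilter.eventually_not.2 e2).and
    (e1.and (h.mem f hf))).mono fun x ⟨c1, c2, c3⟩ => by
      obtain ⟨y, hy⟩ := not_forall.1 c1
      push Not at hy
      exact c2 ⟨y, h.zf.trans _ c3 _ hy.1, hy⟩
  obtain ⟨x, c1, c2⟩ := (e3.and (e c hc (e3.mono fun _ => And.left))).exists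
  exact c1.2 c2

theorem pi_inj (f : H → Z) : f ∈ D → ∀ g ∈ D, h.pi f = h.pi g → ∀ᶠ x in u, f x = g x := by
  induction f using h.wf.induction with
  | _ f ih =>
    intro hf g hg e
    refine ((h.sub hf hg fun c hc e1 => ?_).and (h.sub hg hf fun c hc e1 => ?_)).mono
      fun a e => ZFSet.ext fun _ => ⟨fun y => e.1 y, fun y => e.2 y⟩
    · obtain ⟨b, hb, e2, e3⟩ := (h.mem_pi hg).1 (e ▸ (h.mem_pi hf).2 ⟨c, hc, e1, rfl⟩)
      exact ((ih c ⟨hc, hf, e1⟩ hc b hb e3.symm).and e2).mono fun _ e => e.1 ▸ e.2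
    · obtain ⟨b, hb, e2, e3⟩ := (h.mem_pi hf).1 (e ▸ (h.mem_pi hg).2 ⟨c, hc, e1, rfl⟩)
      exact ((ih b ⟨hb, hf, e2⟩ hb c hc e3).and e2).mono fun _ e => e.1 ▸ e.2

theorem pi_mem (hf : f ∈ D) (hg : g ∈ D) : h.pi f ∈ h.pi g ↔ ∀ᶠ x in u, f x ∈ g x :=
  (h.mem_pi hg).trans ⟨fun ⟨b, hb, e2, e3⟩ => ((h.pi_inj _ hf b hb e3.symm).and e2).mono
    fun _ e => e.1 ▸ e.2, fun e => ⟨_, hf, e, rfl⟩⟩

theorem los (φ : Fml) : ∀ v : ℕ → H → Z, (∀ i, v i ∈ D) →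
    (ES (h.pi '' D) φ (fun i => h.pi (v i)) ↔ ∀ᶠ x in u, ES M φ fun i => v i x) := by
  induction φ with
  | mem i j => exact fun v hv => h.pi_mem (hv i) (hv j)
  | eq i j => exact fun v hv => ⟨h.pi_inj _ (hv i) _ (hv j), h.pi_congr _ (hv i) _ (hv j)⟩
  | neg φ ih => exact fun v hv => (not_congr (ih v hv)).trans Ultrafilter.eventually_not.symm
  | and φ ψ i1 i2 => exact fun v hv => (and_congr (i1 v hv) (i2 v hv)).trans eventually_and.symm
  | ex φ ih =>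
    intro v hv
    have e0 : ∀ f ∈ D, ∀ i, cs f v i ∈ D := fun f hf => cs_mem hv hf
    have e1 : ∀ f, (fun i => h.pi (cs f v i)) = cons (h.pi f) fun i => h.pi (v i) :=
      fun f => funext fun i => by cases i <;> rfl
    have e2 : ∀ f a, (fun i => cs f v i a) = cons (f a) fun i => v i a :=
      fun f a => funext fun i => by cases i <;> rfl
    constructor
    · rintro ⟨_, ⟨f, hf, rfl⟩, e⟩
      exact (((ih _ (e0 f hf)).1 (e1 f ▸ e)).and (h.mem f hf)).mono fun a e =>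
        ⟨_, e.2, e2 f a ▸ e.1⟩
    · intro e
      obtain ⟨f, hf, e3⟩ := h.sk φ v hv
      exact ⟨_, ⟨f, hf, rfl⟩, e1 f ▸ (ih _ (e0 f hf)).2 ((e.and e3).mono
        fun a e => (e2 f a).symm ▸ e.2 e.1)⟩

theorem tr : Tr (h.pi '' D) := by
  rintro _ ⟨g, hg, rfl⟩ y hy
  obtain ⟨f, hf, -, e⟩ := (h.mem_pi hg).1 hy
  exact ⟨f, hf, e⟩

open Classical in
/-- The constant functions. -/
noncomputable def k (x : Z) : H → Z := if hx : x ∈ M then (h.cst x hx).choose else fun _ => x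

theorem k_mem {x : Z} (hx : x ∈ M) : h.k x ∈ D := by
  rw [k, dif_pos hx]; exact (h.cst x hx).choose_spec.1

theorem k_eq (x : Z) : ∀ᶠ y in u, h.k x y = x := by
  unfold k
  split_ifs with hx
  exacts [(h.cst x hx).choose_spec.2, .of_forall fun _ => rfl]

/-- The ultrapower map. -/
noncomputable def j (x : Z) : Z := h.pi (h.k x)

omit h in
theorem fin (φ : Fml) {v w : ℕ → H → Z} (e : ∀ i, ∀ᶠ x in u, v i x = w i x) :
    ∀ᶠ x in u, ES M φ (fun i => v i x) ↔ ES M φ fun i => w i x :=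
  let ⟨n, hn⟩ := es_fin φ
  ((eventually_all_finite (Set.finite_lt_nat n)).2 fun i _ => e i).mono fun _ c => hn M _ _ c

theorem el : Elem M (h.pi '' D) h.j :=
  ⟨fun _ hx => ⟨_, h.k_mem hx, rfl⟩, fun φ v hv => ((h.los φ _ fun i => h.k_mem (hv i)).trans
    ((eventually_congr (fin φ (w := fun i _ => v i) fun _ => h.k_eq _)).trans
      eventually_const)).symm⟩

theorem zq : ZF0 (h.pi '' D) := h.el.zf h.zf h.tr

/-- The theorem of Łoś for definable predicates. -/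
theorem losU {P : S → E.{0} → Prop} (hP : UD ZF0 P) (v : ℕ → H → Z) (hv : ∀ i, v i ∈ D)
    (n : ℕ) (e : ∀ i, n ≤ i → v i = v n) :
    P (h.pi '' D) (fun i => h.pi (v i)) ↔ ∀ᶠ x in u, P M fun i => v i x := by
  obtain ⟨φ, c⟩ := hP
  refine (c _ h.zq _ fun i => ⟨_, hv i, rfl⟩).symm.trans ((h.los φ v hv).trans
    (eventually_congr (((eventually_all_finite (Set.finite_le_nat n)).2
      fun i _ => h.mem _ (hv i)).mono fun x d => c M h.zf _ fun i => ?_)))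
  exact (le_total i n).elim (d i) fun c => e i c ▸ d n (le_refl n)

end LU

end Pool.Agent.Lib.MP_5c0be7_lc
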